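import Pool.Agent.W_448xc_h84.XgD

/-!
# The general exchange (MP_448cb3_co): the flip of a pendant block, one side
-/

namespace Pool.Agent.GaussPoset.Win.Xg

set_option linter.unusedSectionVars false

open Finset Kd W4

universe u

variable {P : Type u} [Fintype P] [PartialOrder P] [DecidableEq P] {r i : ℕ}
variable {dn up : P → Finset P} {lam : P → ℤ} {y p v v' z : P} {e : P → ℕ}

/-- an isolated pendant block `{y, p}`, both labels one -/
structure PBk (dn up : P → Finset P) (lam : P → ℤ) (y p v v' : P) (e : P → ℕ) : Prop where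
  ly : lam y = 1
  uy : up y = {v, v'}
  ne : v ≠ v'
  upp : up p = {y}
  e1 : e y = 1
  e2 : e p = 1
  ev : e v = 0
  ev' : e v' = 0
  nv : ∀ z ∈ dn v, z ≠ y → e z = 0
  nv' : ∀ z ∈ dn v', z ≠ y → e z = 0
  ny : ∀ z ∈ dn y, z ≠ p → e z = 0
  np : ∀ z ∈ dn p, e z = 0

/-- remove a block -/
def rm (y p : P) (e : P → ℕ) : P → ℕ := fun z => if z = y ∨ z = p then 0 else e z

lemma rm_of (h1 : z ≠ y) (h2 : z ≠ p) : rm y p e z = e z := by
  unfold rm
  rw [if_neg (by tauto)]

lemma rm_y : rm y p e y = 0 := by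
  unfold rm
  rw [if_pos (Or.inl rfl)]

lemma rm_p : rm y p e p = 0 := by
  unfold rm
  rw [if_pos (Or.inr rfl)]

lemma rm_le : rm y p e z ≤ e z := by
  unfold rm
  split_ifs <;> omega

section one

variable (S : Side dn up lam) (B : PBk dn up lam y p v v' e)
include S B

lemma PBk.symm : PBk dn up lam y p v' v e where
  ly := B.ly
  uy := by rw [B.uy, pair_comm]
  ne := B.ne.symm
  upp := B.upp
  e1 := B.e1
  e2 := B.e2
  ev := B.ev'
  ev' := B.ev
  nv := B.nv'
  nv' := B.nv
  ny := B.ny
  np := B.np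

lemma PBk.lv : lam v = 0 ∧ lam v' = 0 ∧ lam p = 2 := by
  have h1 := S.lm (S.du.2 (show v ∈ up y by rw [B.uy]; simp))
  have h2 := S.lm (S.du.2 (show v' ∈ up y by rw [B.uy]; simp))
  have h3 := S.lm (S.du.2 (show y ∈ up p by rw [B.upp]; simp))
  have := B.ly
  omega

lemma PBk.mem_y : y ∈ dn v ∧ y ∈ dn v' ∧ p ∈ dn y := by
  refine ⟨S.du.2 ?_, S.du.2 ?_, S.du.2 ?_⟩
  · rw [B.uy]; simp
  · rw [B.uy]; simp
  · rw [B.upp]; simp

lemma PBk.bg_v : Bg dn e v ∧ ¬ Bg dn (rm y p e) v := by
  have h := B.lv S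
  have hm := B.mem_y S
  have hv : v ≠ y := by rintro rfl; have := B.ly; omega
  have hvp : v ≠ p := by rintro rfl; omega
  refine ⟨⟨y, hm.1, by rw [B.ev, B.e1]; omega⟩, ?_⟩
  rintro ⟨z, hz, hlt⟩
  rw [rm_of hv hvp, B.ev] at hlt
  by_cases h1 : z = y
  · rw [h1, rm_y] at hlt
    omega
  · have h2 := B.nv z hz h1
    have h3 := rm_le (y := y) (p := p) (e := e) (z := z)
    omega

lemma PBk.bg_of (hz : 0 ≤ lam z) (h1 : z ≠ v) (h2 : z ≠ v') :
    Bg dn (rm y p e) z ↔ Bg dn e z := by
  have h := B.lv S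
  have hly := B.ly
  by_cases hy : z = y
  · subst hy
    constructor
    · rintro ⟨c, hc, hlt⟩
      rw [rm_y] at hlt
      by_cases hcp : c = p
      · rw [hcp, rm_p] at hlt
        omega
      · have h2 := B.ny c hc hcp
        have h3 := rm_le (y := z) (p := p) (e := e) (z := c)
        omega
    · rintro ⟨c, hc, hlt⟩
      rw [B.e1] at hlt
      by_cases hcp : c = p
      · rw [hcp, B.e2] at hlt
        omega
      · have h2 := B.ny c hc hcp
        omega
  by_cases hp : z = p
  · subst hp
    constructor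
    · rintro ⟨c, hc, hlt⟩
      have h2 := B.np c hc
      have h3 := rm_le (y := y) (p := z) (e := e) (z := c)
      omega
    · rintro ⟨c, hc, hlt⟩
      have h2 := B.np c hc
      omega
  -- the elements of `dn z` are not `y`, `p`
  have key : ∀ c ∈ dn z, c ≠ y ∧ c ≠ p := by
    intro c hc
    constructor
    · rintro rfl
      have := S.du.1 hc
      rw [B.uy, mem_insert, mem_singleton] at this
      tauto
    · rintro rfl
      have := S.du.1 hc
      rw [B.upp, mem_singleton] at this
      tauto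
  unfold Bg
  refine exists_congr fun c => and_congr_right fun hc => ?_
  rw [rm_of hy hp, rm_of (key c hc).1 (key c hc).2]

lemma PBk.ge_of (hz : 1 ≤ lam z) (h1 : z ≠ y) : Ge up (rm y p e) z ↔ Ge up e z := by
  have h := B.lv S
  have hly := B.ly
  have hm := B.mem_y S
  have hyp : y ≠ p := by rintro rfl; omega
  by_cases hp : z = p
  · subst hp
    constructor
    · rintro -
      exact ⟨y, by rw [B.upp]; simp, by rw [B.e1, B.e2]⟩
    · rintro -
      exact ⟨y, by rw [B.upp]; simp, by rw [rm_y, rm_p]⟩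
  by_cases h2 : y ∈ up z
  · have h3 : e z = 0 := B.ny z (S.du.2 h2) hp
    constructor
    · rintro -
      exact ⟨y, h2, by omega⟩
    · rintro -
      exact ⟨y, h2, by rw [rm_of h1 hp, rm_y, h3]⟩
  by_cases h3 : p ∈ up z
  · have h4 : e z = 0 := B.np z (S.du.2 h3)
    constructor
    · rintro -
      exact ⟨p, h3, by omega⟩
    · rintro -
      exact ⟨p, h3, by rw [rm_of h1 hp, rm_p, h4]⟩
  unfold Ge
  refine exists_congr fun c => and_congr_right fun hc => ?_
  rw [rm_of h1 hp, rm_of (by rintro rfl; exact h2 hc) (by rintro rfl; exact h3 hc)]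

lemma PBk.ge_y : ¬ Ge up e y ∧ Ge up (rm y p e) y := by
  have h := B.lv S
  have hly := B.ly
  constructor
  · rintro ⟨c, hc, hle⟩
    rw [B.uy, mem_insert, mem_singleton] at hc
    rw [B.e1] at hle
    have h1 := B.ev
    have h2 := B.ev'
    rcases hc with rfl | rfl <;> omega
  · exact ⟨v, by rw [B.uy]; simp, by rw [rm_y]; omega⟩

lemma PBk.bg_y : ¬ Bg dn e y := by
  rintro ⟨c, hc, hlt⟩
  rw [B.e1] at hlt
  by_cases hcp : c = p
  · rw [hcp, B.e2] at hlt
    omega
  · have h2 := B.ny c hc hcp
    omega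

lemma PBk.bgu_of (hz : lam z ≤ 0) : Bg up (rm y p e) z ↔ Bg up e z := by
  have h := B.lv S
  have hly := B.ly
  unfold Bg
  refine exists_congr fun c => and_congr_right fun hc => ?_
  have h1 := S.lm (S.du.2 hc)
  rw [rm_of (by rintro rfl; omega) (by rintro rfl; omega),
    rm_of (by rintro rfl; omega) (by rintro rfl; omega)]

lemma PBk.geu_of (hz : lam z < 0) : Ge dn (rm y p e) z ↔ Ge dn e z := by
  have h := B.lv S
  have hly := B.ly
  unfold Ge
  refine exists_congr fun c => and_congr_right fun hc => ?_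
  have h1 := S.lm hc
  rw [rm_of (by rintro rfl; omega) (by rintro rfl; omega),
    rm_of (by rintro rfl; omega) (by rintro rfl; omega)]

lemma PBk.ads : AdS dn up lam (rm y p e) ↔ AdS dn up lam e := by
  have h := B.lv S
  unfold AdS
  refine forall_congr' fun z => forall_congr' fun hz => ?_
  have hv : z ≠ v := by rintro rfl; omega
  have hv' : z ≠ v' := by rintro rfl; omega
  rw [B.bg_of S (by omega) hv hv']
  by_cases hy : z = y
  · subst hy
    have := B.bg_y S
    tauto
  · rw [B.ge_of S hz hy]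

lemma PBk.NB : NB dn lam (rm y p e) = NB dn lam e := by
  classical
  have h := B.lv S
  unfold Xg.NB
  congr 1
  refine filter_congr fun z _ => and_congr_right fun hz => ?_
  exact B.bg_of S (by omega) (by rintro rfl; omega) (by rintro rfl; omega)

lemma PBk.NP : NP dn up lam e = NP dn up lam (rm y p e) + 1 := by
  classical
  have h := B.lv S
  unfold Xg.NP
  have h1 : y ∉ univ.filter (fun z : P => 1 ≤ lam z ∧ ¬ Bg dn (rm y p e) z ∧
      ¬ Ge up (rm y p e) z) := by
    rw [mem_filter]
    rintro ⟨-, -, -, h3⟩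
    exact h3 (B.ge_y S).2
  rw [← card_insert_of_notMem h1]
  congr 1
  ext z
  rw [mem_insert, mem_filter, mem_filter]
  by_cases hy : z = y
  · subst hy
    have a1 := B.bg_y S
    have a2 := (B.ge_y S).1
    have a3 := B.ly
    simp only [mem_univ, true_and, true_or, iff_true]
    exact ⟨by omega, a1, a2⟩
  · simp only [mem_univ, true_and, hy, false_or]
    refine and_congr_right fun hz => ?_
    rw [B.bg_of S (by omega) (by rintro rfl; omega) (by rintro rfl; omega), B.ge_of S hz hy]

lemma PBk.NA : NA dn lam e = NA dn lam (rm y p e) + 2 := by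
  classical
  have h := B.lv S
  unfold Xg.NA
  have h1 : v' ∉ univ.filter (fun z : P => lam z = 0 ∧ Bg dn (rm y p e) z) := by
    rw [mem_filter]
    rintro ⟨-, -, h3⟩
    exact (B.symm S).bg_v S |>.2 h3
  have h2 : v ∉ insert v' (univ.filter (fun z : P => lam z = 0 ∧ Bg dn (rm y p e) z)) := by
    rw [mem_insert, mem_filter]
    rintro (h3 | ⟨-, -, h3⟩)
    · exact B.ne h3
    · exact (B.bg_v S).2 h3
  have h3 : (univ.filter (fun z : P => lam z = 0 ∧ Bg dn e z)) =
      insert v (insert v' (univ.filter (fun z : P => lam z = 0 ∧ Bg dn (rm y p e) z))) := by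
    ext z
    rw [mem_insert, mem_insert, mem_filter, mem_filter]
    simp only [mem_univ, true_and]
    by_cases hv : z = v
    · subst hv
      simp only [true_or, iff_true]
      exact ⟨h.1, (B.bg_v S).1⟩
    by_cases hv' : z = v'
    · subst hv'
      simp only [true_or, or_true, iff_true]
      exact ⟨h.2.1, ((B.symm S).bg_v S).1⟩
    simp only [hv, hv', false_or]
    refine and_congr_right fun hz => ?_
    rw [B.bg_of S (by omega) hv hv']
  rw [h3, card_insert_of_notMem h2, card_insert_of_notMem h1]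

end one

end Pool.Agent.GaussPoset.Win.Xg
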