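import Pool.Agent.W_448xc_h84.XgB

/-!
# The general exchange (MP_448cb3_co): the set of the exchangeable places does not change
-/

namespace Pool.Agent.GaussPoset.Win.Xg

set_option linter.unusedSectionVars false

open Finset Kd

universe u

variable {P : Type u} [Fintype P] [PartialOrder P] [DecidableEq P] {r i : ℕ}

/-- a fixed numbering -/
noncomputable def rk (z : P) : ℕ := (Fintype.equivFin P z : ℕ)

lemma rk_inj {y z : P} (h : rk y = rk z) : y = z := by
  unfold rk at h
  exact (Fintype.equivFin P).injective (Fin.ext h)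

/-- an exchangeable place, one side -/
def Can (dn up : P → Finset P) (lam : P → ℤ) (e : P → ℕ) (d x : P) : Prop :=
  ∃ w w2 p q, Tee dn up lam d w w2 p x q ∧ Exo dn up d w w2 p x q e ∧
    ∀ d', up d' = {w, w2} → rk d' < rk d → e d' = 0

/-- an exchangeable place -/
def CanD (i : ℕ) (e : P → ℕ) (d x : P) : Prop :=
  Can dc uc (laL i) e d x ∨ Can uc dc (laU i) e d x

variable {dn up : P → Finset P} {lam : P → ℤ} {d w w2 p x q d' w' w2' p' x' q' : P} {e : P → ℕ}

section same

variable (S : Side dn up lam)
include S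

/-- a side of another place -/
lemma SdO.other (T : Tee dn up lam d w w2 p x q) (E : Exo dn up d w w2 p x q e)
    (T' : Tee dn up lam d' w' w2' p' x' q') (hne : d' ≠ d) (hx : x' ≠ x)
    (h : SdO dn d' x' w' p' e) : SdO dn d' x' w' p' (xc d x e) := by
  have hl := T.lv S
  have hld := T.ld
  have nx := T.x_ne S
  have hl' := T'.lv S
  have hld' := T'.ld
  have ew : xc d x e w' = e w' := T.xc_lev S (by omega) (by omega)
  have ed : xc d x e d' = e d' := xc_of hne (by rintro rfl; omega)
  have ex : xc d x e x' = e x' := xc_of (by rintro rfl; omega) hx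
  have hdw' : d' ∈ dn w' := T'.d_dw S
  have main : ∀ {w w2 p q : P}, Tee dn up lam d w w2 p x q → SdO dn d x w p e → w' = w →
      SdO dn d' x' w' p' (xc d x e) := by
    intro w w2 p q T1 h1 hw
    subst hw
    have hx' : x' = p := by
      have : x' ∈ up w' := by rw [T'.uw]; simp
      rw [T1.uw, mem_insert, mem_singleton] at this
      exact this.resolve_right hx
    have hp' : p' = x := by
      have : p' ∈ up w' := by rw [T'.uw]; simp
      rw [T1.uw, mem_insert, mem_singleton] at this
      refine this.resolve_left fun g => ?_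
      exact T'.px (g.trans hx'.symm)
    rcases h1 with h1 | ⟨h1, h2⟩
    · rcases h with h | ⟨h, h3⟩
      · left
        rw [ew, ed, ex]
        exact h
      · right
        constructor
        · intro z hz hzn
          rw [ew]
          by_cases hzd : z = d
          · rw [hzd, xc_d]
            omega
          · have := S.lm hz
            rw [xc_of hzd (by rintro rfl; omega)]
            exact h z hz hzn
        · rw [ew, hp', xc_x nx]
          have := E.pos
          omega
    · left
      rw [ew, ed, ex]
      refine ⟨h1 d' hdw' hne, ?_⟩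
      rw [hx']
      exact h2
  by_cases h1 : w' = w
  · exact main T E.s1 h1
  by_cases h2 : w' = w2
  · exact main T.symm E.s2 h2
  have hdn : d ∉ dn w' := by
    intro g
    have := S.du.1 g
    rw [T.ud, mem_insert, mem_singleton] at this
    exact this.elim h1 h2
  have hpx : p' ≠ x := by
    rintro rfl
    have : w' ∈ dn p' := S.du.2 (by rw [T'.uw]; simp)
    rw [T.dx, mem_insert, mem_singleton] at this
    exact this.elim h1 h2
  unfold SdO at h ⊢
  rw [ew, ed, ex, xc_of (y := p') (by rintro rfl; omega) hpx]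
  rcases h with h | ⟨h, h3⟩
  · exact Or.inl h
  · refine Or.inr ⟨fun z hz hzn => ?_, h3⟩
    have := S.lm hz
    rw [xc_of (by rintro rfl; exact hdn hz) (by rintro rfl; omega)]
    exact h z hz hzn

/-- two places over the same pair have the same site -/
lemma Tee.site (T : Tee dn up lam d w w2 p x q) (T' : Tee dn up lam d' w' w2' p' x' q')
    (h : up d' = up d) : x' = x := by
  have h1 : w ∈ ({w', w2'} : Finset P) := by rw [← T'.ud, h, T.ud]; simp
  have h2 : w2 ∈ ({w', w2'} : Finset P) := by rw [← T'.ud, h, T.ud]; simp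
  have k1 : x' ∈ up w := by
    rw [mem_insert, mem_singleton] at h1
    rcases h1 with g | g
    · rw [g, T'.uw]; simp
    · rw [g, T'.uw2]; simp
  have k2 : x' ∈ up w2 := by
    rw [mem_insert, mem_singleton] at h2
    rcases h2 with g | g
    · rw [g, T'.uw]; simp
    · rw [g, T'.uw2]; simp
  rw [T.uw, mem_insert, mem_singleton] at k1
  rw [T.uw2, mem_insert, mem_singleton] at k2
  rcases k1 with g1 | g1
  · rcases k2 with g2 | g2
    · exact g2
    · exact absurd (g1.symm.trans g2) T.pq
  · exact g1

/-- STABILITY, the same side -/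
theorem Can.same (h : Can dn up lam e d x) (h' : Can dn up lam e d' x') :
    Can dn up lam (xc d x e) d' x' := by
  obtain ⟨w, w2, p, q, T, E, hr⟩ := h
  obtain ⟨w', w2', p', q', T', E', hr'⟩ := h'
  have hl := T.lv S
  have hld := T.ld
  have nx := T.x_ne S
  have hl' := T'.lv S
  have hld' := T'.ld
  by_cases hdd : d' = d
  · subst hdd
    have hxx := T.site S T' rfl
    subst hxx
    refine ⟨w, w2, p, q, T, E.xc S T, fun z hz hlt => ?_⟩
    have hzl : z ∈ dn w := S.du.2 (by rw [hz]; simp)
    have := S.lm hzl
    rw [xc_of (by rintro rfl; omega) (by rintro rfl; omega)]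
    exact hr z hz hlt
  have hud : up d' ≠ up d := by
    intro g
    rcases Nat.lt_trichotomy (rk d') (rk d) with g1 | g1 | g1
    · have := hr d' (by rw [g, T.ud]) g1
      have := E'.pos
      omega
    · exact hdd (rk_inj g1)
    · have := hr' d (by rw [← g, T'.ud]) g1
      have := E.pos
      omega
  have hx : x' ≠ x := by
    intro g
    apply hud
    rw [T'.ud, T.ud, ← T'.dx, ← T.dx, g]
  have ed : xc d x e d' = e d' := xc_of hdd (by rintro rfl; omega)
  have ex : xc d x e x' = e x' := xc_of (by rintro rfl; omega) hx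
  refine ⟨w', w2', p', q', T', ?_, fun z hz hlt => ?_⟩
  · refine ⟨?_, fun t ht => ?_, fun u hu => ?_, SdO.other S T E T' hdd hx E'.s1,
      SdO.other S T E T'.symm hdd hx E'.s2, ?_⟩
    · rw [ed]
      exact E'.pos
    · have := S.lm ht
      rw [ed, ex, T.xc_lev S (y := t) (by omega) (by omega)]
      exact E'.t1 t ht
    · have := S.lm (S.du.2 hu)
      rw [ed, ex, T.xc_lev S (y := u) (by omega) (by omega)]
      exact E'.u1 u hu
    · have := E'.act
      unfold Act at this ⊢
      rw [ed, ex, T.xc_lev S (y := w') (by omega) (by omega),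
        T.xc_lev S (y := w2') (by omega) (by omega)]
      exact this
  · have hzl : z ∈ dn w' := S.du.2 (by rw [hz]; simp)
    have := S.lm hzl
    rw [xc_of (by rintro rfl; exact hud (by rw [hz, T'.ud])) (by rintro rfl; omega)]
    exact hr' z hz hlt

end same

section opp

/-- STABILITY, opposite sides -/
theorem Can.opp {lam' : P → ℤ} (S : Side dn up lam) (S' : Side up dn lam')
    (hlam : ∀ z, lam' z = - lam z) (hA : AdS dn up lam e) (hA' : AdS up dn lam' e)
    (h : Can dn up lam e d x) (h' : Can up dn lam' e d' x') :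
    Can up dn lam' (xc d x e) d' x' := by
  obtain ⟨w, w2, p, q, T, E, hr⟩ := h
  obtain ⟨w', w2', p', q', T', E', hr'⟩ := h'
  have hl := T.lv S
  have hld := T.ld
  have nx := T.x_ne S
  have hl' := T'.lv S'
  have hld' := T'.ld
  simp only [hlam] at hl' hld'
  have hx : x' ≠ x := by
    intro g
    subst g
    have a1 := E'.u1 w (by rw [T.dx]; simp)
    have a2 := E.u1 w' (by rw [T'.dx]; simp)
    have a3 : e d ≤ e w := by
      by_contra hcon
      exact hA w (by omega) ⟨⟨d, T.d_dw S, by omega⟩, ⟨x', by rw [T.uw]; simp, a1.1⟩⟩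
    have a4 : e d' ≤ e w' := by
      by_contra hcon
      refine hA' w' ?_ ⟨⟨d', T'.d_dw S', by omega⟩, ⟨x', by rw [T'.uw]; simp, a2.1⟩⟩
      rw [hlam]
      omega
    omega
  have ed : xc d x e d' = e d' := T.xc_lev S (by omega) (by omega)
  have ex : xc d x e x' = e x' := xc_of (by rintro rfl; omega) hx
  have side : ∀ {w' w2' p' q' : P}, Tee up dn lam' d' w' w2' p' x' q' → SdO up d' x' w' p' e →
      SdO up d' x' w' p' (xc d x e) := by
    intro w' w2' p' q' T1 h1
    have hl1 := T1.lv S'
    simp only [hlam] at hl1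
    have ew : xc d x e w' = e w' := T.xc_lev S (by omega) (by omega)
    rcases h1 with h1 | ⟨h1, h2⟩
    · left
      rw [ew, ed, ex]
      exact h1
    · right
      have hpx : p' ≠ x := by
        intro g
        have g1 : w' ∈ up x := by
          rw [← g]
          exact S.du.1 (by rw [T1.uw]; simp)
        have := E.u1 w' g1
        rw [g] at h2
        omega
      rw [ew, xc_of (y := p') (by rintro rfl; omega) hpx]
      refine ⟨fun z hz hzn => ?_, h2⟩
      have := S'.lm hz
      simp only [hlam] at this
      rw [T.xc_lev S (y := z) (by omega) (by omega)]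
      exact h1 z hz hzn
  refine ⟨w', w2', p', q', T', ?_, fun z hz hlt => ?_⟩
  · refine ⟨?_, fun t ht => ?_, fun u hu => ?_, side T' E'.s1, side T'.symm E'.s2, ?_⟩
    · rw [ed]
      exact E'.pos
    · have := S'.lm ht
      simp only [hlam] at this
      rw [ed, ex, T.xc_lev S (y := t) (by omega) (by omega)]
      exact E'.t1 t ht
    · have := S'.lm (S'.du.2 hu)
      simp only [hlam] at this
      rw [ed, ex, T.xc_lev S (y := u) (by omega) (by omega)]
      exact E'.u1 u hu
    · have := E'.act
      unfold Act at this ⊢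
      rw [ed, ex, T.xc_lev S (y := w') (by omega) (by omega),
        T.xc_lev S (y := w2') (by omega) (by omega)]
      exact this
  · have hzl : z ∈ up w' := S'.du.2 (by rw [hz]; simp)
    have := S'.lm hzl
    simp only [hlam] at this
    rw [T.xc_lev S (y := z) (by omega) (by omega)]
    exact hr' z hz hlt

end opp

section window

variable (H : Gr P r)
include H

lemma Can.inv (S : Side dn up lam) (h : Can dn up lam e d x) : xc d x (xc d x e) = e := by
  obtain ⟨w, w2, p, q, T, E, hr⟩ := h
  exact E.xcxc S T

lemma CanD.inv (h : CanD i e d x) : xc d x (xc d x e) = e := by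
  rcases h with h | h
  · exact Can.inv H (sideL H i) h
  · exact Can.inv H (sideU H i) h

lemma CanD.adm (h : CanD i e d x) :
    (AdmL i (xc d x e) ↔ AdmL i e) ∧ (AdmU i (xc d x e) ↔ AdmU i e) ∧
      (Disjoint (AL i (xc d x e)) (AU i (xc d x e)) ↔ Disjoint (AL i e) (AU i e)) := by
  rcases h with ⟨w, w2, p, q, T, E, hr⟩ | ⟨w, w2, p, q, T, E, hr⟩
  · exact ⟨low_AdmL H T E, low_AdmU H T E, low_disj H T E⟩
  · exact ⟨upp_AdmL H T E, upp_AdmU H T E, upp_disj H T E⟩

lemma laU_neg (i : ℕ) (z : P) : laU i z = - laL i z := by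
  unfold laU laL
  ring

lemma laL_neg (i : ℕ) (z : P) : laL i z = - laU i z := by
  unfold laU laL
  ring

/-- the exchangeable places are not changed -/
theorem CanD.stable (hL : AdmL i e) (hU : AdmU i e) (h : CanD i e d x) (h' : CanD i e d' x') :
    CanD i (xc d x e) d' x' := by
  have aL := (AdmL_ads i e).1 hL
  have aU := (AdmU_ads i e).1 hU
  rcases h with h | h
  · rcases h' with h' | h'
    · exact Or.inl (Can.same (sideL H i) h h')
    · exact Or.inr (Can.opp (sideL H i) (sideU H i) (laU_neg H i) aL aU h h')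
  · rcases h' with h' | h'
    · exact Or.inl (Can.opp (sideU H i) (sideL H i) (laL_neg H i) aU aL h h')
    · exact Or.inr (Can.same (sideU H i) h h')

open Classical in
/-- the exchangeable places -/
noncomputable def CC (i : ℕ) (e : P → ℕ) : Finset (P × P) :=
  univ.filter (fun t => CanD i e t.1 t.2)

lemma mem_CC {t : P × P} : t ∈ CC i e ↔ CanD i e t.1 t.2 := by
  classical
  unfold CC
  rw [mem_filter]
  exact ⟨fun h => h.2, fun h => ⟨mem_univ _, h⟩⟩

lemma CC_xc (hL : AdmL i e) (hU : AdmU i e) (h : CanD i e d x) : CC i (xc d x e) = CC i e := by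
  ext t
  rw [mem_CC H, mem_CC H]
  have ha := h.adm H
  constructor
  · intro g
    have h1 := CanD.stable H hL hU h h
    have h2 := CanD.stable H (ha.1.2 hL) (ha.2.1.2 hU) h1 g
    rwa [h.inv H] at h2
  · exact CanD.stable H hL hU h

end window

section unit

open Classical in
/-- the number of statuses gained by an exchange -/
noncomputable def psF (W : Finset P) (d x : P) (e : P → ℕ) : ℕ :=
  (W.filter (fun y => e y ≤ e x)).card + (if ∃ y ∈ W, e d ≤ e y then 1 else 0)

open Classical in
/-- the number of statuses lost by an exchange -/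
noncomputable def ngF (W : Finset P) (d x : P) (e : P → ℕ) : ℕ :=
  (W.filter (fun y => e y < e d)).card + (if ∃ y ∈ W, e x < e y then 1 else 0)

lemma card_filter_pair {g : P → Prop} [DecidablePred g] (h : w ≠ w2) :
    (({w, w2} : Finset P).filter g).card = (if g w then 1 else 0) + (if g w2 then 1 else 0) := by
  rw [card_filter, sum_pair h]

lemma psF_pair (h : w ≠ w2) : psF {w, w2} d x e = ps d w w2 x e := by
  classical
  unfold psF ps
  rw [card_filter_pair h]
  simp only [mem_insert, mem_singleton, exists_eq_or_imp, exists_eq_left]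

lemma ngF_pair (h : w ≠ w2) : ngF {w, w2} d x e = ng d w w2 x e := by
  classical
  unfold ngF ng
  rw [card_filter_pair h]
  simp only [mem_insert, mem_singleton, exists_eq_or_imp, exists_eq_left]

lemma psF_congr {W : Finset P} {f : P → ℕ} (hd : f d = e d) (hx : f x = e x)
    (h : ∀ y ∈ W, f y = e y) : psF W d x f = psF W d x e := by
  classical
  unfold psF
  congr 1
  · congr 1
    refine filter_congr fun y hy => ?_
    rw [h y hy, hx]
  · refine if_congr (exists_congr fun y => and_congr_right fun hy => ?_) rfl rfl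
    rw [h y hy, hd]

lemma ngF_congr {W : Finset P} {f : P → ℕ} (hd : f d = e d) (hx : f x = e x)
    (h : ∀ y ∈ W, f y = e y) : ngF W d x f = ngF W d x e := by
  classical
  unfold ngF
  congr 1
  · congr 1
    refine filter_congr fun y hy => ?_
    rw [h y hy, hd]
  · refine if_congr (exists_congr fun y => and_congr_right fun hy => ?_) rfl rfl
    rw [h y hy, hx]

open Classical in
/-- the unit of an exchange -/
noncomputable def un (i : ℕ) (d x : P) (e : P → ℕ) : A :=
  if lev d = i + 2 then xx ^ psF (uc d) d x e * xi ^ ngF (uc d) d x e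
  else xi ^ psF (dc d) d x e * xx ^ ngF (dc d) d x e

lemma un_low (T : Tee dc uc (laL i) d w w2 p x q) :
    un i d x e = xx ^ ps d w w2 x e * xi ^ ng d w w2 x e := by
  unfold un
  have h := T.ld
  unfold laL at h
  rw [if_pos (by omega), T.ud, psF_pair T.ne, ngF_pair T.ne]

lemma un_upp (T : Tee uc dc (laU i) d w w2 p x q) :
    un i d x e = xi ^ ps d w w2 x e * xx ^ ng d w w2 x e := by
  unfold un
  have h := T.ld
  unfold laU at h
  rw [if_neg (by omega), T.ud, psF_pair T.ne, ngF_pair T.ne]

lemma un_congr {f : P → ℕ} (hd : f d = e d) (hx : f x = e x)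
    (h : ∀ y ∈ uc d ∪ dc d, f y = e y) : un i d x f = un i d x e := by
  unfold un
  rw [psF_congr hd hx (fun y hy => h y (mem_union_left _ hy)),
    ngF_congr hd hx (fun y hy => h y (mem_union_left _ hy)),
    psF_congr hd hx (fun y hy => h y (mem_union_right _ hy)),
    ngF_congr hd hx (fun y hy => h y (mem_union_right _ hy))]

end unit

section sums

variable (H : Gr P r)
include H

/-- the terms of an exchange -/
lemma CanD.unit (h : CanD i e d x) {C : Finset P} (hC : Part i C) (he : Spt C e)
    (hf : Spt C (xc d x e)) : tC i C (xc d x e) = un i d x e * tC i C e := by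
  rcases h with ⟨w, w2, p, q, T, E, hr⟩ | ⟨w, w2, p, q, T, E, hr⟩
  · rw [low_unit H T E hC he hf, un_low T]
  · rw [upp_unit H T E hC he hf, un_upp T]

lemma dd_dvd_odd' {m n : ℕ} (h : Odd (m + n)) : dd ∣ 1 + xi ^ m * xx ^ n := by
  obtain ⟨k, hk⟩ := dd_dvd_odd (m := n) (n := m) (by rwa [add_comm])
  exact ⟨k, by rw [← hk]; ring⟩

lemma CanD.neg (h : CanD i e d x) (hL : AdmL i e) (hU : AdmU i e) : dd ∣ 1 + un i d x e := by
  rcases h with ⟨w, w2, p, q, T, E, hr⟩ | ⟨w, w2, p, q, T, E, hr⟩
  · rw [un_low T]
    obtain ⟨k, hk⟩ := dd_dvd_odd (E.odd' (sideL H i) T ((AdmL_ads i e).1 hL))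
    exact ⟨k, hk⟩
  · rw [un_upp T]
    exact dd_dvd_odd' H (E.odd' (sideU H i) T ((AdmU_ads i e).1 hU))

lemma CanD.lvl (h : CanD i e d x) :
    (lev d = i + 2 ∨ lev d + 2 = i) ∧ lev x = i ∧ 1 ≤ e d := by
  rcases h with ⟨w, w2, p, q, T, E, hr⟩ | ⟨w, w2, p, q, T, E, hr⟩
  · have h1 := T.lv (sideL H i)
    have h2 := T.ld
    unfold laL at h1 h2
    exact ⟨by omega, by omega, E.pos⟩
  · have h1 := T.lv (sideU H i)
    have h2 := T.ld
    unfold laU at h1 h2
    exact ⟨by omega, by omega, E.pos⟩

/-- the places are determined by their elements -/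
lemma CanD.site {f : P → ℕ} (h : CanD i e d x) (h' : CanD i f d x') : x = x' := by
  rcases h with ⟨w, w2, p, q, T, E, hr⟩ | ⟨w, w2, p, q, T, E, hr⟩
  · rcases h' with ⟨w', w2', p', q', T', E', hr'⟩ | ⟨w', w2', p', q', T', E', hr'⟩
    · exact T'.site (sideL H i) T rfl
    · have h1 := T.ld
      have h2 := T'.ld
      unfold laL at h1
      unfold laU at h2
      omega
  · rcases h' with ⟨w', w2', p', q', T', E', hr'⟩ | ⟨w', w2', p', q', T', E', hr'⟩
    · have h1 := T.ld
      have h2 := T'.ld
      unfold laU at h1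
      unfold laL at h2
      omega
    · exact T'.site (sideU H i) T rfl

/-- a site carries one exchangeable place -/
lemma CanD.one (hL : AdmL i e) (hU : AdmU i e) (h : CanD i e d x) (h' : CanD i e d' x) :
    d = d' := by
  have key : ∀ {dn up : P → Finset P} {lam : P → ℤ} (_ : Side dn up lam) {d d' : P},
      Can dn up lam e d x → Can dn up lam e d' x → d = d' := by
    intro dn up lam S d d' h h'
    obtain ⟨w, w2, p, q, T, E, hr⟩ := h
    obtain ⟨w', w2', p', q', T', E', hr'⟩ := h'
    have hu : up d' = up d := by rw [T'.ud, T.ud, ← T'.dx, ← T.dx]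
    rcases Nat.lt_trichotomy (rk d') (rk d) with g1 | g1 | g1
    · have := hr d' (by rw [hu, T.ud]) g1
      have := E'.pos
      omega
    · exact (rk_inj g1).symm
    · have := hr' d (by rw [← hu, T'.ud]) g1
      have := E.pos
      omega
  have opp : ∀ {d d' : P}, Can dc uc (laL i) e d x → Can uc dc (laU i) e d' x → False := by
    intro d d' h h'
    have hl := (sideL H i)
    have := Can.opp (sideL H i) (sideU H i) (laU_neg H i) ((AdmL_ads i e).1 hL)
      ((AdmU_ads i e).1 hU) h h'
    obtain ⟨w, w2, p, q, T, E, hr⟩ := h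
    obtain ⟨w', w2', p', q', T', E', hr'⟩ := h'
    have a1 := E'.u1 w (by rw [T.dx]; simp)
    have a2 := E.u1 w' (by rw [T'.dx]; simp)
    have l1 := T.lv hl
    have l2 := T'.lv (sideU H i)
    have a3 : e d ≤ e w := by
      by_contra hcon
      exact (AdmL_ads i e).1 hL w (by omega)
        ⟨⟨d, T.d_dw hl, by omega⟩, ⟨x, by rw [T.uw]; simp, a1.1⟩⟩
    have a4 : e d' ≤ e w' := by
      by_contra hcon
      exact (AdmU_ads i e).1 hU w' (by omega)
        ⟨⟨d', T'.d_dw (sideU H i), by omega⟩, ⟨x, by rw [T'.uw]; simp, a2.1⟩⟩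
    omega
  rcases h with h | h
  · rcases h' with h' | h'
    · exact key (sideL H i) h h'
    · exact (opp h h').elim
  · rcases h' with h' | h'
    · exact (opp h' h).elim
    · exact key (sideU H i) h h'

/-- the unit is not changed by the exchange at another place -/
lemma CanD.unit_xc (hL : AdmL i e) (hU : AdmU i e) (h : CanD i e d x) (h' : CanD i e d' x')
    (hne : (d, x) ≠ (d', x')) : un i d x (xc d' x' e) = un i d x e := by
  have h1 := h.lvl H
  have h2 := h'.lvl H
  have hd : d ≠ d' := by
    rintro rfl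
    exact hne (by rw [h.site H h'])
  have hx : x ≠ x' := by
    rintro rfl
    exact hd (h.one H hL hU h')
  refine un_congr (xc_of hd (by rintro rfl; omega)) (xc_of (by rintro rfl; omega) hx) ?_
  intro y hy
  have h3 : lev y + 1 = lev d ∨ lev y = lev d + 1 := by
    rcases mem_union.1 hy with g | g
    · have := lev_uc H g
      omega
    · have := lev_dc H g
      omega
  exact xc_of (by rintro rfl; omega) (by rintro rfl; omega)

end sums

end Pool.Agent.GaussPoset.Win.Xg
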