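import Pool.Agent.W_448xc_h84.XgC
import Pool.Agent.W_448w4_h10.KA

/-!
# The general exchange (MP_448cb3_co): the contributions of the cores
-/

namespace Pool.Agent.GaussPoset.Win.Xg

set_option linter.unusedSectionVars false

open Finset Kd W4

universe u

variable {P : Type u} [Fintype P] [PartialOrder P] [DecidableEq P] {r i : ℕ}
variable {dn up : P → Finset P} {lam : P → ℤ} {d w w2 p x q d' x' : P} {e l : P → ℕ}
variable {psi : P → P} {C K : Finset P}

section multi

/-- many independent exchanges -/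
theorem multi {ι α : Type*} [DecidableEq ι] (D : Finset ι) (S : Finset α) (σ : ι → α → α)
    (u : ι → α → A) :
    ∀ (T : α → A) (N : ℕ), (∀ t ∈ D, ∀ e ∈ S, σ t e ∈ S ∧ σ t (σ t e) = e) →
    (∀ t ∈ D, ∀ e ∈ S, T (σ t e) = u t e * T e) → (∀ t ∈ D, ∀ e ∈ S, dd ∣ 1 + u t e) →
    (∀ t ∈ D, ∀ t' ∈ D, t ≠ t' → ∀ e ∈ S, u t (σ t' e) = u t e) →
    (∀ e ∈ S, dd ^ N ∣ T e) → dd ^ (N + D.card) ∣ ∑ e ∈ S, T e := by
  classical
  induction D using Finset.induction_on with
  | empty =>
    intro T N _ _ _ _ hN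
    rw [card_empty, add_zero]
    exact dvd_sum hN
  | insert t D ht ih =>
    intro T N hσ hT hu hc hN
    have h1 := ih (fun e => T e + T (σ t e)) (N + 1)
      (fun t' ht' e he => hσ t' (mem_insert_of_mem ht') e he) ?_
      (fun t' ht' e he => hu t' (mem_insert_of_mem ht') e he)
      (fun a ha b hb hab e he => hc a (mem_insert_of_mem ha) b (mem_insert_of_mem hb) hab e he) ?_
    · have h2 : ∑ e ∈ S, T (σ t e) = ∑ e ∈ S, T e := by
        refine sum_bij' (fun e _ => σ t e) (fun e _ => σ t e)
          (fun e he => (hσ t (mem_insert_self _ _) e he).1)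
          (fun e he => (hσ t (mem_insert_self _ _) e he).1)
          (fun e he => (hσ t (mem_insert_self _ _) e he).2)
          (fun e he => (hσ t (mem_insert_self _ _) e he).2) (fun e _ => rfl)
      rw [sum_add_distrib, h2, ← two_mul] at h1
      rw [card_insert_of_notMem ht, show N + (D.card + 1) = N + 1 + D.card by ring]
      unfold dd at h1 ⊢
      rw [PowerSeries.X_pow_dvd_iff] at h1 ⊢
      intro m hm
      have h5 := h1 m hm
      rw [show (2 : A) * ∑ e ∈ S, T e = ∑ e ∈ S, T e + ∑ e ∈ S, T e by ring, map_add] at h5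
      omega
    · intro t' ht' e he
      have hne : t' ≠ t := by
        rintro rfl
        exact ht ht'
      have a1 := hT t' (mem_insert_of_mem ht') e he
      have a2 := hT t (mem_insert_self _ _) e he
      have a3 := hT t (mem_insert_self _ _) (σ t' e) (hσ t' (mem_insert_of_mem ht') e he).1
      have a4 := hc t (mem_insert_self _ _) t' (mem_insert_of_mem ht') hne.symm e he
      show T (σ t' e) + T (σ t (σ t' e)) = u t' e * (T e + T (σ t e))
      rw [a3, a4, a1, a2]
      ring
    · intro e he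
      show dd ^ (N + 1) ∣ T e + T (σ t e)
      rw [hT t (mem_insert_self _ _) e he, show T e + u t e * T e = (1 + u t e) * T e by ring,
        pow_succ']
      exact mul_dvd_mul (hu t (mem_insert_self _ _) e he) (hN e he)

end multi

section add

/-- adding labels on free near elements, one side -/
lemma Exo.add (S : Side dn up lam) (T : Tee dn up lam d w w2 p x q)
    (E : Exo dn up d w w2 p x q e) (hl : ∀ z, l z ≠ 0 → lam z = 1 ∨ lam z = -1)
    (h1 : l w = 0) (h2 : l w2 = 0) (h3 : ∀ u ∈ up x, l u = 0) :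
    Exo dn up d w w2 p x q (e + l) := by
  have hv := T.lv S
  have hld := T.ld
  have z0 : ∀ z, lam z ≠ 1 → lam z ≠ -1 → (e + l) z = e z := by
    intro z g1 g2
    have : l z = 0 := by
      by_contra hc
      rcases hl z hc with g | g
      · exact g1 g
      · exact g2 g
    rw [Pi.add_apply, this, add_zero]
  have ed := z0 d (by omega) (by omega)
  have ex := z0 x (by omega) (by omega)
  have ep := z0 p (by omega) (by omega)
  have eq := z0 q (by omega) (by omega)
  have ew : (e + l) w = e w := by rw [Pi.add_apply, h1, add_zero]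
  have ew2 : (e + l) w2 = e w2 := by rw [Pi.add_apply, h2, add_zero]
  have ech : ∀ y, lam y = 1 → ∀ z ∈ dn y, (e + l) z = e z := by
    intro y hy z hz
    have := S.lm hz
    exact z0 z (by omega) (by omega)
  refine ⟨by rw [ed]; exact E.pos, fun t ht => ?_, fun u hu => ?_, ?_, ?_, ?_⟩
  · have := S.lm ht
    rw [z0 t (by omega) (by omega), ed, ex]
    exact E.t1 t ht
  · rw [Pi.add_apply, h3 u hu, add_zero, ed, ex]
    exact E.u1 u hu
  · have h := E.s1
    unfold SdO at h ⊢
    rw [ed, ex, ep, ew]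
    exact h.imp id fun g => ⟨fun z hz hn => by rw [ech w hv.1 z hz]; exact g.1 z hz hn, g.2⟩
  · have h := E.s2
    unfold SdO at h ⊢
    rw [ed, ex, eq, ew2]
    exact h.imp id fun g => ⟨fun z hz hn => by rw [ech w2 hv.2.1 z hz]; exact g.1 z hz hn, g.2⟩
  · have h := E.act
    unfold Act at h ⊢
    rw [ed, ex, ew, ew2]
    exact h

lemma Can.add (S : Side dn up lam) (h : Can dn up lam e d x)
    (hl : ∀ z, l z ≠ 0 → lam z = 1 ∨ lam z = -1)
    (h1 : ∀ y ∈ up d, l y = 0) (h3 : ∀ u ∈ up x, l u = 0) : Can dn up lam (e + l) d x := by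
  obtain ⟨w, w2, p, q, T, E, hr⟩ := h
  refine ⟨w, w2, p, q, T, E.add S T hl (h1 w (by rw [T.ud]; simp)) (h1 w2 (by rw [T.ud]; simp)) h3,
    fun z hz hlt => ?_⟩
  have hv := T.lv S
  have h5 : l z = 0 := by
    by_contra hc
    have := S.lm (S.du.2 (show w ∈ up z by rw [hz]; simp))
    rcases hl z hc with g | g <;> omega
  rw [Pi.add_apply, h5, add_zero]
  exact hr z hz hlt

end add

section cores

variable (H : Gr P r)
include H

/-- the touched near elements are not changed -/
lemma Tch_xc (h : CanD i e d x) : Tch i (xc d x e) = Tch i e := by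
  have hv := h.lvl H
  have key : ∀ z, (i + 2 ≤ lev z ∨ lev z + 2 ≤ i) → (0 < xc d x e z ↔ 0 < e z) := by
    intro z hz
    by_cases hd : z = d
    · subst hd
      rw [xc_d]
      constructor <;> intro _ <;> omega
    · rw [xc_of hd (by rintro rfl; omega)]
  ext y
  rw [mem_Tch, mem_Tch]
  refine or_congr (and_congr_right fun hy => exists_congr fun z => and_congr_right fun hz => ?_)
    (and_congr_right fun hy => exists_congr fun z => and_congr_right fun hz => ?_)
  · have := lev_dc H (mem_dc.2 hz)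
    exact key z (by omega)
  · have := lev_uc H (mem_uc.2 hz)
    exact key z (by omega)

lemma Rst_xc (h : CanD i e d x) : Rst i K psi (xc d x e) = Rst i K psi e := by
  ext y
  rw [mem_Rst, mem_Rst, Tch_xc H h]

lemma core_xc (h : CanD i e d x) : IsCore i K psi (xc d x e) ↔ IsCore i K psi e := by
  have hv := h.lvl H
  unfold IsCore
  rw [Rst_xc H h]
  refine forall_congr' fun y => forall_congr' fun hy => ?_
  have hn := mem_near.1 (mem_Rst.1 hy).1
  rw [xc_of (by rintro rfl; omega) (by rintro rfl; omega)]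

/-- the place of an exchange is not near a free element -/
def Clr (i : ℕ) (K : Finset P) (psi : P → P) (e : P → ℕ) (x : P) : Prop :=
  ∀ u ∈ uc x ∪ dc x, u ∉ Rst i K psi e

/-- adding labels on free near elements -/
lemma CanD.add (h : CanD i e d x) (hc : Clr i K psi e x)
    (hl : ∀ z, l z ≠ 0 → z ∈ Rst i K psi e) :
    CanD i (e + l) d x ∧ xc d x (e + l) = xc d x e + l ∧ un i d x (e + l) = un i d x e := by
  have hv := h.lvl H
  have h1 : ∀ z, l z ≠ 0 → lev z = i + 1 ∨ lev z + 1 = i := fun z hz =>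
    mem_near.1 (mem_Rst.1 (hl z hz)).1
  have h2 : ∀ z, z ∉ Rst i K psi e → l z = 0 := by
    intro z hz
    by_contra hc'
    exact hz (hl z hc')
  have hld : l d = 0 := by
    by_contra hc'
    have := h1 d hc'
    omega
  have hlx : l x = 0 := by
    by_contra hc'
    have := h1 x hc'
    omega
  -- the near elements over the place are touched
  have h3 : ∀ y ∈ uc d ∪ dc d, l y = 0 := by
    intro y hy
    rcases mem_union.1 hy with g | g
    · have hl1 := lev_uc H g
      by_cases h5 : lev d = i + 2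
      · refine h2 y fun hR => (mem_Rst.1 hR).2.2.1 (mem_Tch.2 (Or.inl ⟨by omega, d, mem_uc.1 g, ?_⟩))
        omega
      · by_contra hc'
        have := h1 y hc'
        omega
    · have hl1 := lev_dc H g
      by_cases h5 : lev d + 2 = i
      · refine h2 y fun hR => (mem_Rst.1 hR).2.2.1 (mem_Tch.2 (Or.inr ⟨by omega, d, mem_dc.1 g, ?_⟩))
        omega
      · by_contra hc'
        have := h1 y hc'
        omega
  refine ⟨?_, ?_, ?_⟩
  · rcases h with h | h
    · refine Or.inl (h.add (sideL H i) (fun z hz => ?_)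
        (fun y hy => h3 y (mem_union_left _ hy)) (fun u hu => h2 u (hc u (mem_union_left _ hu))))
      have := h1 z hz
      unfold laL
      omega
    · refine Or.inr (h.add (sideU H i) (fun z hz => ?_)
        (fun y hy => h3 y (mem_union_right _ hy)) (fun u hu => h2 u (hc u (mem_union_right _ hu))))
      have := h1 z hz
      unfold laU
      omega
  · funext y
    by_cases hd : y = d
    · subst hd
      rw [Pi.add_apply, xc_d, xc_d, Pi.add_apply, hlx, hld]
    · have nx : x ≠ d := by rintro rfl; omega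
      by_cases hx : y = x
      · subst hx
        rw [Pi.add_apply, xc_x nx, xc_x nx, Pi.add_apply, hld, hlx]
        omega
      · rw [Pi.add_apply, xc_of hd hx, xc_of hd hx, Pi.add_apply]
  · refine un_congr (by rw [Pi.add_apply, hld, add_zero]) (by rw [Pi.add_apply, hlx, add_zero]) ?_
    intro y hy
    rw [Pi.add_apply, h3 y hy, add_zero]

/-- the contribution of a core as a sum -/
lemma JK_sum (hir : i ≤ r) (hC : Part i C) (hs : Spt C e) (hc : IsCore i K psi e) (m : ℕ) :
    JK i K psi C m e = ∑ l ∈ (RK i K psi C e).piAntidiag m, tC i C (e + l) := by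
  have h4 : ∀ l ∈ (RK i K psi C e).piAntidiag m, tC i C (e + l) =
      So.IV (st i C) (fun S => Fe i e S * ∏ x ∈ RK i K psi C e, wt i e x (l x) S) := by
    intro l hl
    rw [I2.mem_pa] at hl
    have hs' : Spt C (e + l) := by
      intro x hx
      rw [Pi.add_apply, hs x hx, hl.2 x (fun h => hx (mem_RK.1 h).2)]
    rw [← So.IV_Fe H hC hs']
    congr 1
    funext S
    refine fact_many H hir (RK i K psi C e) (fun x hx => RK_near hx) (fun x hx => ?_)
      (fun x hx => ?_) l hl.2 S
    · exact (mem_Rst.1 (mem_RK.1 hx).1).2.2.1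
    · exact hc x (mem_RK.1 hx).1
  rw [Finset.sum_congr rfl h4]
  unfold JK GK So.IV
  rw [Finset.sum_comm]
  refine Finset.sum_congr rfl fun S _ => ?_
  rw [← Finset.mul_sum, ← Finset.mul_sum]

/-- the support of an exchange -/
lemma CanD.spt (h : CanD i e d x) (hC : Part i C) (he : Spt C e) :
    d ∈ C ∧ x ∈ C ∧ Spt C (xc d x e) := by
  have hv := h.lvl H
  have hd : d ∈ C := by
    by_contra hcon
    have := he d hcon
    omega
  have hx : x ∈ C := by
    rcases h with ⟨w, w2, p, q, T, E, hr⟩ | ⟨w, w2, p, q, T, E, hr⟩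
    · have hw : w ∈ C := hC.up hd (mem_uc.1 (by rw [T.ud]; simp))
      exact hC.up hw (mem_uc.1 (by rw [T.uw]; simp))
    · have l1 := T.ld
      have l2 := T.lv (sideU H i)
      unfold laU at l1 l2
      have hw : w ∈ C := hC.dn hd (by omega) (mem_dc.1 (by rw [T.ud]; simp))
      exact hC.dn hw (by omega) (mem_dc.1 (by rw [T.uw]; simp))
  refine ⟨hd, hx, fun y hy => ?_⟩
  rw [xc_of (by rintro rfl; exact hy hd) (by rintro rfl; exact hy hx)]
  exact he y hy

/-- the energy of an exchange -/
lemma CanD.sum (h : CanD i e d x) (hC : Part i C) (he : Spt C e) :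
    C.sum (xc d x e) = C.sum e := by
  obtain ⟨h1, h2, -⟩ := h.spt H hC he
  have hv := h.lvl H
  exact sum_xc (by rintro rfl; omega) h1 h2 hv.2.2

/-- THE EXCHANGE, contributions of cores -/
theorem CanD.JK (hir : i ≤ r) (h : CanD i e d x) (hC : Part i C) (he : Spt C e)
    (hc : IsCore i K psi e) (hcl : Clr i K psi e x) (m : ℕ) :
    W4.JK i K psi C m (xc d x e) = un i d x e * W4.JK i K psi C m e := by
  have hf := (h.spt H hC he).2.2
  rw [JK_sum H hir hC he hc, JK_sum H hir hC hf ((core_xc H h).2 hc), mul_sum]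
  have hR : RK i K psi C (xc d x e) = RK i K psi C e := by
    unfold RK
    rw [Rst_xc H h]
  rw [hR]
  refine sum_congr rfl fun l hl => ?_
  rw [I2.mem_pa] at hl
  obtain ⟨a1, a2, a3⟩ := h.add H hcl (l := l) (fun z hz => by
    by_contra hcon
    exact hz (hl.2 z (fun g => hcon (mem_RK.1 g).1)))
  have hs' : Spt C (e + l) := by
    intro y hy
    rw [Pi.add_apply, he y hy, hl.2 y (fun g => hy (mem_RK.1 g).2)]
  rw [← a2, a1.unit H hC hs' (a1.spt H hC hs').2.2, a3]

/-- THE EXCHANGE, sums of contributions: `k` independent places gain `dd ^ k` -/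
theorem exchange_JK (hir : i ≤ r) (hC : Part i C) {S : Finset (P → ℕ)} {N k m : ℕ}
    (h1 : ∀ e ∈ S, Spt C e ∧ IsCore i K psi e ∧ AdmL i e ∧ AdmU i e ∧ k ≤ (CC i e).card ∧
      ∀ t ∈ CC i e, Clr i K psi e t.2)
    (h2 : ∀ e ∈ S, ∀ d x, CanD i e d x → xc d x e ∈ S)
    (h3 : ∀ e ∈ S, dd ^ N ∣ W4.JK i K psi C m e) :
    dd ^ (N + k) ∣ ∑ e ∈ S, W4.JK i K psi C m e := by
  classical
  rw [← sum_fiberwise_of_maps_to (t := S.image (CC i)) (g := CC i)
    (fun e he => mem_image_of_mem _ he)]
  refine dvd_sum fun D hD => ?_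
  rw [mem_image] at hD
  obtain ⟨e0, he0, rfl⟩ := hD
  obtain ⟨D', hD', hcard⟩ := exists_subset_card_eq (h1 e0 he0).2.2.2.2.1
  rw [← hcard]
  have hm : ∀ e, e ∈ S.filter (fun e => CC i e = CC i e0) ↔ e ∈ S ∧ CC i e = CC i e0 := by
    intro e
    rw [mem_filter]
  have hcan : ∀ t ∈ D', ∀ e ∈ S.filter (fun e => CC i e = CC i e0), CanD i e t.1 t.2 := by
    intro t ht e he
    rw [hm] at he
    have := hD' ht
    rw [← he.2] at this
    exact (mem_CC H).1 this
  refine multi D' _ (fun t e => xc t.1 t.2 e) (fun t e => un i t.1 t.2 e) _ N ?_ ?_ ?_ ?_ ?_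
  · intro t ht e he
    have hc := hcan t ht e he
    rw [hm] at he
    obtain ⟨a1, a2, a3, a4, a5, a6⟩ := h1 e he.1
    refine ⟨(hm _).2 ⟨h2 e he.1 _ _ hc, ?_⟩, hc.inv H⟩
    rw [CC_xc H a3 a4 hc, he.2]
  · intro t ht e he
    have hc := hcan t ht e he
    rw [hm] at he
    obtain ⟨a1, a2, a3, a4, a5, a6⟩ := h1 e he.1
    exact hc.JK H hir hC a1 a2 (a6 t ((mem_CC H).2 hc)) m
  · intro t ht e he
    have hc := hcan t ht e he
    rw [hm] at he
    obtain ⟨a1, a2, a3, a4, a5, a6⟩ := h1 e he.1
    exact hc.neg H a3 a4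
  · intro t ht t' ht' hne e he
    have hc := hcan t ht e he
    have hc' := hcan t' ht' e he
    rw [hm] at he
    obtain ⟨a1, a2, a3, a4, a5, a6⟩ := h1 e he.1
    exact CanD.unit_xc H a3 a4 hc hc' hne
  · intro e he
    rw [hm] at he
    exact h3 e he.1

/-- THE EXCHANGE, sums of terms: `k` independent places gain `dd ^ k` -/
theorem exchange_sum (hC : Part i C) {S : Finset (P → ℕ)} {N k : ℕ}
    (h1 : ∀ e ∈ S, Spt C e ∧ AdmL i e ∧ AdmU i e ∧ k ≤ (CC i e).card)
    (h2 : ∀ e ∈ S, ∀ d x, CanD i e d x → xc d x e ∈ S)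
    (h3 : ∀ e ∈ S, dd ^ N ∣ tC i C e) :
    dd ^ (N + k) ∣ ∑ e ∈ S, tC i C e := by
  classical
  rw [← sum_fiberwise_of_maps_to (t := S.image (CC i)) (g := CC i)
    (fun e he => mem_image_of_mem _ he)]
  refine dvd_sum fun D hD => ?_
  rw [mem_image] at hD
  obtain ⟨e0, he0, rfl⟩ := hD
  obtain ⟨D', hD', hcard⟩ := exists_subset_card_eq (h1 e0 he0).2.2.2
  rw [← hcard]
  have hm : ∀ e, e ∈ S.filter (fun e => CC i e = CC i e0) ↔ e ∈ S ∧ CC i e = CC i e0 := by
    intro e
    rw [mem_filter]
  have hcan : ∀ t ∈ D', ∀ e ∈ S.filter (fun e => CC i e = CC i e0), CanD i e t.1 t.2 := by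
    intro t ht e he
    rw [hm] at he
    have := hD' ht
    rw [← he.2] at this
    exact (mem_CC H).1 this
  refine multi D' _ (fun t e => xc t.1 t.2 e) (fun t e => un i t.1 t.2 e) _ N ?_ ?_ ?_ ?_ ?_
  · intro t ht e he
    have hc := hcan t ht e he
    rw [hm] at he
    obtain ⟨a1, a3, a4, a5⟩ := h1 e he.1
    refine ⟨(hm _).2 ⟨h2 e he.1 _ _ hc, ?_⟩, hc.inv H⟩
    rw [CC_xc H a3 a4 hc, he.2]
  · intro t ht e he
    have hc := hcan t ht e he
    rw [hm] at he
    obtain ⟨a1, a3, a4, a5⟩ := h1 e he.1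
    exact hc.unit H hC a1 (hc.spt H hC a1).2.2
  · intro t ht e he
    have hc := hcan t ht e he
    rw [hm] at he
    obtain ⟨a1, a3, a4, a5⟩ := h1 e he.1
    exact hc.neg H a3 a4
  · intro t ht t' ht' hne e he
    have hc := hcan t ht e he
    have hc' := hcan t' ht' e he
    rw [hm] at he
    obtain ⟨a1, a3, a4, a5⟩ := h1 e he.1
    exact CanD.unit_xc H a3 a4 hc hc' hne
  · intro e he
    rw [hm] at he
    exact h3 e he.1

/-- the place of an exchange is clear when the sites have at most two covers -/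
theorem CanD.clr (hM : Mat P i K psi) (h : CanD i e d x) (hu : (uc x).card ≤ 2)
    (hd : (dc x).card ≤ 2) (hK : ∀ y ∈ uc d ∪ dc d, y ∉ K) : Clr i K psi e x := by
  have hv := h.lvl H
  rcases h with ⟨w, w2, p, q, T, E, hr⟩ | ⟨w, w2, p, q, T, E, hr⟩
  · have l1 := T.ld
    have l2 := T.lv (sideL H i)
    unfold laL at l1 l2
    have mw : w ∈ dbL P i := mem_dbL.2 ⟨by omega, by rw [T.uw]; exact card_pair T.px⟩
    have mw2 : w2 ∈ dbL P i := mem_dbL.2 ⟨by omega, by rw [T.uw2]; exact card_pair T.xq⟩
    have kw : w ∉ K := hK w (mem_union_left _ (by rw [T.ud]; simp))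
    have kw2 : w2 ∉ K := hK w2 (mem_union_left _ (by rw [T.ud]; simp))
    have tw : ∀ y, y = w ∨ y = w2 → y ∈ Tch i e := by
      rintro y hy
      refine mem_Tch.2 (Or.inl ⟨by rcases hy with rfl | rfl <;> omega, d, ?_, by omega⟩)
      refine mem_uc.1 ?_
      rw [T.ud]
      rcases hy with rfl | rfl <;> simp
    intro u huu hR
    rcases mem_union.1 huu with g | g
    · have e1 := (hM.low w mw kw)
      have e2 := (hM.low w2 mw2 kw2)
      have i1 := hM.invol w (mem_union_left _ mw) kw
      have i2 := hM.invol w2 (mem_union_left _ mw2) kw2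
      have p1 : psi w ∈ uc x := by
        rw [mem_uc, ← mem_dc, e1.2, T.uw]; simp
      have p2 : psi w2 ∈ uc x := by
        rw [mem_uc, ← mem_dc, e2.2, T.uw2]; simp
      have hne : psi w ≠ psi w2 := by
        intro hh
        have := i1.1
        rw [hh, i2.1] at this
        exact T.ne this.symm
      have hsub : ({psi w, psi w2} : Finset P) ⊆ uc x := by
        intro z hz
        rw [mem_insert, mem_singleton] at hz
        rcases hz with rfl | rfl
        · exact p1
        · exact p2
      have heq := eq_of_subset_of_card_le hsub (by rw [card_pair hne]; exact hu)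
      rw [← heq, mem_insert, mem_singleton] at g
      obtain ⟨-, -, -, hn⟩ := mem_Rst.1 hR
      rcases g with rfl | rfl
      · exact hn ⟨mem_union_right _ e1.1, by rw [i1.1]; exact tw w (Or.inl rfl)⟩
      · exact hn ⟨mem_union_right _ e2.1, by rw [i2.1]; exact tw w2 (Or.inr rfl)⟩
    · rw [T.dx, mem_insert, mem_singleton] at g
      exact (mem_Rst.1 hR).2.2.1 (tw u g)
  · have l1 := T.ld
    have l2 := T.lv (sideU H i)
    unfold laU at l1 l2
    have mw : w ∈ dbU P i := mem_dbU.2 ⟨by omega, by rw [T.uw]; exact card_pair T.px⟩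
    have mw2 : w2 ∈ dbU P i := mem_dbU.2 ⟨by omega, by rw [T.uw2]; exact card_pair T.xq⟩
    have kw : w ∉ K := hK w (mem_union_right _ (by rw [T.ud]; simp))
    have kw2 : w2 ∉ K := hK w2 (mem_union_right _ (by rw [T.ud]; simp))
    have tw : ∀ y, y = w ∨ y = w2 → y ∈ Tch i e := by
      rintro y hy
      refine mem_Tch.2 (Or.inr ⟨by rcases hy with rfl | rfl <;> omega, d, ?_, by omega⟩)
      refine mem_dc.1 ?_
      rw [T.ud]
      rcases hy with rfl | rfl <;> simp
    intro u huu hR
    rcases mem_union.1 huu with g | g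
    · rw [T.dx, mem_insert, mem_singleton] at g
      exact (mem_Rst.1 hR).2.2.1 (tw u g)
    · have e1 := (hM.upp w mw kw)
      have e2 := (hM.upp w2 mw2 kw2)
      have i1 := hM.invol w (mem_union_right _ mw) kw
      have i2 := hM.invol w2 (mem_union_right _ mw2) kw2
      have p1 : psi w ∈ dc x := by
        rw [mem_dc, ← mem_uc, e1.2, T.uw]; simp
      have p2 : psi w2 ∈ dc x := by
        rw [mem_dc, ← mem_uc, e2.2, T.uw2]; simp
      have hne : psi w ≠ psi w2 := by
        intro hh
        have := i1.1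
        rw [hh, i2.1] at this
        exact T.ne this.symm
      have hsub : ({psi w, psi w2} : Finset P) ⊆ dc x := by
        intro z hz
        rw [mem_insert, mem_singleton] at hz
        rcases hz with rfl | rfl
        · exact p1
        · exact p2
      have heq := eq_of_subset_of_card_le hsub (by rw [card_pair hne]; exact hd)
      rw [← heq, mem_insert, mem_singleton] at g
      obtain ⟨-, -, -, hn⟩ := mem_Rst.1 hR
      rcases g with rfl | rfl
      · exact hn ⟨mem_union_left _ e1.1, by rw [i1.1]; exact tw w (Or.inl rfl)⟩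
      · exact hn ⟨mem_union_left _ e2.1, by rw [i2.1]; exact tw w2 (Or.inr rfl)⟩

end cores

end Pool.Agent.GaussPoset.Win.Xg
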