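import Pool.Agent.W_448xc_h84.XgK

/-!
# The general exchange (MP_448cb3_co): the frame for a part
-/

namespace Pool.Agent.GaussPoset.Win.Xg

set_option linter.unusedSectionVars false

open Finset Kd W4

universe u

variable {P : Type u} [Fintype P] [PartialOrder P] [DecidableEq P] {r i : ℕ}
variable {y p w u v v' z d x : P} {e f : P → ℕ} {psi : P → P} {C : Finset P}

/-- an admissible core of the part -/
structure Okc (i : ℕ) (psi : P → P) (C : Finset P) (e : P → ℕ) : Prop where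
  spt : Spt C e
  core : IsCore i ∅ psi e
  adm : Adm i e

/-- a sign reversing flip on the cores with the property `Q` -/
structure Flp (i : ℕ) (psi : P → P) (C : Finset P) (Q : (P → ℕ) → Prop)
    (φ : (P → ℕ) → (P → ℕ)) : Prop where
  xc : ∀ e d x, Okc i psi C e → CanD i e d x → Q e → Q (xc d x e)
  ok : ∀ e, Okc i psi C e → Q e → Okc i psi C (φ e) ∧ Q (φ e) ∧ φ (φ e) = e ∧
    kp i (φ e) = kp i e ∧ ∑ z, φ e z = ∑ z, e z
  unit : ∀ e, Okc i psi C e → Q e → ∃ a : A, dd ∣ 1 + a ∧ tC i C (φ e) = a * tC i C e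
  jk : ∀ e, Okc i psi C e → Q e → ∀ m k : ℕ, kp i e = k + 1 →
    dd ^ ((st i C).card - k) ∣ W4.JK i ∅ psi C m e + W4.JK i ∅ psi C m (φ e)

variable {Q : (P → ℕ) → Prop} {φ : (P → ℕ) → (P → ℕ)}

section trivialflip

/-- no flip at all -/
lemma flp_none : Flp i psi C (fun _ => False) id := by
  refine ⟨?_, ?_, ?_, ?_⟩
  · intro _ _ _ _ _ h
    exact h
  · intro _ _ h
    exact h.elim
  · intro _ _ h
    exact h.elim
  · intro _ _ h
    exact h.elim

end trivialflip

section frame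

variable (H : Gr P r)
include H

lemma CanD.sumU (hc : CanD i e d x) : ∑ z, xc d x e z = ∑ z, e z := by
  have hv := hc.lvl H
  exact sum_xc (C := univ) (by rintro rfl; omega) (mem_univ _) (mem_univ _) hv.2.2

lemma Okc.xc (hC : Part i C) (h : Okc i psi C e) (hc : CanD i e d x) :
    Okc i psi C (Kd.xc d x e) :=
  ⟨(hc.spt H hC h.spt).2.2, (core_xc H hc).2 h.core, hc.Adm H h.adm⟩

lemma Flp.xc_iff (F : Flp i psi C Q φ) (hC : Part i C) (h : Okc i psi C e) (hc : CanD i e d x) :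
    Q (Kd.xc d x e) ↔ Q e := by
  constructor
  · intro g
    have h1 := h.xc H hC hc
    have h2 := CanD.stable H h.adm.l h.adm.u hc hc
    have h3 := F.xc _ d x h1 h2 g
    rwa [hc.inv H] at h3
  · exact F.xc _ d x h hc

omit H in
lemma JK_bad (K : Finset P) (h : ¬ Adm i e) (m : ℕ) : W4.JK i K psi C m e = 0 := by
  classical
  have h1 : ∀ S, Fe i e S = 0 := by
    intro S
    unfold Fe
    by_cases ha : AdmL i e ∧ AdmU i e
    · have hd : ¬ Disjoint (AL i e) (AU i e) := fun hd => h ⟨ha.1, ha.2, hd⟩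
      rw [ClE_chi_zero hd, mul_zero]
    · unfold Win.cw
      rw [if_neg ha, zero_mul]
  unfold W4.JK So.IV
  refine sum_eq_zero fun S _ => ?_
  show xx ^ S.card * (Fe i e S * GK i K psi C e m S) = 0
  rw [h1, zero_mul, mul_zero]

omit H in
lemma tC_bad (h : ¬ Adm i e) : tC i C e = 0 := by
  classical
  unfold tC
  by_cases hd : Disjoint (AL i e) (AU i e)
  · have ha : ¬ (AdmL i e ∧ AdmU i e) := fun ha => h ⟨ha.1, ha.2, hd⟩
    unfold Win.cw
    rw [if_pos hd, if_neg ha, zero_mul]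
  · rw [if_neg hd]

variable (hi : 1 ≤ i) (hi2 : i + 1 ≤ r) (hM : Mat P i ∅ psi) (hC : Part (i + 1) C)
  (hs : ∀ x ∈ C, lev x = i → (uc x).card ≤ 2 ∧ (dc x).card ≤ 2)
include hi hi2 hM hC hs

/-- a class of cores with enough exchangeable places -/
theorem class_dvd {K : ℕ} {S : Finset (P → ℕ)}
    (h1 : ∀ e ∈ S, Okc i psi C e ∧ kp i e ≤ K + (CC i e).card)
    (h2 : ∀ e ∈ S, ∀ d x, CanD i e d x → Kd.xc d x e ∈ S) (m : ℕ) :
    dd ^ ((st i C).card - K) ∣ ∑ e ∈ S, W4.JK i ∅ psi C m e := by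
  classical
  have hC' : Part i C := hC.pred
  rw [← sum_fiberwise_of_maps_to (t := S.image (fun e => (kp i e).toNat))
    (g := fun e => (kp i e).toNat) (fun e he => mem_image_of_mem _ he)]
  refine dvd_sum fun c hc => ?_
  have hm : ∀ e, e ∈ S.filter (fun e => (kp i e).toNat = c) ↔ e ∈ S ∧ (kp i e).toNat = c := by
    intro e
    rw [mem_filter]
  rcases Nat.lt_or_ge K c with hK | hK
  · have h3 := exchange_JK H (K := ∅) (psi := psi) (by omega) hC'
      (S := S.filter (fun e => (kp i e).toNat = c)) (N := (st i C).card - c) (k := c - K) (m := m)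
      ?_ ?_ ?_
    · exact dvd_trans (pow_dvd_pow _ (by omega)) h3
    · intro e he
      rw [hm] at he
      obtain ⟨a1, a2⟩ := h1 e he.1
      refine ⟨a1.spt, a1.core, a1.adm.l, a1.adm.u, by omega, fun t ht => ?_⟩
      have ht' := (mem_CC H).1 ht
      obtain ⟨b1, b2, -⟩ := ht'.spt H hC' a1.spt
      obtain ⟨c1, c2⟩ := hs t.2 b2 (ht'.lvl H).2.1
      exact CanD.clr H hM ht' c1 c2 (fun y _ => notMem_empty _)
    · intro e he d x hd
      rw [hm] at he ⊢
      exact ⟨h2 e he.1 d x hd, by rw [hd.kp H (h1 e he.1).1.adm]; exact he.2⟩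
    · intro e he
      rw [hm] at he
      obtain ⟨a1, a2⟩ := h1 e he.1
      refine JK_dvd H hi hi2 hM hC (Rk_of_cheap (a1.adm.cheap.2 ?_)) m
      omega
  · refine dvd_sum fun e he => ?_
    rw [hm] at he
    obtain ⟨a1, a2⟩ := h1 e he.1
    refine JK_dvd H hi hi2 hM hC (Rk_of_cheap (a1.adm.cheap.2 ?_)) m
    omega

omit H hi hi2 hM hC hs in
/-- a class of cores with a flip -/
theorem flip_dvd (F : Flp i psi C Q φ) {N : ℕ} {S : Finset (P → ℕ)}
    (h1 : ∀ e ∈ S, Okc i psi C e ∧ Q e ∧ φ e ∈ S) (h3 : ∀ e ∈ S, dd ^ N ∣ tC i C e) :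
    dd ^ (N + 1) ∣ ∑ e ∈ S, tC i C e := by
  classical
  have hu : ∀ e : P → ℕ, ∃ a : A, (e ∈ S → dd ∣ 1 + a ∧ tC i C (φ e) = a * tC i C e) := by
    intro e
    by_cases he : e ∈ S
    · obtain ⟨a, ha⟩ := F.unit e (h1 e he).1 (h1 e he).2.1
      exact ⟨a, fun _ => ha⟩
    · exact ⟨0, fun h => absurd h he⟩
  choose a ha using hu
  have h := multi ({()} : Finset Unit) S (fun _ e => φ e) (fun _ e => a e) (tC i C) N
    (fun _ _ e he => ⟨(h1 e he).2.2, (F.ok e (h1 e he).1 (h1 e he).2.1).2.2.1⟩)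
    (fun _ _ e he => (ha e he).2) (fun _ _ e he => (ha e he).1)
    (fun t _ t' _ hne => absurd (Subsingleton.elim t t') hne) h3
  simpa using h

omit H hi hi2 hM hC hs in
lemma dvd_of_two {N : ℕ} {a : A} (h : dd ^ N ∣ 2 * a) : dd ^ N ∣ a := by
  unfold dd at *
  rw [PowerSeries.X_pow_dvd_iff] at h ⊢
  intro m hm
  have h1 := h m hm
  rw [two_mul, map_add] at h1
  omega

omit H hi hi2 hM hC hs in
/-- a class of cores with a flip, with the free near elements -/
theorem flip_JK (F : Flp i psi C Q φ) {k : ℕ} {S : Finset (P → ℕ)}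
    (h1 : ∀ e ∈ S, Okc i psi C e ∧ Q e ∧ φ e ∈ S ∧ kp i e = k + 1) (m : ℕ) :
    dd ^ ((st i C).card - k) ∣ ∑ e ∈ S, W4.JK i ∅ psi C m e := by
  classical
  have h2 : ∑ e ∈ S, W4.JK i ∅ psi C m (φ e) = ∑ e ∈ S, W4.JK i ∅ psi C m e := by
    refine sum_nbij' φ φ (fun e he => (h1 e he).2.2.1) (fun e he => (h1 e he).2.2.1) ?_ ?_ ?_
    · intro e he
      exact (F.ok e (h1 e he).1 (h1 e he).2.1).2.2.1
    · intro e he
      exact (F.ok e (h1 e he).1 (h1 e he).2.1).2.2.1
    · intro e he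
      rfl
  refine dvd_of_two ?_
  rw [two_mul]
  nth_rw 2 [← h2]
  rw [← sum_add_distrib]
  exact dvd_sum fun e he => F.jk e (h1 e he).1 (h1 e he).2.1 m k (h1 e he).2.2.2

open Classical in
/-- the leftover of the frame -/
noncomputable def Lft (i : ℕ) (psi : P → P) (C : Finset P) (Q : (P → ℕ) → Prop) (n K : ℕ) :
    Finset (P → ℕ) :=
  (C.piAntidiag n).filter (fun e => Okc i psi C e ∧ kp i e = K + 1 ∧ CC i e = ∅ ∧ ¬ Q e)

omit H hi hi2 hM hC hs in
lemma mem_Lft {n K : ℕ} : e ∈ Lft i psi C Q n K ↔ ∑ z, e z = n ∧ Okc i psi C e ∧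
    kp i e = K + 1 ∧ CC i e = ∅ ∧ ¬ Q e := by
  classical
  unfold Lft
  rw [mem_filter, I2.mem_pa]
  constructor
  · rintro ⟨⟨h1, -⟩, h2⟩
    exact ⟨h1, h2⟩
  · rintro ⟨h1, h2⟩
    exact ⟨⟨h1, h2.1.spt⟩, h2⟩

/-- THE FRAME: up to the leftover, the window sum has order at most `K` at the energy `n` -/
theorem frame (F : Flp i psi C Q φ) {n K : ℕ}
    (hA : ∀ e, Okc i psi C e → ∑ z, e z ≤ n → kp i e ≤ K + (CC i e).card ∨
      (kp i e = K + 1 ∧ Q e) ∨ (∑ z, e z = n ∧ kp i e = K + 1 ∧ CC i e = ∅)) :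
    dd ^ ((st i C).card - K) ∣ ZC i C n - ∑ e ∈ Lft i psi C Q n K, tC i C e := by
  classical
  have hC' : Part i C := hC.pred
  have hir : i ≤ r := by omega
  rw [ZC_coresK H hir ∅ psi hC' n, sum_range_succ, Nat.sub_self, add_sub_assoc]
  refine dvd_add (dvd_sum fun q hq => ?_) ?_
  · rw [mem_range] at hq
    have h0 : ∑ e ∈ (C.piAntidiag q).filter (IsCore i ∅ psi), W4.JK i ∅ psi C (n - q) e =
        ∑ e ∈ ((C.piAntidiag q).filter (IsCore i ∅ psi)).filter (Adm i),
          W4.JK i ∅ psi C (n - q) e := by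
      symm
      refine sum_filter_of_ne fun e _ hne => ?_
      by_contra hcon
      exact hne (JK_bad ∅ hcon _)
    rw [h0]
    have hm : ∀ e, e ∈ ((C.piAntidiag q).filter (IsCore i ∅ psi)).filter (Adm i) ↔
        ∑ z, e z = q ∧ Okc i psi C e := by
      intro e
      rw [mem_filter, mem_filter, I2.mem_pa]
      constructor
      · rintro ⟨⟨⟨a1, a2⟩, a3⟩, a4⟩
        exact ⟨a1, a2, a3, a4⟩
      · rintro ⟨a1, a2, a3, a4⟩
        exact ⟨⟨⟨a1, a2⟩, a3⟩, a4⟩
    set T := ((C.piAntidiag q).filter (IsCore i ∅ psi)).filter (Adm i) with hT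
    rw [← sum_filter_add_sum_filter_not T (fun e => kp i e = K + 1 ∧ Q e)]
    refine dvd_add ?_ ?_
    · refine flip_JK F (fun e he => ?_) _
      rw [mem_filter, hm] at he
      obtain ⟨b1, b2, b3, b4, b5⟩ := F.ok e he.1.2 he.2.2
      refine ⟨he.1.2, he.2.2, ?_, he.2.1⟩
      rw [mem_filter, hm]
      exact ⟨⟨by rw [b5]; exact he.1.1, b1⟩, by rw [b4]; exact he.2.1, b2⟩
    · refine class_dvd H hi hi2 hM hC hs (fun e he => ?_) (fun e he d x hd => ?_) _
      · rw [mem_filter, hm] at he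
        refine ⟨he.1.2, ?_⟩
        rcases hA e he.1.2 (by omega) with h | h | h
        · exact h
        · exact absurd h he.2
        · omega
      · rw [mem_filter, hm] at he ⊢
        refine ⟨⟨by rw [hd.sumU H]; exact he.1.1, he.1.2.xc H hC' hd⟩, ?_⟩
        rw [hd.kp H he.1.2.adm, F.xc_iff H hC' he.1.2 hd]
        exact he.2
  · -- the cores of energy `n`
    have h0 : ∑ e ∈ (C.piAntidiag n).filter (IsCore i ∅ psi), W4.JK i ∅ psi C 0 e =
        ∑ e ∈ (C.piAntidiag n).filter (Okc i psi C), tC i C e := by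
      have h1 : ∀ e ∈ (C.piAntidiag n).filter (IsCore i ∅ psi), W4.JK i ∅ psi C 0 e =
          tC i C e := by
        intro e he
        rw [mem_filter, I2.mem_pa] at he
        exact JK_zero H hir hC' he.1.2
      rw [sum_congr rfl h1]
      refine (sum_subset ?_ ?_).symm
      · intro e he
        rw [mem_filter] at he ⊢
        exact ⟨he.1, he.2.core⟩
      · intro e he hne
        rw [mem_filter] at he hne
        by_contra hcon
        refine hne ⟨he.1, (I2.mem_pa.1 he.1).2, he.2, ?_⟩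
        by_contra ha
        exact hcon (tC_bad ha)
    rw [h0]
    set S := (C.piAntidiag n).filter (Okc i psi C) with hS
    have hmS : ∀ e, e ∈ S ↔ ∑ z, e z = n ∧ Okc i psi C e := by
      intro e
      rw [hS, mem_filter, I2.mem_pa]
      constructor
      · rintro ⟨⟨a1, -⟩, a2⟩
        exact ⟨a1, a2⟩
      · rintro ⟨a1, a2⟩
        exact ⟨⟨a1, a2.spt⟩, a2⟩
    -- three classes
    have hsplit : ∑ e ∈ S, tC i C e = ∑ e ∈ S.filter (fun e => kp i e = K + 1 ∧ Q e), tC i C e +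
        (∑ e ∈ Lft i psi C Q n K, tC i C e + ∑ e ∈ S.filter (fun e =>
          ¬ (kp i e = K + 1 ∧ Q e) ∧ ¬ (kp i e = K + 1 ∧ CC i e = ∅ ∧ ¬ Q e)), tC i C e) := by
      rw [← sum_filter_add_sum_filter_not S (fun e => kp i e = K + 1 ∧ Q e)]
      congr 1
      rw [← sum_filter_add_sum_filter_not (S.filter (fun e => ¬ (kp i e = K + 1 ∧ Q e)))
        (fun e => kp i e = K + 1 ∧ CC i e = ∅ ∧ ¬ Q e)]
      congr 1
      · refine sum_congr ?_ fun _ _ => rfl
        ext e
        rw [mem_filter, mem_filter, hmS, mem_Lft]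
        tauto
      · rw [filter_filter]
    rw [hsplit, add_sub_assoc, add_sub_cancel_left]
    refine dvd_add ?_ ?_
    · have h3 := flip_dvd F (N := (st i C).card - (K + 1))
        (S := S.filter (fun e => kp i e = K + 1 ∧ Q e)) (fun e he => ?_) (fun e he => ?_)
      · exact dvd_trans (pow_dvd_pow _ (by omega)) h3
      · rw [mem_filter, hmS] at he
        obtain ⟨b1, b2, b3, b4, b5⟩ := F.ok e he.1.2 he.2.2
        refine ⟨he.1.2, he.2.2, ?_⟩
        rw [mem_filter, hmS]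
        exact ⟨⟨by rw [b5]; exact he.1.1, b1⟩, by rw [b4]; exact he.2.1, b2⟩
      · rw [mem_filter, hmS] at he
        rw [← JK_zero (K := ∅) (psi := psi) H hir hC' he.1.2.spt]
        refine JK_dvd H hi hi2 hM hC (Rk_of_cheap (he.1.2.adm.cheap.2 ?_)) 0
        have := he.2.1
        push_cast
        omega
    · have h4 : ∀ e ∈ S.filter (fun e =>
          ¬ (kp i e = K + 1 ∧ Q e) ∧ ¬ (kp i e = K + 1 ∧ CC i e = ∅ ∧ ¬ Q e)),
          tC i C e = W4.JK i ∅ psi C 0 e := by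
        intro e he
        rw [mem_filter, hmS] at he
        exact (JK_zero H hir hC' he.1.2.spt).symm
      rw [sum_congr rfl h4]
      refine class_dvd H hi hi2 hM hC hs (fun e he => ?_) (fun e he d x hd => ?_) _
      · rw [mem_filter, hmS] at he
        refine ⟨he.1.2, ?_⟩
        rcases hA e he.1.2 (le_of_eq he.1.1) with h | h | ⟨-, h5, h6⟩
        · exact h
        · exact absurd h he.2.1
        · exfalso
          obtain ⟨-, g1, g2⟩ := he
          by_cases hq : Q e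
          · exact g1 ⟨h5, hq⟩
          · exact g2 ⟨h5, h6, hq⟩
      · rw [mem_filter, hmS] at he ⊢
        obtain ⟨⟨g1, g2⟩, g3⟩ := he
        refine ⟨⟨by rw [hd.sumU H]; exact g1, g2.xc H hC' hd⟩, ?_⟩
        rw [hd.kp H g2.adm, F.xc_iff H hC' g2 hd, CC_xc H g2.adm.l g2.adm.u hd]
        exact g3

end frame

end Pool.Agent.GaussPoset.Win.Xg
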