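import Pool.Agent.W_448xc_h84.XhA

/-!
# MP_448cb3_co, case B, the window `j - 1`: the class of the components with at least four sites
-/

namespace Pool.Agent.GaussPoset.Wd

set_option linter.unusedSectionVars false

open Finset Win Win.I2 Win.Xg

universe u

variable {P : Type u} [Fintype P] [PartialOrder P] [DecidableEq P] {r j i : ℕ}
  {t : Tops P} {lo hi : ℕ → ℕ} {e : ℕ → ℕ → P} {psi : P → P}

variable (h : NJ P r j) (hij : i + 1 = j) (hi1 : 1 ≤ i) (C : Cp.Comp j (t : P) lo hi e)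
  (h4 : lo i + 3 ≤ hi i) (hM : Mat P i ∅ psi)
include h hij hi1 C h4 hM

/-- a component with at least four sites at the window `j - 1` is in the class `Cls` -/
theorem NJ.cls4 : ∃ Q φ, Rd.Cls r i psi (SS i t) Q φ ∧
    ((Q = fun _ => False) ∧ Rd.NoP i (SS i t) ∨
      ∃ y p w u v v', Rd.OneP i psi (SS i t) y p w u v v' ∧ Q = FP y p w u v v') := by
  have g := h.g
  have hT := h.noTT hij hi1
  have hQ : K2.NoQ P (i + 3) := by
    have h1 := Pool.Agent.GaussPoset.EK.NJ.noQ h (by omega)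
    rwa [show j + 2 = i + 3 by omega] at h1
  have hC : Part (i + 1) (SS i t) := h.part (by omega) (by omega) t
  have gi : GoodTo P r (i + 1) := by rw [hij]; exact g
  rcases h.dich hij hi1 C h4 hM with hN | ⟨y, p, w, u, v, v', O⟩
  · exact ⟨_, _, Rd.Cls.ofNo gi hT hQ hi1 hM hC hN, Or.inl ⟨rfl, hN⟩⟩
  · exact ⟨_, _, Rd.Cls.ofOne gi hT hQ hi1 hM hC O, Or.inr ⟨y, p, w, u, v, v', O, rfl⟩⟩

/-- THE PROFILE of a component with at least four sites, at the window `j - 1` -/
theorem NJ.prof10 {n : ℕ} (hn : n ≤ 10) :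
    dd ^ ((st i (SS i t)).card - Rd.K10 n) ∣ ZC i (SS i t) n := by
  obtain ⟨Q, φ, K, -⟩ := h.cls4 hij hi1 C h4 hM
  exact K.prof10 hn

end Pool.Agent.GaussPoset.Wd
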