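import Pool.Agent.W_448xc_h84.XgI

/-!
# The general exchange (MP_448cb3_co): the flip of a matched pendant as a flip of cores
-/

namespace Pool.Agent.GaussPoset.Win.Xg

set_option linter.unusedSectionVars false

open Finset Kd W4

universe u

variable {P : Type u} [Fintype P] [PartialOrder P] [DecidableEq P] {r i : ℕ}
variable {y p w u v v' z d x : P} {e f : P → ℕ} {psi : P → P} {C : Finset P}

/-- THE FLIP of a matched pendant -/
theorem flp_fl (H : Gr P r) (hi : 1 ≤ i) (hi2 : i + 1 ≤ r) (F : FlS i y p w u v v')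
    (hM : Mat P i ∅ psi) (hy : psi y = w) (hC1 : Part (i + 1) C) (m1 : y ∈ C) (m2 : p ∈ C) (m3 : w ∈ C) (m4 : u ∈ C) :
    Flp i psi C (FP y p w u v v') (fl y p w u) := by
  have hC : Part i C := hC1.pred
  have hspt : ∀ e, Spt C e → Spt C (fl y p w u e) := by
    intro e he z hz
    rw [fl_of (by rintro rfl; exact hz m1) (by rintro rfl; exact hz m2)
      (by rintro rfl; exact hz m3) (by rintro rfl; exact hz m4)]
    exact he z hz
  refine ⟨fun e d x ho hd hq => F.fp_xc H hq ho.adm.l ho.adm.u hd, fun e ho hq => ?_,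
    fun e ho hq => ?_, fun e ho hq m k hk => F.jk H hi hi2 hM hy hC1 hq ho.adm m hk⟩
  · refine ⟨⟨hspt e ho.spt, F.core_fl H hM hy hq ho.core, F.adm_fl H hq ho.adm⟩, F.fp_fl H hq,
      F.fl_fl H, F.kp_fl H hq, ?_⟩
    have h1 := Equiv.sum_comp ((Equiv.swap p u).trans (Equiv.swap y w)) e
    exact h1
  · rcases hq with hq | hq
    · refine ⟨xi ^ 3, ?_, F.unit_lo H hq ho.adm hC ho.spt (hspt e ho.spt)⟩
      obtain ⟨k, hk⟩ := dd_dvd_odd (m := 0) (n := 3) (by decide)
      rw [pow_zero, one_mul] at hk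
      exact ⟨k, hk⟩
    · refine ⟨xx ^ 3, ?_, F.unit_up H hq ho.adm hC ho.spt (hspt e ho.spt)⟩
      obtain ⟨k, hk⟩ := dd_dvd_odd (m := 3) (n := 0) (by decide)
      rw [pow_zero, mul_one] at hk
      exact ⟨k, hk⟩

end Pool.Agent.GaussPoset.Win.Xg
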