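import Pool.Agent.W_448ut_h16.XcB

/-!
# The general exchange (MP_448cb3_co), abstract part

One side of a window: `dn` goes away from the window, `up` towards it, `lam` is the distance to the
window. `d` is at distance two over `w`, `w2` (sites `p, x` and `x, q`); the exchange moves the excess
of `d` to the common site `x` and back. Which statuses change is computed for arbitrary labels.
-/

namespace Pool.Agent.GaussPoset.Win.Xg

set_option linter.unusedSectionVars false

open Finset Kd

universe u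

variable {P : Type u} [Fintype P] [PartialOrder P] [DecidableEq P]

/-- some element of `dn z` has a larger label -/
def Bg (dn : P → Finset P) (e : P → ℕ) (z : P) : Prop := ∃ z' ∈ dn z, e z < e z'

/-- some element of `up z` has a label which is at least as large -/
def Ge (up : P → Finset P) (e : P → ℕ) (z : P) : Prop := ∃ y ∈ up z, e z ≤ e y

/-- one side of a window -/
structure Side (dn up : P → Finset P) (lam : P → ℤ) : Prop where
  du : ∀ {z z'}, z' ∈ dn z ↔ z ∈ up z'
  lm : ∀ {z z'}, z' ∈ dn z → lam z' = lam z + 1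

/-- the places of an exchange -/
structure Tee (dn up : P → Finset P) (lam : P → ℤ) (d w w2 p x q : P) : Prop where
  ld : lam d = 2
  ud : up d = {w, w2}
  uw : up w = {p, x}
  uw2 : up w2 = {x, q}
  dx : dn x = {w, w2}
  ne : w ≠ w2
  px : p ≠ x
  xq : x ≠ q
  pq : p ≠ q

/-- the side `y` (sites `x` and `o`) is passive, or it is free -/
def SdO (dn : P → Finset P) (d x y o : P) (e : P → ℕ) : Prop :=
  (e d ≤ e y ∧ e x < e y) ∨ ((∀ d' ∈ dn y, d' ≠ d → e d' ≤ e y) ∧ e o < e y)

/-- the side `y` is active -/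
def Act (d x y : P) (e : P → ℕ) : Prop := e y < e d ∨ e y ≤ e x

/-- the conditions of an exchange -/
structure Exo (dn up : P → Finset P) (d w w2 p x q : P) (e : P → ℕ) : Prop where
  pos : 1 ≤ e d
  t1 : ∀ t ∈ dn d, e t ≤ e d ∧ e t ≤ e x + 1
  u1 : ∀ u ∈ up x, e u ≤ e x ∧ e u + 1 ≤ e d
  s1 : SdO dn d x w p e
  s2 : SdO dn d x w2 q e
  act : Act d x w e ∨ Act d x w2 e

variable {dn up : P → Finset P} {lam : P → ℤ} {d w w2 p x q : P} {e : P → ℕ}

lemma Tee.symm (T : Tee dn up lam d w w2 p x q) : Tee dn up lam d w2 w q x p where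
  ld := T.ld
  ud := by rw [T.ud, pair_comm]
  uw := by rw [T.uw2, pair_comm]
  uw2 := by rw [T.uw, pair_comm]
  dx := by rw [T.dx, pair_comm]
  ne := T.ne.symm
  px := T.xq.symm
  xq := T.px.symm
  pq := T.pq.symm

section basic

variable (S : Side dn up lam) (T : Tee dn up lam d w w2 p x q)
include S T

lemma Tee.lv : lam w = 1 ∧ lam w2 = 1 ∧ lam x = 0 ∧ lam p = 0 ∧ lam q = 0 := by
  have h1 := S.lm (S.du.2 (show w ∈ up d by rw [T.ud]; simp))
  have h2 := S.lm (S.du.2 (show w2 ∈ up d by rw [T.ud]; simp))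
  have h3 := S.lm (S.du.2 (show x ∈ up w by rw [T.uw]; simp))
  have h4 := S.lm (S.du.2 (show p ∈ up w by rw [T.uw]; simp))
  have h5 := S.lm (S.du.2 (show q ∈ up w2 by rw [T.uw2]; simp))
  have := T.ld
  omega

lemma Tee.x_ne : x ≠ d := by
  have h := T.lv S
  rintro rfl
  have := T.ld
  omega

lemma Tee.xc_w : xc d x e w = e w := by
  have h := T.lv S
  have := T.ld
  exact xc_of (by rintro rfl; omega) (by rintro rfl; omega)

lemma Tee.xc_w2 : xc d x e w2 = e w2 := T.symm.xc_w S

lemma Tee.xc_p : xc d x e p = e p := by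
  have h := T.lv S
  have := T.ld
  exact xc_of (by rintro rfl; omega) T.px

lemma Tee.xc_q : xc d x e q = e q := T.symm.xc_p S

/-- away from the levels `0` and `2` nothing changes -/
lemma Tee.xc_lev {y : P} (h0 : lam y ≠ 0) (h2 : lam y ≠ 2) : xc d x e y = e y := by
  have h := T.lv S
  have := T.ld
  exact xc_of (by rintro rfl; omega) (by rintro rfl; omega)

end basic

lemma Exo.symm (E : Exo dn up d w w2 p x q e) : Exo dn up d w2 w q x p e where
  pos := E.pos
  t1 := E.t1
  u1 := E.u1
  s1 := E.s2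
  s2 := E.s1
  act := E.act.symm

section sides

variable (S : Side dn up lam) (T : Tee dn up lam d w w2 p x q) (hd : 1 ≤ e d)
include S T hd

lemma Tee.sdo (h : SdO dn d x w p e) : SdO dn d x w p (xc d x e) := by
  have hl := T.lv S
  have hld := T.ld
  have nx := T.x_ne S
  have hdw : d ∈ dn w := S.du.2 (by rw [T.ud]; simp)
  unfold SdO at h ⊢
  rw [T.xc_w S, T.xc_p S, xc_d, xc_x nx]
  rcases h with h | ⟨h, h'⟩
  · left
    omega
  · right
    refine ⟨fun d' hd' hne => ?_, h'⟩
    have := S.lm hd'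
    rw [xc_of hne (by rintro rfl; omega)]
    exact h d' hd' hne

lemma Tee.act' (h : Act d x w e) : Act d x w (xc d x e) := by
  have nx := T.x_ne S
  unfold Act at h ⊢
  rw [T.xc_w S, xc_d, xc_x nx]
  omega

end sides

section exo

variable (S : Side dn up lam) (T : Tee dn up lam d w w2 p x q) (E : Exo dn up d w w2 p x q e)
include S T E

/-- the conditions are symmetric -/
lemma Exo.xc : Exo dn up d w w2 p x q (Kd.xc d x e) := by
  have hl := T.lv S
  have hld := T.ld
  have nx := T.x_ne S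
  have hp := E.pos
  refine ⟨?_, fun t ht => ?_, fun u hu => ?_, T.sdo S hp E.s1, T.symm.sdo S hp E.s2, ?_⟩
  · rw [xc_d]
    omega
  · have := S.lm ht
    rw [T.xc_lev S (by omega) (by omega), xc_d, xc_x nx]
    have := E.t1 t ht
    omega
  · have := S.lm (S.du.2 hu)
    rw [T.xc_lev S (by omega) (by omega), xc_d, xc_x nx]
    have := E.u1 u hu
    omega
  · rcases E.act with h | h
    · exact Or.inl (T.act' S hp h)
    · exact Or.inr (T.symm.act' S hp h)

lemma Exo.bg_of {z : P} (hz : 0 ≤ lam z) (h1 : z ≠ w) (h2 : z ≠ w2) (h3 : z ≠ x) :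
    Bg dn (Kd.xc d x e) z ↔ Bg dn e z := by
  have hl := T.lv S
  have hld := T.ld
  have nx := T.x_ne S
  by_cases h4 : z = d
  · subst h4
    constructor
    · rintro ⟨t, ht, hlt⟩
      have hlt' := S.lm ht
      rw [T.xc_lev S (y := t) (by omega) (by omega), xc_d] at hlt
      have := E.t1 t ht
      omega
    · rintro ⟨t, ht, hlt⟩
      have := E.t1 t ht
      omega
  · refine exists_congr fun z' => and_congr_right fun hz' => ?_
    have hlz := S.lm hz'
    rw [xc_of h4 h3, xc_of (y := z') ?_ (by rintro rfl; omega)]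
    rintro rfl
    have := S.du.1 hz'
    rw [T.ud, mem_insert, mem_singleton] at this
    exact this.elim h1 h2

lemma Exo.ge_of {z : P} (hz : 1 ≤ lam z) (h1 : z ≠ w) (h2 : z ≠ w2) (h3 : z ≠ d) :
    Ge up (Kd.xc d x e) z ↔ Ge up e z := by
  have hl := T.lv S
  have hld := T.ld
  have nx := T.x_ne S
  have hzx : z ≠ x := by rintro rfl; omega
  by_cases h4 : z ∈ dn d
  · have hl4 := S.lm h4
    have h5 := E.t1 z h4
    refine ⟨fun _ => ⟨d, S.du.1 h4, h5.1⟩, fun _ => ⟨d, S.du.1 h4, ?_⟩⟩
    rw [xc_of h3 hzx, xc_d]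
    exact h5.2
  · refine exists_congr fun y => and_congr_right fun hy => ?_
    rw [xc_of h3 hzx, xc_of (y := y)]
    · rintro rfl
      exact h4 (S.du.2 hy)
    · rintro rfl
      have := S.du.2 hy
      rw [T.dx, mem_insert, mem_singleton] at this
      exact this.elim h1 h2

lemma Exo.bgu_of {z : P} (hz : lam z ≤ 0) : Bg up (Kd.xc d x e) z ↔ Bg up e z := by
  have hl := T.lv S
  have hld := T.ld
  have nx := T.x_ne S
  have hzd : z ≠ d := by rintro rfl; omega
  by_cases h4 : z = x
  · subst h4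
    constructor
    · rintro ⟨u, hu, hlt⟩
      have h5 := S.lm (S.du.2 hu)
      rw [T.xc_lev S (y := u) (by omega) (by omega), xc_x nx] at hlt
      have := E.u1 u hu
      omega
    · rintro ⟨u, hu, hlt⟩
      have := E.u1 u hu
      omega
  · refine exists_congr fun y => and_congr_right fun hy => ?_
    have h5 := S.lm (S.du.2 hy)
    rw [xc_of hzd h4, T.xc_lev S (y := y) (by omega) (by omega)]

lemma Exo.geu_of {z : P} (hz : lam z < 0) : Ge dn (Kd.xc d x e) z ↔ Ge dn e z := by
  have hl := T.lv S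
  have hld := T.ld
  have nx := T.x_ne S
  have hzd : z ≠ d := by rintro rfl; omega
  have hzx : z ≠ x := by rintro rfl; omega
  by_cases h4 : z ∈ up x
  · have h5 := E.u1 z h4
    refine ⟨fun _ => ⟨x, S.du.2 h4, h5.1⟩, fun _ => ⟨x, S.du.2 h4, ?_⟩⟩
    rw [xc_of hzd hzx, xc_x nx]
    omega
  · refine exists_congr fun y => and_congr_right fun hy => ?_
    have h5 := S.lm hy
    rw [xc_of hzd hzx, xc_of (y := y) (by rintro rfl; omega)]
    rintro rfl
    exact h4 (S.du.1 hy)

lemma Exo.nbd : ¬ Bg dn e d := by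
  rintro ⟨t, ht, hlt⟩
  have := E.t1 t ht
  omega

end exo

section four

variable (S : Side dn up lam) (T : Tee dn up lam d w w2 p x q)
include S T

lemma Tee.ge_d : Ge up e d ↔ e d ≤ e w ∨ e d ≤ e w2 := by
  unfold Ge
  rw [T.ud]
  simp

lemma Tee.bg_x : Bg dn e x ↔ e x < e w ∨ e x < e w2 := by
  unfold Bg
  rw [T.dx]
  simp

lemma Tee.bg_xf (hp : 1 ≤ e d) : Bg dn (Kd.xc d x e) x ↔ Ge up e d := by
  rw [T.bg_x S, T.ge_d S, T.xc_w S, T.xc_w2 S, xc_x (T.x_ne S)]
  omega

lemma Tee.ge_df : Ge up (Kd.xc d x e) d ↔ Bg dn e x := by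
  rw [T.bg_x S, T.ge_d S, T.xc_w S, T.xc_w2 S, xc_d]
  omega

lemma Tee.d_dw : d ∈ dn w := S.du.2 (by rw [T.ud]; simp)

/-- the statuses of an active side -/
lemma Tee.w_act (hp : 1 ≤ e d) (h : SdO dn d x w p e) (ha : Act d x w e) :
    (Bg dn e w ↔ e w < e d) ∧ (Ge up e w ↔ e w ≤ e x) ∧
      (Bg dn (Kd.xc d x e) w ↔ e w ≤ e x) ∧ (Ge up (Kd.xc d x e) w ↔ e w < e d) := by
  have hl := T.lv S
  have hld := T.ld
  have nx := T.x_ne S
  have hdw := T.d_dw S
  have h' : (∀ d' ∈ dn w, d' ≠ d → e d' ≤ e w) ∧ e p < e w := by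
    unfold SdO at h
    unfold Act at ha
    rcases h with h | h
    · omega
    · exact h
  obtain ⟨h1, h2⟩ := h'
  refine ⟨?_, ?_, ?_, ?_⟩
  · constructor
    · rintro ⟨z, hz, hlt⟩
      by_cases h3 : z = d
      · rwa [h3] at hlt
      · have := h1 z hz h3
        omega
    · intro h3
      exact ⟨d, hdw, h3⟩
  · unfold Ge
    rw [T.uw]
    simp only [mem_insert, mem_singleton, exists_eq_or_imp, exists_eq_left]
    omega
  · constructor
    · rintro ⟨z, hz, hlt⟩
      rw [T.xc_w S] at hlt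
      by_cases h3 : z = d
      · rw [h3, xc_d] at hlt
        omega
      · have := S.lm hz
        rw [xc_of h3 (by rintro rfl; omega)] at hlt
        have := h1 z hz h3
        omega
    · intro h3
      refine ⟨d, hdw, ?_⟩
      rw [T.xc_w S, xc_d]
      omega
  · unfold Ge
    rw [T.uw]
    simp only [mem_insert, mem_singleton, exists_eq_or_imp, exists_eq_left]
    rw [T.xc_w S, T.xc_p S, xc_x nx]
    omega

/-- a passive side does not change -/
lemma Tee.w_pas (hp : 1 ≤ e d) (ha : ¬ Act d x w e) :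
    (Bg dn (Kd.xc d x e) w ↔ Bg dn e w) ∧ (Ge up (Kd.xc d x e) w ↔ Ge up e w) := by
  have hl := T.lv S
  have hld := T.ld
  have nx := T.x_ne S
  have hdw := T.d_dw S
  unfold Act at ha
  constructor
  · refine exists_congr fun z => and_congr_right fun hz => ?_
    rw [T.xc_w S]
    by_cases h3 : z = d
    · rw [h3, xc_d]
      omega
    · have := S.lm hz
      rw [xc_of h3 (by rintro rfl; omega)]
  · unfold Ge
    rw [T.uw]
    simp only [mem_insert, mem_singleton, exists_eq_or_imp, exists_eq_left]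
    rw [T.xc_w S, T.xc_p S, xc_x nx]
    omega

end four

section count

/-- the number of statuses gained by an exchange -/
def ps (d w w2 x : P) (e : P → ℕ) : ℕ :=
  (if e w ≤ e x then 1 else 0) + (if e w2 ≤ e x then 1 else 0) +
    (if e d ≤ e w ∨ e d ≤ e w2 then 1 else 0)

/-- the number of statuses lost by an exchange -/
def ng (d w w2 x : P) (e : P → ℕ) : ℕ :=
  (if e w < e d then 1 else 0) + (if e w2 < e d then 1 else 0) +
    (if e x < e w ∨ e x < e w2 then 1 else 0)

open Classical in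
/-- number of elements with a larger element below -/
noncomputable def NB (dn : P → Finset P) (lam : P → ℤ) (e : P → ℕ) : ℕ :=
  (univ.filter (fun z : P => 1 ≤ lam z ∧ Bg dn e z)).card

open Classical in
/-- number of free elements -/
noncomputable def NP (dn up : P → Finset P) (lam : P → ℤ) (e : P → ℕ) : ℕ :=
  (univ.filter (fun z : P => 1 ≤ lam z ∧ ¬ Bg dn e z ∧ ¬ Ge up e z)).card

open Classical in
/-- number of forced sites -/
noncomputable def NA (dn : P → Finset P) (lam : P → ℤ) (e : P → ℕ) : ℕ :=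
  (univ.filter (fun z : P => lam z = 0 ∧ Bg dn e z)).card

/-- admissibility of one side -/
def AdS (dn up : P → Finset P) (lam : P → ℤ) (e : P → ℕ) : Prop :=
  ∀ z : P, 1 ≤ lam z → ¬ (Bg dn e z ∧ Ge up e z)

lemma card_four {a b c f : P} (hab : a ≠ b) (hac : a ≠ c) (haf : a ≠ f) (hbc : b ≠ c)
    (hbf : b ≠ f) (hcf : c ≠ f) (g : P → Prop) [DecidablePred g] :
    (univ.filter g).card = (if g a then 1 else 0) + (if g b then 1 else 0) +
      (if g c then 1 else 0) + (if g f then 1 else 0) +
        ((((univ.erase a).erase b).erase c).erase f |>.filter g).card := by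
  rw [card_filter, card_filter]
  have h1 : f ∈ ((univ.erase a).erase b).erase c := by simp [hcf.symm, hbf.symm, haf.symm]
  have h2 : c ∈ (univ.erase a).erase b := by simp [hbc.symm, hac.symm]
  have h3 : b ∈ (univ : Finset P).erase a := by simp [hab.symm]
  rw [← add_sum_erase univ _ (mem_univ a), ← add_sum_erase _ _ h3, ← add_sum_erase _ _ h2,
    ← add_sum_erase _ _ h1]
  ring

variable (S : Side dn up lam) (T : Tee dn up lam d w w2 p x q) (E : Exo dn up d w w2 p x q e)
include S T E

lemma Exo.ads_of (h : AdS dn up lam e) : AdS dn up lam (Kd.xc d x e) := by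
  have hl := T.lv S
  have hld := T.ld
  have hp := E.pos
  have side : ∀ {w w2 p q : P}, Tee dn up lam d w w2 p x q → SdO dn d x w p e →
      ¬ (Bg dn (Kd.xc d x e) w ∧ Ge up (Kd.xc d x e) w) := by
    intro w w2 p q T' hS hcon
    by_cases ha : Act d x w e
    · obtain ⟨a1, a2, a3, a4⟩ := T'.w_act S hp hS ha
      exact h w (T'.lv S).1.ge ⟨a1.2 (a4.1 hcon.2), a2.2 (a3.1 hcon.1)⟩
    · obtain ⟨a1, a2⟩ := T'.w_pas S hp ha
      exact h w (T'.lv S).1.ge ⟨a1.1 hcon.1, a2.1 hcon.2⟩
  intro z hz hcon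
  by_cases h1 : z = w
  · subst h1
    exact side T E.s1 hcon
  by_cases h2 : z = w2
  · subst h2
    exact side T.symm E.s2 hcon
  by_cases h3 : z = d
  · subst h3
    exact (E.xc S T).nbd S T hcon.1
  have h4 : z ≠ x := by rintro rfl; omega
  rw [E.bg_of S T (by omega) h1 h2 h4, E.ge_of S T hz h1 h2 h3] at hcon
  exact h z hz hcon

lemma Exo.xcxc : Kd.xc d x (Kd.xc d x e) = e := xc_xc (T.x_ne S) E.pos

lemma Exo.ads_iff : AdS dn up lam (Kd.xc d x e) ↔ AdS dn up lam e := by
  refine ⟨fun h => ?_, E.ads_of S T⟩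
  have h1 := (E.xc S T).ads_of S T h
  rwa [E.xcxc S T] at h1

open Classical in
/-- THE COUNTING of an exchange -/
theorem Exo.count (h : AdS dn up lam e) :
    NP dn up lam (Kd.xc d x e) + NA dn lam e = NP dn up lam e + NA dn lam (Kd.xc d x e) ∧
      NB dn lam (Kd.xc d x e) + NA dn lam (Kd.xc d x e) + ng d w w2 x e =
        NB dn lam e + NA dn lam e + ps d w w2 x e := by
  have hl := T.lv S
  have hld := T.ld
  have nx := T.x_ne S
  have hp := E.pos
  have e1 : w ≠ d := by rintro rfl; omega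
  have e2 : w ≠ x := by rintro rfl; omega
  have e3 : w2 ≠ d := by rintro rfl; omega
  have e4 : w2 ≠ x := by rintro rfl; omega
  set f := Kd.xc d x e with hf
  -- the rest
  have hR : ∀ z ∈ (((univ.erase w).erase w2).erase d).erase x, z ≠ x ∧ z ≠ d ∧ z ≠ w2 ∧ z ≠ w := by
    intro z hz
    simp only [mem_erase] at hz
    exact ⟨hz.1, hz.2.1, hz.2.2.1, hz.2.2.2.1⟩
  have rB : ((((univ.erase w).erase w2).erase d).erase x).filter
      (fun z : P => 1 ≤ lam z ∧ Bg dn f z) = ((((univ.erase w).erase w2).erase d).erase x).filter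
      (fun z : P => 1 ≤ lam z ∧ Bg dn e z) := by
    refine filter_congr fun z hz => and_congr_right fun hz1 => ?_
    obtain ⟨g1, g2, g3, g4⟩ := hR z hz
    exact E.bg_of S T (by omega) g4 g3 g1
  have rP : ((((univ.erase w).erase w2).erase d).erase x).filter
      (fun z : P => 1 ≤ lam z ∧ ¬ Bg dn f z ∧ ¬ Ge up f z) =
      ((((univ.erase w).erase w2).erase d).erase x).filter
      (fun z : P => 1 ≤ lam z ∧ ¬ Bg dn e z ∧ ¬ Ge up e z) := by
    refine filter_congr fun z hz => and_congr_right fun hz1 => ?_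
    obtain ⟨g1, g2, g3, g4⟩ := hR z hz
    rw [hf, E.bg_of S T (by omega) g4 g3 g1, E.ge_of S T hz1 g4 g3 g2]
  have rA : ((((univ.erase w).erase w2).erase d).erase x).filter
      (fun z : P => lam z = 0 ∧ Bg dn f z) = ((((univ.erase w).erase w2).erase d).erase x).filter
      (fun z : P => lam z = 0 ∧ Bg dn e z) := by
    refine filter_congr fun z hz => and_congr_right fun hz1 => ?_
    obtain ⟨g1, g2, g3, g4⟩ := hR z hz
    exact E.bg_of S T (by omega) g4 g3 g1
  unfold NB NP NA
  rw [card_four T.ne e1 e2 e3 e4 nx.symm (fun z : P => 1 ≤ lam z ∧ ¬ Bg dn f z ∧ ¬ Ge up f z),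
    card_four T.ne e1 e2 e3 e4 nx.symm (fun z : P => 1 ≤ lam z ∧ ¬ Bg dn e z ∧ ¬ Ge up e z),
    card_four T.ne e1 e2 e3 e4 nx.symm (fun z : P => 1 ≤ lam z ∧ Bg dn f z),
    card_four T.ne e1 e2 e3 e4 nx.symm (fun z : P => 1 ≤ lam z ∧ Bg dn e z),
    card_four T.ne e1 e2 e3 e4 nx.symm (fun z : P => lam z = 0 ∧ Bg dn f z),
    card_four T.ne e1 e2 e3 e4 nx.symm (fun z : P => lam z = 0 ∧ Bg dn e z), rB, rP, rA]
  have nd : ¬ Bg dn e d := E.nbd S T
  have ndf : ¬ Bg dn f d := (E.xc S T).nbd S T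
  have c1 : Bg dn f x ↔ Ge up e d := T.bg_xf S hp
  have c2 : Ge up f d ↔ Bg dn e x := T.ge_df S
  have c3 := T.ge_d S (e := e)
  have c4 := T.bg_x S (e := e)
  have hw := h w hl.1.ge
  have hw2 := h w2 hl.2.1.ge
  have l1 : 1 ≤ lam w := hl.1.ge
  have l2 : 1 ≤ lam w2 := hl.2.1.ge
  have l3 : 1 ≤ lam d := by omega
  have l4 : ¬ 1 ≤ lam x := by omega
  have l5 : ¬ lam w = 0 := by omega
  have l6 : ¬ lam w2 = 0 := by omega
  have l7 : ¬ lam d = 0 := by omega
  have l8 : lam x = 0 := hl.2.2.1
  have l9 : ¬ (1 : ℤ) ≤ 0 := by norm_num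
  simp only [l1, l2, l3, l4, l5, l6, l7, l8, l9, true_and, false_and, if_false, nd, ndf, not_false_eq_true,
    c1, c2]
  have pas : ∀ {w : P}, ¬ Act d x w e → e d ≤ e w ∧ e x < e w := by
    intro w ha
    unfold Act at ha
    omega
  unfold ps ng
  by_cases a1 : Act d x w e
  · obtain ⟨f1, f2, f3, f4⟩ := T.w_act S hp E.s1 a1
    rw [← hf] at f3 f4
    by_cases a2 : Act d x w2 e
    · obtain ⟨g1, g2, g3, g4⟩ := T.symm.w_act S hp E.s2 a2
      rw [← hf] at g3 g4
      rw [f1, f2] at hw
      rw [g1, g2] at hw2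
      simp only [f1, f2, f3, f4, g1, g2, g3, g4, c3, c4]
      unfold Act at a1 a2
      by_cases b1 : e w < e d
      · have b2 : ¬ e w ≤ e x := fun b2 => hw ⟨b1, b2⟩
        have b3 : ¬ e w2 ≤ e x := by omega
        have b4 : e w2 < e d := by omega
        have b5 : ¬ (e d ≤ e w ∨ e d ≤ e w2) := by omega
        have b6 : e x < e w ∨ e x < e w2 := by omega
        simp only [b1, b2, b3, b4, b5, b6, if_true, if_false, not_true_eq_false, not_false_eq_true,
          and_false, false_and, true_and, and_true]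
        omega
      · have b2 : e w ≤ e x := by omega
        have b4 : ¬ e w2 < e d := by omega
        have b3 : e w2 ≤ e x := by omega
        have b5 : e d ≤ e w ∨ e d ≤ e w2 := by omega
        have b6 : ¬ (e x < e w ∨ e x < e w2) := by omega
        simp only [b1, b2, b3, b4, b5, b6, if_true, if_false, not_true_eq_false, not_false_eq_true,
          and_false, false_and, true_and, and_true]
        omega
    · obtain ⟨g1, g2⟩ := T.symm.w_pas S hp a2
      rw [← hf] at g1 g2
      have g3 := pas a2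
      rw [f1, f2] at hw
      have b5 : e d ≤ e w ∨ e d ≤ e w2 := by omega
      have b6 : e x < e w ∨ e x < e w2 := by omega
      have b7 : ¬ e w2 < e d := by omega
      have b8 : ¬ e w2 ≤ e x := by omega
      simp only [f1, f2, f3, f4, g1, g2, c3, c4, b5, b6, b7, b8]
      unfold Act at a1
      by_cases b1 : e w < e d
      · have b2 : ¬ e w ≤ e x := fun b2 => hw ⟨b1, b2⟩
        simp only [b1, b2, if_true, if_false, not_true_eq_false, not_false_eq_true,
          and_false, false_and, true_and, and_true]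
        omega
      · have b2 : e w ≤ e x := by omega
        simp only [b1, b2, if_true, if_false, not_true_eq_false, not_false_eq_true,
          and_false, false_and, true_and, and_true]
        omega
  · have a2 : Act d x w2 e := E.act.resolve_left a1
    obtain ⟨f1, f2, f3, f4⟩ := T.symm.w_act S hp E.s2 a2
    rw [← hf] at f3 f4
    obtain ⟨g1, g2⟩ := T.w_pas S hp a1
    rw [← hf] at g1 g2
    have g3 := pas a1
    rw [f1, f2] at hw2
    have b5 : e d ≤ e w ∨ e d ≤ e w2 := by omega
    have b6 : e x < e w ∨ e x < e w2 := by omega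
    have b7 : ¬ e w < e d := by omega
    have b8 : ¬ e w ≤ e x := by omega
    simp only [f1, f2, f3, f4, g1, g2, c3, c4, b5, b6, b7, b8]
    unfold Act at a2
    by_cases b1 : e w2 < e d
    · have b2 : ¬ e w2 ≤ e x := fun b2 => hw2 ⟨b1, b2⟩
      simp only [b1, b2, if_true, if_false, not_true_eq_false, not_false_eq_true,
        and_false, false_and, true_and, and_true]
      omega
    · have b2 : e w2 ≤ e x := by omega
      simp only [b1, b2, if_true, if_false, not_true_eq_false, not_false_eq_true,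
        and_false, false_and, true_and, and_true]
      omega

omit S T in
/-- the unit of an exchange has the sign `-1` -/
theorem Exo.odd (h1 : ¬ (e w < e d ∧ e w ≤ e x)) (h2 : ¬ (e w2 < e d ∧ e w2 ≤ e x)) :
    Odd (ps d w w2 x e + ng d w w2 x e) := by
  have ha := E.act
  unfold ps ng
  unfold Act at ha
  rw [Nat.odd_iff]
  split_ifs <;> omega

/-- the unit of an exchange has the sign `-1` -/
theorem Exo.odd' (h : AdS dn up lam e) : Odd (ps d w w2 x e + ng d w w2 x e) := by
  have hl := T.lv S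
  refine E.odd (fun hc => ?_) (fun hc => ?_)
  · exact h w hl.1.ge ⟨⟨d, T.d_dw S, hc.1⟩, ⟨x, by rw [T.uw]; simp, hc.2⟩⟩
  · exact h w2 hl.2.1.ge ⟨⟨d, T.symm.d_dw S, hc.1⟩, ⟨x, by rw [T.uw2]; simp, hc.2⟩⟩

end count

end Pool.Agent.GaussPoset.Win.Xg
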