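import Pool.Agent.W_448xc_h84.XgA

/-!
# The general exchange (MP_448cb3_co), the terms of a window
-/

namespace Pool.Agent.GaussPoset.Win.Xg

set_option linter.unusedSectionVars false

open Finset Kd

universe u

variable {P : Type u} [Fintype P] [PartialOrder P] [DecidableEq P] {r i : ℕ}

/-- distance to the window, the lower side -/
noncomputable def laL (i : ℕ) (z : P) : ℤ := (lev z : ℤ) - i

/-- distance to the window, the upper side -/
noncomputable def laU (i : ℕ) (z : P) : ℤ := (i : ℤ) - lev z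

lemma sideL (H : Gr P r) (i : ℕ) : Side (P := P) dc uc (laL i) where
  du := by
    intro z z'
    rw [mem_dc, mem_uc]
  lm := by
    intro z z' h
    have := lev_dc H h
    unfold laL
    omega

lemma sideU (H : Gr P r) (i : ℕ) : Side (P := P) uc dc (laU i) where
  du := by
    intro z z'
    rw [mem_dc, mem_uc]
  lm := by
    intro z z' h
    have := lev_uc H h
    unfold laU
    omega

section algebra

lemma dd_dvd_xx (m : ℕ) : dd ∣ xx ^ m - (-1) ^ m := by
  refine dvd_trans ?_ (sub_dvd_pow_sub_pow xx (-1) m)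
  refine ⟨1, ?_⟩
  unfold xx
  ring

lemma dd_dvd_xi (m : ℕ) : dd ∣ xi ^ m - (-1) ^ m := by
  refine dvd_trans ?_ (sub_dvd_pow_sub_pow xi (-1) m)
  refine ⟨xi, ?_⟩
  have h := xx_mul_xi
  unfold xx at h
  linear_combination -h

lemma dd_dvd_odd {m n : ℕ} (h : Odd (m + n)) : ∃ k, 1 + xx ^ m * xi ^ n = dd * k := by
  obtain ⟨a, ha⟩ := dd_dvd_xx m
  obtain ⟨b, hb⟩ := dd_dvd_xi n
  have h1 : ((-1 : A)) ^ m * (-1) ^ n = -1 := by
    rw [← pow_add]
    exact Odd.neg_one_pow h
  refine ⟨a * xi ^ n + (-1) ^ m * b, ?_⟩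
  have h2 : xx ^ m = (-1) ^ m + dd * a := by rw [← ha]; ring
  have h3 : xi ^ n = (-1) ^ n + dd * b := by rw [← hb]; ring
  calc 1 + xx ^ m * xi ^ n = 1 + ((-1) ^ m + dd * a) * xi ^ n := by rw [h2]
    _ = 1 + (-1) ^ m * xi ^ n + dd * a * xi ^ n := by ring
    _ = 1 + (-1) ^ m * ((-1) ^ n + dd * b) + dd * a * xi ^ n := by
        conv_lhs => rw [h3]
        rw [h3]
    _ = 1 + (-1) ^ m * (-1) ^ n + dd * (a * xi ^ n + (-1) ^ m * b) := by ring
    _ = dd * (a * xi ^ n + (-1) ^ m * b) := by rw [h1]; ring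

lemma xx_of_eq {a a' n m : ℕ} (h : a' + n = a + m) : xx ^ a' = xx ^ m * xi ^ n * xx ^ a := by
  have e1 : ∀ n : ℕ, xx ^ n * xi ^ n = 1 := fun n => by rw [← mul_pow, xx_mul_xi, one_pow]
  calc xx ^ a' = xx ^ a' * (xx ^ n * xi ^ n) := by rw [e1, mul_one]
    _ = xx ^ (a' + n) * xi ^ n := by ring
    _ = xx ^ m * xi ^ n * xx ^ a := by rw [h]; ring

lemma xi_of_eq {a a' n m : ℕ} (h : a' + n = a + m) : xi ^ a' = xi ^ m * xx ^ n * xi ^ a := by
  have e1 : ∀ n : ℕ, xx ^ n * xi ^ n = 1 := fun n => by rw [← mul_pow, xx_mul_xi, one_pow]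
  calc xi ^ a' = xi ^ a' * (xx ^ n * xi ^ n) := by rw [e1, mul_one]
    _ = xi ^ (a' + n) * xx ^ n := by ring
    _ = xi ^ m * xx ^ n * xi ^ a := by rw [h]; ring

end algebra

section translate

variable {e : P → ℕ}

lemma FD_bg {z : P} : FD e z ↔ Bg dc e z := FDm
lemma GU_ge {z : P} : GU e z ↔ Ge uc e z := GUm
lemma FU_bg {z : P} : FU e z ↔ Bg uc e z := FUm
lemma GD_ge {z : P} : GD e z ↔ Ge dc e z := GDm

lemma aL_NB (i : ℕ) (e : P → ℕ) : aL i e = NB dc (laL i) e := by
  classical
  unfold aL NB laL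
  congr 1
  ext z
  simp only [mem_filter, mem_univ, true_and, FD_bg]
  refine and_congr_left fun _ => ?_
  omega

lemma pL_NP (i : ℕ) (e : P → ℕ) : pL i e = NP dc uc (laL i) e := by
  classical
  unfold pL NP laL
  congr 1
  ext z
  simp only [mem_filter, mem_univ, true_and, FD_bg, GU_ge]
  refine and_congr_left fun _ => ?_
  omega

lemma AL_NA (i : ℕ) (e : P → ℕ) : (AL i e).card = NA dc (laL i) e := by
  classical
  unfold NA laL
  congr 1
  ext z
  rw [NormD_mem_AL]
  simp only [mem_filter, mem_univ, true_and, FD_bg]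
  refine and_congr_left fun _ => ?_
  omega

lemma aU_NB (i : ℕ) (e : P → ℕ) : aU i e = NB uc (laU i) e := by
  classical
  unfold aU NB laU
  congr 1
  ext z
  simp only [mem_filter, mem_univ, true_and, FU_bg]
  refine and_congr_left fun _ => ?_
  omega

lemma pU_NP (i : ℕ) (e : P → ℕ) : pU i e = NP uc dc (laU i) e := by
  classical
  unfold pU NP laU
  congr 1
  ext z
  simp only [mem_filter, mem_univ, true_and, FU_bg, GD_ge]
  refine and_congr_left fun _ => ?_
  omega

lemma AU_NA (i : ℕ) (e : P → ℕ) : (AU i e).card = NA uc (laU i) e := by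
  classical
  unfold NA laU
  congr 1
  ext z
  rw [NormD_mem_AU]
  simp only [mem_filter, mem_univ, true_and, FU_bg]
  refine and_congr_left fun _ => ?_
  omega

lemma AdmL_ads (i : ℕ) (e : P → ℕ) : AdmL i e ↔ AdS dc uc (laL i) e := by
  unfold AdmL AdS laL
  refine forall_congr' fun z => ?_
  rw [FD_bg, GU_ge]
  constructor
  · intro h h1
    exact h (by omega)
  · intro h h1
    exact h (by omega)

lemma AdmU_ads (i : ℕ) (e : P → ℕ) : AdmU i e ↔ AdS uc dc (laU i) e := by
  unfold AdmU AdS laU
  refine forall_congr' fun z => ?_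
  rw [FU_bg, GD_ge]
  constructor
  · intro h h1
    exact h (by omega)
  · intro h h1
    exact h (by omega)

end translate

variable {d w w2 p x q : P} {e : P → ℕ}

section lower

variable (H : Gr P r) (T : Tee dc uc (laL i) d w w2 p x q) (E : Exo dc uc d w w2 p x q e)
include H T E

lemma low_AU : AU i (xc d x e) = AU i e := by
  ext v
  rw [NormD_mem_AU, NormD_mem_AU]
  refine and_congr_right fun hv => ?_
  rw [FU_bg, FU_bg]
  exact E.bgu_of (sideL H i) T (by unfold laL; omega)

lemma low_aU : aU i (xc d x e) = aU i e := by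
  classical
  unfold aU
  congr 1
  ext z
  simp only [mem_filter, mem_univ, true_and]
  refine and_congr_right fun hv => ?_
  rw [FU_bg, FU_bg]
  exact E.bgu_of (sideL H i) T (by unfold laL; omega)

lemma low_pU : pU i (xc d x e) = pU i e := by
  classical
  unfold pU
  congr 1
  ext z
  simp only [mem_filter, mem_univ, true_and]
  refine and_congr_right fun hv => ?_
  rw [FU_bg, FU_bg, GD_ge, GD_ge, E.bgu_of (sideL H i) T (by unfold laL; omega),
    E.geu_of (sideL H i) T (by unfold laL; omega)]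

lemma low_AdmU : AdmU i (xc d x e) ↔ AdmU i e := by
  unfold AdmU
  refine forall_congr' fun z => forall_congr' fun hz => ?_
  rw [FU_bg, FU_bg, GD_ge, GD_ge, E.bgu_of (sideL H i) T (by unfold laL; omega),
    E.geu_of (sideL H i) T (by unfold laL; omega)]

lemma low_AdmL : AdmL i (xc d x e) ↔ AdmL i e := by
  rw [AdmL_ads, AdmL_ads]
  exact E.ads_iff (sideL H i) T

lemma low_x : x ∉ AU i e := by
  rw [NormD_mem_AU, FU_bg]
  rintro ⟨-, u, hu, hlt⟩
  have := E.u1 u hu
  omega

lemma low_AL {v : P} (hv : v ≠ x) : v ∈ AL i (xc d x e) ↔ v ∈ AL i e := by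
  have hl := T.lv (sideL H i)
  rw [NormD_mem_AL, NormD_mem_AL]
  refine and_congr_right fun h => ?_
  rw [FD_bg, FD_bg]
  unfold laL at hl
  exact E.bg_of (sideL H i) T (by unfold laL; omega) (by rintro rfl; omega) (by rintro rfl; omega)
    hv

lemma low_disj : Disjoint (AL i (xc d x e)) (AU i (xc d x e)) ↔ Disjoint (AL i e) (AU i e) := by
  rw [low_AU H T E, disjoint_left, disjoint_left]
  refine forall_congr' fun v => ?_
  by_cases hv : v = x
  · subst hv
    have := low_x H T E
    tauto
  · rw [low_AL H T E hv]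

/-- THE EXCHANGE below the window: the second term is a unit times the first one -/
theorem low_unit {C : Finset P} (hC : Part i C) (he : Spt C e) (hf : Spt C (xc d x e)) :
    tC i C (xc d x e) = xx ^ ps d w w2 x e * xi ^ ng d w w2 x e * tC i C e := by
  classical
  by_cases hdd : Disjoint (AL i e) (AU i e)
  swap
  · unfold tC
    rw [if_neg hdd, if_neg (fun h => hdd ((low_disj H T E).1 h))]
    ring
  by_cases ha : AdmL i e ∧ AdmU i e
  swap
  · have hb : ¬ (AdmL i (xc d x e) ∧ AdmU i (xc d x e)) := by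
      rw [low_AdmL H T E, low_AdmU H T E]
      exact ha
    unfold tC Win.cw
    rw [if_neg ha, if_neg hb]
    simp
  have hcnt := E.count (sideL H i) T ((AdmL_ads i e).1 ha.1)
  rw [← pL_NP, ← pL_NP, ← AL_NA, ← AL_NA, ← aL_NB, ← aL_NB] at hcnt
  obtain ⟨h1, h2⟩ := hcnt
  have hdf : Disjoint (AL i (xc d x e)) (AU i (xc d x e)) := (low_disj H T E).2 hdd
  have hle : (AL i e).card + (AU i e).card ≤ (st i C).card := by
    rw [← card_union_of_disjoint hdd]
    exact card_le_card (union_subset (AL_sub hC he) (AU_sub H hC he))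
  have hlf : (AL i (xc d x e)).card + (AU i e).card ≤ (st i C).card := by
    rw [← low_AU H T E, ← card_union_of_disjoint hdf]
    exact card_le_card (union_subset (AL_sub hC hf) (AU_sub H hC hf))
  have h3 := xx_of_eq (a := aL i e + (AL i e).card)
    (a' := aL i (xc d x e) + (AL i (xc d x e)).card) (n := ng d w w2 x e) (m := ps d w w2 x e)
    (by omega)
  have t1 : tC i C e = xx ^ (aL i e + (AL i e).card) * xi ^ (aU i e + pU i e) *
      dd ^ (pL i e + pU i e + ((st i C).card - (AL i e).card - (AU i e).card)) := by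
    unfold tC Win.cw
    rw [if_pos hdd, if_pos ha]
    ring
  have t2 : tC i C (xc d x e) = xx ^ (aL i (xc d x e) + (AL i (xc d x e)).card) *
      xi ^ (aU i e + pU i e) *
      dd ^ (pL i e + pU i e + ((st i C).card - (AL i e).card - (AU i e).card)) := by
    unfold tC Win.cw
    rw [if_pos hdf, low_AdmL H T E, low_AdmU H T E, if_pos ha, low_aU H T E, low_pU H T E,
      low_AU H T E,
      show pL i e + pU i e + ((st i C).card - (AL i e).card - (AU i e).card) =
        pL i (xc d x e) + pU i e + ((st i C).card - (AL i (xc d x e)).card - (AU i e).card) by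
        omega]
    ring
  rw [t2, t1, h3]
  ring

end lower

section upper

variable (H : Gr P r) (T : Tee uc dc (laU i) d w w2 p x q) (E : Exo uc dc d w w2 p x q e)
include H T E

lemma upp_AL : AL i (xc d x e) = AL i e := by
  ext v
  rw [NormD_mem_AL, NormD_mem_AL]
  refine and_congr_right fun hv => ?_
  rw [FD_bg, FD_bg]
  exact E.bgu_of (sideU H i) T (by unfold laU; omega)

lemma upp_aL : aL i (xc d x e) = aL i e := by
  classical
  unfold aL
  congr 1
  ext z
  simp only [mem_filter, mem_univ, true_and]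
  refine and_congr_right fun hv => ?_
  rw [FD_bg, FD_bg]
  exact E.bgu_of (sideU H i) T (by unfold laU; omega)

lemma upp_pL : pL i (xc d x e) = pL i e := by
  classical
  unfold pL
  congr 1
  ext z
  simp only [mem_filter, mem_univ, true_and]
  refine and_congr_right fun hv => ?_
  rw [FD_bg, FD_bg, GU_ge, GU_ge, E.bgu_of (sideU H i) T (by unfold laU; omega),
    E.geu_of (sideU H i) T (by unfold laU; omega)]

lemma upp_AdmL : AdmL i (xc d x e) ↔ AdmL i e := by
  unfold AdmL
  refine forall_congr' fun z => forall_congr' fun hz => ?_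
  rw [FD_bg, FD_bg, GU_ge, GU_ge, E.bgu_of (sideU H i) T (by unfold laU; omega),
    E.geu_of (sideU H i) T (by unfold laU; omega)]

lemma upp_AdmU : AdmU i (xc d x e) ↔ AdmU i e := by
  rw [AdmU_ads, AdmU_ads]
  exact E.ads_iff (sideU H i) T

lemma upp_x : x ∉ AL i e := by
  rw [NormD_mem_AL, FD_bg]
  rintro ⟨-, u, hu, hlt⟩
  have := E.u1 u hu
  omega

lemma upp_AU {v : P} (hv : v ≠ x) : v ∈ AU i (xc d x e) ↔ v ∈ AU i e := by
  have hl := T.lv (sideU H i)
  rw [NormD_mem_AU, NormD_mem_AU]
  refine and_congr_right fun h => ?_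
  rw [FU_bg, FU_bg]
  unfold laU at hl
  exact E.bg_of (sideU H i) T (by unfold laU; omega) (by rintro rfl; omega) (by rintro rfl; omega)
    hv

lemma upp_disj : Disjoint (AL i (xc d x e)) (AU i (xc d x e)) ↔ Disjoint (AL i e) (AU i e) := by
  rw [upp_AL H T E, disjoint_left, disjoint_left]
  refine forall_congr' fun v => ?_
  by_cases hv : v = x
  · subst hv
    have := upp_x H T E
    tauto
  · rw [upp_AU H T E hv]

/-- THE EXCHANGE above the window: the second term is a unit times the first one -/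
theorem upp_unit {C : Finset P} (hC : Part i C) (he : Spt C e) (hf : Spt C (xc d x e)) :
    tC i C (xc d x e) = xi ^ ps d w w2 x e * xx ^ ng d w w2 x e * tC i C e := by
  classical
  by_cases hdd : Disjoint (AL i e) (AU i e)
  swap
  · unfold tC
    rw [if_neg hdd, if_neg (fun h => hdd ((upp_disj H T E).1 h))]
    ring
  by_cases ha : AdmL i e ∧ AdmU i e
  swap
  · have hb : ¬ (AdmL i (xc d x e) ∧ AdmU i (xc d x e)) := by
      rw [upp_AdmL H T E, upp_AdmU H T E]
      exact ha
    unfold tC Win.cw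
    rw [if_neg ha, if_neg hb]
    simp
  have hcnt := E.count (sideU H i) T ((AdmU_ads i e).1 ha.2)
  rw [← pU_NP, ← pU_NP, ← AU_NA, ← AU_NA, ← aU_NB, ← aU_NB] at hcnt
  obtain ⟨h1, h2⟩ := hcnt
  have hdf : Disjoint (AL i (xc d x e)) (AU i (xc d x e)) := (upp_disj H T E).2 hdd
  have hle : (AL i e).card + (AU i e).card ≤ (st i C).card := by
    rw [← card_union_of_disjoint hdd]
    exact card_le_card (union_subset (AL_sub hC he) (AU_sub H hC he))
  have hlf : (AL i e).card + (AU i (xc d x e)).card ≤ (st i C).card := by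
    rw [← upp_AL H T E, ← card_union_of_disjoint hdf]
    exact card_le_card (union_subset (AL_sub hC hf) (AU_sub H hC hf))
  have h3 := xi_of_eq (a := aU i e + pU i e) (a' := aU i (xc d x e) + pU i (xc d x e))
    (n := ng d w w2 x e) (m := ps d w w2 x e) (by omega)
  have t1 : tC i C e = xx ^ (aL i e + (AL i e).card) * xi ^ (aU i e + pU i e) *
      dd ^ (pL i e + pU i e + ((st i C).card - (AL i e).card - (AU i e).card)) := by
    unfold tC Win.cw
    rw [if_pos hdd, if_pos ha]
    ring
  have t2 : tC i C (xc d x e) = xx ^ (aL i e + (AL i e).card) *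
      xi ^ (aU i (xc d x e) + pU i (xc d x e)) *
      dd ^ (pL i e + pU i e + ((st i C).card - (AL i e).card - (AU i e).card)) := by
    unfold tC Win.cw
    rw [if_pos hdf, upp_AdmL H T E, upp_AdmU H T E, if_pos ha, upp_aL H T E, upp_pL H T E,
      upp_AL H T E,
      show pL i e + pU i e + ((st i C).card - (AL i e).card - (AU i e).card) =
        pL i e + pU i (xc d x e) + ((st i C).card - (AL i e).card - (AU i (xc d x e)).card) by
        omega]
    ring
  rw [t2, t1, h3]
  ring

end upper

end Pool.Agent.GaussPoset.Win.Xg
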