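import Pool.Agent.W_448xc_h84.XgE

/-!
# The general exchange (MP_448cb3_co): the flip of a pendant block, terms of a window
-/

namespace Pool.Agent.GaussPoset.Win.Xg

set_option linter.unusedSectionVars false

open Finset Kd W4

universe u

variable {P : Type u} [Fintype P] [PartialOrder P] [DecidableEq P] {r i : ℕ}
variable {y p w u v v' z : P} {e f : P → ℕ} {psi : P → P} {C : Finset P}

/-- the number of deficits -/
noncomputable def kp (i : ℕ) (e : P → ℕ) : ℤ :=
  ((AL i e).card : ℤ) + (AU i e).card - pL i e - pU i e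

/-- admissible and disjoint -/
structure Adm (i : ℕ) (e : P → ℕ) : Prop where
  l : AdmL i e
  u : AdmU i e
  d : Disjoint (AL i e) (AU i e)

lemma Adm.cheap (h : Adm i e) {k : ℕ} : Cheap k i e ↔ kp i e ≤ k := by
  unfold Cheap kp
  have h1 := h.l
  have h2 := h.u
  have h3 := h.d
  constructor
  · rintro (g | g | g | g)
    · exact absurd h1 g
    · exact absurd h2 g
    · exact absurd h3 g
    · omega
  · intro g
    right; right; right
    omega

/-- the number of deficits is not changed by an exchange -/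
lemma CanD.kp (H : Gr P r) {d x : P} (h : CanD i e d x) (ha : Adm i e) :
    kp i (xc d x e) = kp i e := by
  rcases h with ⟨w, w2, p, q, T, E, hr⟩ | ⟨w, w2, p, q, T, E, hr⟩
  · have hcnt := (E.count (sideL H i) T ((AdmL_ads i e).1 ha.l)).1
    rw [← pL_NP, ← pL_NP, ← AL_NA, ← AL_NA] at hcnt
    unfold Xg.kp
    rw [low_AU H T E, low_pU H T E]
    omega
  · have hcnt := (E.count (sideU H i) T ((AdmU_ads i e).1 ha.u)).1
    rw [← pU_NP, ← pU_NP, ← AU_NA, ← AU_NA] at hcnt
    unfold Xg.kp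
    rw [upp_AL H T E, upp_pL H T E]
    omega

lemma CanD.Adm (H : Gr P r) {d x : P} (h : CanD i e d x) (ha : Adm i e) :
    Adm i (xc d x e) := by
  obtain ⟨a1, a2, a3⟩ := h.adm H
  exact ⟨a1.2 ha.l, a2.2 ha.u, a3.2 ha.d⟩

/-- the positions of a pendant block on both sides -/
structure FlS (i : ℕ) (y p w u v v' : P) : Prop where
  ly : lev y = i + 1
  lw : lev w + 1 = i
  uy : uc y = {v, v'}
  dw : dc w = {v, v'}
  ne : v ≠ v'
  up : uc p = {y}
  du : dc u = {w}

/-- everything near the two sites is zero -/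
structure Zr (y p w u v v' : P) (e : P → ℕ) : Prop where
  v0 : e v = 0
  v0' : e v' = 0
  dv : ∀ z ∈ dc v, e z = 0
  dv' : ∀ z ∈ dc v', e z = 0
  uv : ∀ z ∈ uc v, e z = 0
  uv' : ∀ z ∈ uc v', e z = 0
  dy : ∀ z ∈ dc y, e z = 0
  dp : ∀ z ∈ dc p, e z = 0
  uw : ∀ z ∈ uc w, e z = 0
  uu : ∀ z ∈ uc u, e z = 0

/-- a lower pendant block -/
def LoP (y p w u v v' : P) (e : P → ℕ) : Prop := e y = 1 ∧ e p = 1 ∧ Zr y p w u v v' (rm y p e)

/-- an upper pendant block -/
def UpP (y p w u v v' : P) (e : P → ℕ) : Prop := e w = 1 ∧ e u = 1 ∧ Zr y p w u v v' (rm w u e)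

/-- the flip -/
def fl (y p w u : P) (e : P → ℕ) : P → ℕ := fun z => e (Equiv.swap y w (Equiv.swap p u z))

section pos

variable (H : Gr P r) (F : FlS i y p w u v v')
include H F

lemma FlS.lv : lev v = i ∧ lev v' = i ∧ lev p = i + 2 ∧ lev u + 2 = i := by
  have h1 := lev_uc H (show v ∈ uc y by rw [F.uy]; simp)
  have h2 := lev_uc H (show v' ∈ uc y by rw [F.uy]; simp)
  have h3 := lev_uc H (show y ∈ uc p by rw [F.up]; simp)
  have h4 := lev_dc H (show w ∈ dc u by rw [F.du]; simp)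
  have := F.ly
  have := F.lw
  omega

lemma FlS.nes : y ≠ w ∧ y ≠ p ∧ y ≠ u ∧ w ≠ p ∧ w ≠ u ∧ p ≠ u := by
  have h := F.lv H
  have := F.ly
  have := F.lw
  refine ⟨?_, ?_, ?_, ?_, ?_, ?_⟩ <;> (rintro rfl; omega)

lemma FlS.fl_y : fl y p w u e y = e w := by
  obtain ⟨h1, h2, h3, h4, h5, h6⟩ := F.nes H
  unfold fl
  rw [Equiv.swap_apply_of_ne_of_ne h2 h3, Equiv.swap_apply_left]

lemma FlS.fl_w : fl y p w u e w = e y := by
  obtain ⟨h1, h2, h3, h4, h5, h6⟩ := F.nes H
  unfold fl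
  rw [Equiv.swap_apply_of_ne_of_ne h4 h5, Equiv.swap_apply_right]

lemma FlS.fl_p : fl y p w u e p = e u := by
  obtain ⟨h1, h2, h3, h4, h5, h6⟩ := F.nes H
  unfold fl
  rw [Equiv.swap_apply_left, Equiv.swap_apply_of_ne_of_ne h3.symm h5.symm]

lemma FlS.fl_u : fl y p w u e u = e p := by
  obtain ⟨h1, h2, h3, h4, h5, h6⟩ := F.nes H
  unfold fl
  rw [Equiv.swap_apply_right, Equiv.swap_apply_of_ne_of_ne h2.symm h4.symm]

omit H F in
lemma fl_of (h1 : z ≠ y) (h2 : z ≠ p) (h3 : z ≠ w) (h4 : z ≠ u) : fl y p w u e z = e z := by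
  unfold fl
  rw [Equiv.swap_apply_of_ne_of_ne h2 h4, Equiv.swap_apply_of_ne_of_ne h1 h3]

lemma FlS.fl_fl : fl y p w u (fl y p w u e) = e := by
  funext z
  by_cases h1 : z = y
  · rw [h1, F.fl_y H, F.fl_w H]
  by_cases h2 : z = p
  · rw [h2, F.fl_p H, F.fl_u H]
  by_cases h3 : z = w
  · rw [h3, F.fl_w H, F.fl_y H]
  by_cases h4 : z = u
  · rw [h4, F.fl_u H, F.fl_p H]
  rw [fl_of h1 h2 h3 h4, fl_of h1 h2 h3 h4]

/-- the places of the four elements -/
lemma FlS.mems : w ∈ uc v ∧ u ∈ uc w ∧ y ∈ dc v ∧ p ∈ dc y := by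
  refine ⟨?_, ?_, ?_, ?_⟩
  · rw [mem_uc, ← mem_dc, F.dw]; simp
  · rw [mem_uc, ← mem_dc, F.du]; simp
  · rw [mem_dc, ← mem_uc, F.uy]; simp
  · rw [mem_dc, ← mem_uc, F.up]; simp

lemma FlS.rm_lo (h : LoP y p w u v v' e) : rm w u (fl y p w u e) = rm y p e := by
  obtain ⟨h1, h2, h3, h4, h5, h6⟩ := F.nes H
  obtain ⟨m1, m2, m3, m4⟩ := F.mems H
  obtain ⟨e1, e2, Z⟩ := h
  funext z
  by_cases g1 : z = y
  · rw [g1, rm_y, rm_of h1 h3, F.fl_y H]
    have := Z.uv w m1
    rwa [rm_of h1.symm h4] at this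
  by_cases g2 : z = p
  · rw [g2, rm_p, rm_of h4.symm h6, F.fl_p H]
    have := Z.uw u m2
    rwa [rm_of h3.symm h6.symm] at this
  by_cases g3 : z = w
  · rw [g3, rm_y, rm_of h1.symm h4]
    have := Z.uv w m1
    rw [rm_of h1.symm h4] at this
    exact this.symm
  by_cases g4 : z = u
  · rw [g4, rm_p, rm_of h3.symm h6.symm]
    have := Z.uw u m2
    rw [rm_of h3.symm h6.symm] at this
    exact this.symm
  rw [rm_of g3 g4, rm_of g1 g2, fl_of g1 g2 g3 g4]

lemma FlS.rm_up (h : UpP y p w u v v' e) : rm y p (fl y p w u e) = rm w u e := by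
  obtain ⟨h1, h2, h3, h4, h5, h6⟩ := F.nes H
  obtain ⟨m1, m2, m3, m4⟩ := F.mems H
  obtain ⟨e1, e2, Z⟩ := h
  funext z
  by_cases g3 : z = w
  · rw [g3, rm_y, rm_of h1.symm h4, F.fl_w H]
    have := Z.dv y m3
    rwa [rm_of h1 h3] at this
  by_cases g4 : z = u
  · rw [g4, rm_p, rm_of h3.symm h6.symm, F.fl_u H]
    have := Z.dy p m4
    rwa [rm_of h4.symm h6] at this
  by_cases g1 : z = y
  · rw [g1, rm_y, rm_of h1 h3]
    have := Z.dv y m3
    rw [rm_of h1 h3] at this
    exact this.symm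
  by_cases g2 : z = p
  · rw [g2, rm_p, rm_of h4.symm h6]
    have := Z.dy p m4
    rw [rm_of h4.symm h6] at this
    exact this.symm
  rw [rm_of g3 g4, rm_of g1 g2, fl_of g1 g2 g3 g4]

lemma FlS.lo_up (h : LoP y p w u v v' e) : UpP y p w u v v' (fl y p w u e) := by
  refine ⟨by rw [F.fl_w H]; exact h.1, by rw [F.fl_u H]; exact h.2.1, ?_⟩
  rw [F.rm_lo H h]
  exact h.2.2

lemma FlS.up_lo (h : UpP y p w u v v' e) : LoP y p w u v v' (fl y p w u e) := by
  refine ⟨by rw [F.fl_y H]; exact h.1, by rw [F.fl_p H]; exact h.2.1, ?_⟩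
  rw [F.rm_up H h]
  exact h.2.2

/-- the lower block -/
lemma FlS.blL (h : LoP y p w u v v' e) : PBk dc uc (laL i) y p v v' e := by
  obtain ⟨h1, h2, h3, h4, h5, h6⟩ := F.nes H
  obtain ⟨k1, k2, k3, k4⟩ := F.lv H
  have hly := F.ly
  obtain ⟨e1, e2, Z⟩ := h
  have lu := F.lw
  have q : ∀ z, z ≠ y → z ≠ p → rm y p e z = 0 → e z = 0 := by
    intro z g1 g2 g3
    rwa [rm_of g1 g2] at g3
  refine ⟨by unfold laL; omega, F.uy, F.ne, F.up, e1, e2, q v ?_ ?_ Z.v0, q v' ?_ ?_ Z.v0',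
    fun z hz hn => q z hn ?_ (Z.dv z hz), fun z hz hn => q z hn ?_ (Z.dv' z hz),
    fun z hz hn => q z ?_ hn (Z.dy z hz), fun z hz => q z ?_ ?_ (Z.dp z hz)⟩
  · rintro rfl; omega
  · rintro rfl; omega
  · rintro rfl; omega
  · rintro rfl; omega
  · rintro rfl
    have := lev_dc H hz
    omega
  · rintro rfl
    have := lev_dc H hz
    omega
  · rintro rfl
    have := lev_dc H hz
    omega
  · rintro rfl
    have := lev_dc H hz
    omega
  · rintro rfl
    have := lev_dc H hz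
    omega

/-- the upper block -/
lemma FlS.blU (h : UpP y p w u v v' e) : PBk uc dc (laU i) w u v v' e := by
  obtain ⟨h1, h2, h3, h4, h5, h6⟩ := F.nes H
  obtain ⟨k1, k2, k3, k4⟩ := F.lv H
  have hly := F.lw
  obtain ⟨e1, e2, Z⟩ := h
  have q : ∀ z, z ≠ w → z ≠ u → rm w u e z = 0 → e z = 0 := by
    intro z g1 g2 g3
    rwa [rm_of g1 g2] at g3
  refine ⟨by unfold laU; omega, F.dw, F.ne, F.du, e1, e2, q v ?_ ?_ Z.v0, q v' ?_ ?_ Z.v0',
    fun z hz hn => q z hn ?_ (Z.uv z hz), fun z hz hn => q z hn ?_ (Z.uv' z hz),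
    fun z hz hn => q z ?_ hn (Z.uw z hz), fun z hz => q z ?_ ?_ (Z.uu z hz)⟩
  · rintro rfl; omega
  · rintro rfl; omega
  · rintro rfl; omega
  · rintro rfl; omega
  · rintro rfl
    have := lev_uc H hz
    omega
  · rintro rfl
    have := lev_uc H hz
    omega
  · rintro rfl
    have := lev_uc H hz
    omega
  · rintro rfl
    have := lev_uc H hz
    omega
  · rintro rfl
    have := lev_uc H hz
    omega

end pos

section one

variable (H : Gr P r)
include H

/-- the counts of a lower block -/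
lemma low_blk (B : PBk dc uc (laL i) y p v v' e) :
    aL i e = aL i (rm y p e) ∧ pL i e = pL i (rm y p e) + 1 ∧
      (AL i e).card = (AL i (rm y p e)).card + 2 ∧ aU i e = aU i (rm y p e) ∧
      pU i e = pU i (rm y p e) ∧ AU i e = AU i (rm y p e) ∧
      (AdmL i e ↔ AdmL i (rm y p e)) ∧ (AdmU i e ↔ AdmU i (rm y p e)) := by
  classical
  have S := sideL H i
  refine ⟨?_, ?_, ?_, ?_, ?_, ?_, ?_, ?_⟩
  · rw [aL_NB, aL_NB, B.NB S]
  · rw [pL_NP, pL_NP, B.NP S]
  · rw [AL_NA, AL_NA, B.NA S]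
  · unfold aU
    congr 1
    ext z
    simp only [mem_filter, mem_univ, true_and]
    refine and_congr_right fun hv => ?_
    rw [FU_bg, FU_bg]
    exact (B.bgu_of S (by unfold laL; omega)).symm
  · unfold pU
    congr 1
    ext z
    simp only [mem_filter, mem_univ, true_and]
    refine and_congr_right fun hv => ?_
    rw [FU_bg, FU_bg, GD_ge, GD_ge, B.bgu_of S (by unfold laL; omega),
      B.geu_of S (by unfold laL; omega)]
  · ext v
    rw [NormD_mem_AU, NormD_mem_AU]
    refine and_congr_right fun hv => ?_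
    rw [FU_bg, FU_bg]
    exact (B.bgu_of S (by unfold laL; omega)).symm
  · rw [AdmL_ads, AdmL_ads, B.ads S]
  · unfold AdmU
    refine forall_congr' fun z => forall_congr' fun hz => ?_
    rw [FU_bg, FU_bg, GD_ge, GD_ge, B.bgu_of S (by unfold laL; omega),
      B.geu_of S (by unfold laL; omega)]

/-- the forced sites of a lower block -/
lemma low_blk_AL (B : PBk dc uc (laL i) y p v v' e) :
    AL i e = insert v (insert v' (AL i (rm y p e))) := by
  classical
  have S := sideL H i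
  have h := B.lv S
  unfold laL at h
  ext z
  rw [mem_insert, mem_insert, NormD_mem_AL, NormD_mem_AL, FD_bg, FD_bg]
  by_cases hv : z = v
  · subst hv
    simp only [true_or, iff_true]
    exact ⟨by omega, (B.bg_v S).1⟩
  by_cases hv' : z = v'
  · subst hv'
    simp only [true_or, or_true, iff_true]
    exact ⟨by omega, ((B.symm S).bg_v S).1⟩
  simp only [hv, hv', false_or]
  refine and_congr_right fun hz => ?_
  rw [B.bg_of S (by unfold laL; omega) hv hv']

/-- the counts of an upper block -/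
lemma upp_blk (B : PBk uc dc (laU i) w u v v' e) :
    aU i e = aU i (rm w u e) ∧ pU i e = pU i (rm w u e) + 1 ∧
      (AU i e).card = (AU i (rm w u e)).card + 2 ∧ aL i e = aL i (rm w u e) ∧
      pL i e = pL i (rm w u e) ∧ AL i e = AL i (rm w u e) ∧
      (AdmU i e ↔ AdmU i (rm w u e)) ∧ (AdmL i e ↔ AdmL i (rm w u e)) := by
  classical
  have S := sideU H i
  refine ⟨?_, ?_, ?_, ?_, ?_, ?_, ?_, ?_⟩
  · rw [aU_NB, aU_NB, B.NB S]
  · rw [pU_NP, pU_NP, B.NP S]
  · rw [AU_NA, AU_NA, B.NA S]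
  · unfold aL
    congr 1
    ext z
    simp only [mem_filter, mem_univ, true_and]
    refine and_congr_right fun hv => ?_
    rw [FD_bg, FD_bg]
    exact (B.bgu_of S (by unfold laU; omega)).symm
  · unfold pL
    congr 1
    ext z
    simp only [mem_filter, mem_univ, true_and]
    refine and_congr_right fun hv => ?_
    rw [FD_bg, FD_bg, GU_ge, GU_ge, B.bgu_of S (by unfold laU; omega),
      B.geu_of S (by unfold laU; omega)]
  · ext v
    rw [NormD_mem_AL, NormD_mem_AL]
    refine and_congr_right fun hv => ?_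
    rw [FD_bg, FD_bg]
    exact (B.bgu_of S (by unfold laU; omega)).symm
  · rw [AdmU_ads, AdmU_ads, B.ads S]
  · unfold AdmL
    refine forall_congr' fun z => forall_congr' fun hz => ?_
    rw [FD_bg, FD_bg, GU_ge, GU_ge, B.bgu_of S (by unfold laU; omega),
      B.geu_of S (by unfold laU; omega)]

/-- the forced sites of an upper block -/
lemma upp_blk_AU (B : PBk uc dc (laU i) w u v v' e) :
    AU i e = insert v (insert v' (AU i (rm w u e))) := by
  classical
  have S := sideU H i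
  have h := B.lv S
  unfold laU at h
  ext z
  rw [mem_insert, mem_insert, NormD_mem_AU, NormD_mem_AU, FU_bg, FU_bg]
  by_cases hv : z = v
  · subst hv
    simp only [true_or, iff_true]
    exact ⟨by omega, (B.bg_v S).1⟩
  by_cases hv' : z = v'
  · subst hv'
    simp only [true_or, or_true, iff_true]
    exact ⟨by omega, ((B.symm S).bg_v S).1⟩
  simp only [hv, hv', false_or]
  refine and_congr_right fun hz => ?_
  rw [B.bg_of S (by unfold laU; omega) hv hv']

end one

end Pool.Agent.GaussPoset.Win.Xg
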