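import Pool.Agent.W_448xc_h84.XgF

/-!
# The general exchange (MP_448cb3_co): the unit of the flip
-/

namespace Pool.Agent.GaussPoset.Win.Xg

set_option linter.unusedSectionVars false

open Finset Kd W4

universe u

variable {P : Type u} [Fintype P] [PartialOrder P] [DecidableEq P] {r i : ℕ}
variable {y p w u v v' z d x : P} {e f : P → ℕ} {psi : P → P} {C : Finset P}

lemma prop_aux {a b A B D : Prop} (hD : D) :
    (¬ (b ∨ A) ∧ ¬ (D ∧ (a ∨ B))) ↔ (¬ (a ∨ A) ∧ ¬ (D ∧ (b ∨ B))) := by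
  tauto

lemma prop_aux' {a b A B D a' b' : Prop} (hD : ¬ D) (ha : ¬ a) (hb : ¬ b) :
    (¬ (b ∨ A) ∧ ¬ (D ∧ (a' ∨ B))) ↔ (¬ (a ∨ A) ∧ ¬ (D ∧ (b' ∨ B))) := by
  tauto

section pos

variable (H : Gr P r) (F : FlS i y p w u v v')
include H F

omit H F in
lemma Zr.nA (Z : Zr y p w u v v' e) :
    v ∉ AU i e ∧ v' ∉ AU i e ∧ v ∉ AL i e ∧ v' ∉ AL i e := by
  refine ⟨?_, ?_, ?_, ?_⟩
  · rw [NormD_mem_AU, FU_bg]
    rintro ⟨-, z, hz, hlt⟩
    rw [Z.uv z hz] at hlt
    omega
  · rw [NormD_mem_AU, FU_bg]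
    rintro ⟨-, z, hz, hlt⟩
    rw [Z.uv' z hz] at hlt
    omega
  · rw [NormD_mem_AL, FD_bg]
    rintro ⟨-, z, hz, hlt⟩
    rw [Z.dv z hz] at hlt
    omega
  · rw [NormD_mem_AL, FD_bg]
    rintro ⟨-, z, hz, hlt⟩
    rw [Z.dv' z hz] at hlt
    omega

lemma FlS.adm_lo (h : LoP y p w u v v' e) : Adm i e ↔ Adm i (rm y p e) := by
  have B := F.blL H h
  obtain ⟨a1, a2, a3, a4, a5, a6, a7, a8⟩ := low_blk H B
  have a9 := low_blk_AL H B
  obtain ⟨n1, n2, n3, n4⟩ := h.2.2.nA (i := i)
  have hd : Disjoint (AL i e) (AU i e) ↔ Disjoint (AL i (rm y p e)) (AU i (rm y p e)) := by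
    rw [a9, a6, disjoint_insert_left, disjoint_insert_left]
    tauto
  constructor
  · intro g
    exact ⟨a7.1 g.l, a8.1 g.u, hd.1 g.d⟩
  · intro g
    exact ⟨a7.2 g.l, a8.2 g.u, hd.2 g.d⟩

lemma FlS.adm_up (h : UpP y p w u v v' e) : Adm i e ↔ Adm i (rm w u e) := by
  have B := F.blU H h
  obtain ⟨a1, a2, a3, a4, a5, a6, a7, a8⟩ := upp_blk H B
  have a9 := upp_blk_AU H B
  obtain ⟨n1, n2, n3, n4⟩ := h.2.2.nA (i := i)
  have hd : Disjoint (AL i e) (AU i e) ↔ Disjoint (AL i (rm w u e)) (AU i (rm w u e)) := by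
    rw [a9, a6, disjoint_insert_right, disjoint_insert_right]
    tauto
  constructor
  · intro g
    exact ⟨a8.1 g.l, a7.1 g.u, hd.1 g.d⟩
  · intro g
    exact ⟨a8.2 g.l, a7.2 g.u, hd.2 g.d⟩

lemma FlS.kp_lo (h : LoP y p w u v v' e) : kp i e = kp i (rm y p e) + 1 := by
  obtain ⟨a1, a2, a3, a4, a5, a6, a7, a8⟩ := low_blk H (F.blL H h)
  unfold kp
  rw [a6, a3, a2, a5]
  push_cast
  ring

lemma FlS.kp_up (h : UpP y p w u v v' e) : kp i e = kp i (rm w u e) + 1 := by
  obtain ⟨a1, a2, a3, a4, a5, a6, a7, a8⟩ := upp_blk H (F.blU H h)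
  unfold kp
  rw [a6, a3, a2, a5]
  push_cast
  ring

/-- the block is there, on one of the two sides -/
def FP (y p w u v v' : P) (e : P → ℕ) : Prop := LoP y p w u v v' e ∨ UpP y p w u v v' e

lemma FlS.fp_fl (h : FP y p w u v v' e) : FP y p w u v v' (fl y p w u e) := by
  rcases h with h | h
  · exact Or.inr (F.lo_up H h)
  · exact Or.inl (F.up_lo H h)

lemma FlS.adm_fl (h : FP y p w u v v' e) (ha : Adm i e) : Adm i (fl y p w u e) := by
  rcases h with h | h
  · rw [F.adm_up H (F.lo_up H h), F.rm_lo H h, ← F.adm_lo H h]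
    exact ha
  · rw [F.adm_lo H (F.up_lo H h), F.rm_up H h, ← F.adm_up H h]
    exact ha

lemma FlS.kp_fl (h : FP y p w u v v' e) : kp i (fl y p w u e) = kp i e := by
  rcases h with h | h
  · rw [F.kp_up H (F.lo_up H h), F.rm_lo H h, ← F.kp_lo H h]
  · rw [F.kp_lo H (F.up_lo H h), F.rm_up H h, ← F.kp_up H h]

/-- the term of a lower block -/
lemma FlS.tC_lo (h : LoP y p w u v v' e) (ha : Adm i e) (hC : Part i C) (he : Spt C e) :
    ∃ D : A, tC i C e = xx ^ 2 * D ∧
      tC i C (fl y p w u e) = xi * D ∨ ¬ Spt C (fl y p w u e) := by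
  classical
  by_cases hf : Spt C (fl y p w u e)
  swap
  · exact ⟨0, Or.inr hf⟩
  have h' := F.lo_up H h
  obtain ⟨a1, a2, a3, a4, a5, a6, a7, a8⟩ := low_blk H (F.blL H h)
  obtain ⟨b1, b2, b3, b4, b5, b6, b7, b8⟩ := upp_blk H (F.blU H h')
  rw [F.rm_lo H h] at b1 b2 b3 b4 b5 b6 b7 b8
  have ha' := F.adm_fl H (Or.inl h) ha
  have hle : (AL i e).card + (AU i e).card ≤ (st i C).card := by
    rw [← card_union_of_disjoint ha.d]
    exact card_le_card (union_subset (AL_sub hC he) (AU_sub H hC he))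
  set g := rm y p e with hg
  refine ⟨xx ^ (aL i g + (AL i g).card) * xi ^ (aU i g + pU i g) *
    dd ^ (pL i g + pU i g + 1 + ((st i C).card - (AL i g).card - (AU i g).card - 2)),
    Or.inl ⟨?_, ?_⟩⟩
  · unfold tC Win.cw
    rw [if_pos ha.d, if_pos ⟨ha.l, ha.u⟩, a1, a2, a3, a4, a5, a6,
      show (st i C).card - ((AL i g).card + 2) - (AU i g).card =
        (st i C).card - (AL i g).card - (AU i g).card - 2 by omega]
    ring
  · unfold tC Win.cw
    rw [if_pos ha'.d, if_pos ⟨ha'.l, ha'.u⟩, b1, b2, b3, b4, b5, b6,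
      show (st i C).card - (AL i g).card - ((AU i g).card + 2) =
        (st i C).card - (AL i g).card - (AU i g).card - 2 by omega]
    ring

/-- THE FLIP of a lower block -/
theorem FlS.unit_lo (h : LoP y p w u v v' e) (ha : Adm i e) (hC : Part i C) (he : Spt C e)
    (hf : Spt C (fl y p w u e)) : tC i C (fl y p w u e) = xi ^ 3 * tC i C e := by
  obtain ⟨D, h1⟩ := F.tC_lo H h ha hC he
  rcases h1 with ⟨h1, h2⟩ | h1
  · rw [h1, h2]
    have e1 : xi ^ 2 * xx ^ 2 = (1 : A) := by rw [← mul_pow, mul_comm xi xx, xx_mul_xi, one_pow]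
    calc xi * D = xi * (xi ^ 2 * xx ^ 2) * D := by rw [e1, mul_one]
      _ = xi ^ 3 * (xx ^ 2 * D) := by ring
  · exact absurd hf h1

/-- THE FLIP of an upper block -/
theorem FlS.unit_up (h : UpP y p w u v v' e) (ha : Adm i e) (hC : Part i C) (he : Spt C e)
    (hf : Spt C (fl y p w u e)) : tC i C (fl y p w u e) = xx ^ 3 * tC i C e := by
  have h1 := F.unit_lo H (F.up_lo H h) (F.adm_fl H (Or.inr h) ha) hC hf
    (by rw [F.fl_fl H]; exact he)
  rw [F.fl_fl H] at h1
  have e1 : xx ^ 3 * xi ^ 3 = (1 : A) := by rw [← mul_pow, xx_mul_xi, one_pow]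
  rw [h1]
  calc tC i C (fl y p w u e) = (xx ^ 3 * xi ^ 3) * tC i C (fl y p w u e) := by rw [e1, one_mul]
    _ = xx ^ 3 * (xi ^ 3 * tC i C (fl y p w u e)) := by ring

/-- the touched elements of a lower block -/
lemma FlS.tch (h : LoP y p w u v v' e) (x : P) :
    (x ∈ Tch i e ↔ x = y ∨ x ∈ Tch i (rm y p e)) ∧
      (x ∈ Tch i (fl y p w u e) ↔ x = w ∨ x ∈ Tch i (rm y p e)) := by
  obtain ⟨h1, h2, h3, h4, h5, h6⟩ := F.nes H
  obtain ⟨k1, k2, k3, k4⟩ := F.lv H
  obtain ⟨m1, m2, m3, m4⟩ := F.mems H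
  have ly := F.ly
  have lw := F.lw
  have hrw : rm y p e w = 0 := h.2.2.uv w m1
  have hru : rm y p e u = 0 := h.2.2.uw u m2
  rw [mem_Tch, mem_Tch, mem_Tch]
  -- values of the three labellings
  have ev : ∀ z, z ≠ y → z ≠ p → rm y p e z = e z := fun z g1 g2 => rm_of g1 g2
  have fv : ∀ z, z ≠ w → z ≠ u → fl y p w u e z = rm y p e z := by
    intro z g1 g2
    have := congrFun (F.rm_lo H h) z
    rwa [rm_of g1 g2] at this
  constructor
  · constructor
    · rintro (⟨g1, z, g2, g3⟩ | ⟨g1, z, g2, g3⟩)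
      · by_cases hz : z = p
        · subst hz
          left
          have := mem_uc.2 g2
          rw [F.up, mem_singleton] at this
          exact this
        · right; left
          refine ⟨g1, z, g2, ?_⟩
          have := lev_dc H (mem_dc.2 g2)
          rw [ev z (by rintro rfl; omega) hz]
          exact g3
      · right; right
        refine ⟨g1, z, g2, ?_⟩
        have := lev_uc H (mem_uc.2 g2)
        rw [ev z (by rintro rfl; omega) (by rintro rfl; omega)]
        exact g3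
    · rintro (g | ⟨g1, z, g2, g3⟩ | ⟨g1, z, g2, g3⟩)
      · subst g
        left
        refine ⟨ly, p, mem_dc.1 m4, ?_⟩
        rw [h.2.1]
        omega
      · left
        exact ⟨g1, z, g2, lt_of_lt_of_le g3 rm_le⟩
      · right
        exact ⟨g1, z, g2, lt_of_lt_of_le g3 rm_le⟩
  · constructor
    · rintro (⟨g1, z, g2, g3⟩ | ⟨g1, z, g2, g3⟩)
      · right; left
        refine ⟨g1, z, g2, ?_⟩
        have := lev_dc H (mem_dc.2 g2)
        rw [fv z (by rintro rfl; omega) (by rintro rfl; omega)] at g3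
        exact g3
      · by_cases hz : z = u
        · subst hz
          left
          have := mem_dc.2 g2
          rw [F.du, mem_singleton] at this
          exact this
        · right; right
          refine ⟨g1, z, g2, ?_⟩
          have := lev_uc H (mem_uc.2 g2)
          rw [fv z (by rintro rfl; omega) hz] at g3
          exact g3
    · rintro (g | ⟨g1, z, g2, g3⟩ | ⟨g1, z, g2, g3⟩)
      · subst g
        right
        refine ⟨lw, u, mem_uc.1 m2, ?_⟩
        rw [F.fl_u H, h.2.1]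
        omega
      · left
        refine ⟨g1, z, g2, ?_⟩
        have := lev_dc H (mem_dc.2 g2)
        rw [fv z (by rintro rfl; omega) (by rintro rfl; omega)]
        exact g3
      · right
        refine ⟨g1, z, g2, ?_⟩
        by_cases hz : z = u
        · subst hz
          rw [hru] at g3
          omega
        · have := lev_uc H (mem_uc.2 g2)
          rw [fv z (by rintro rfl; omega) hz]
          exact g3

end pos

section core

variable (H : Gr P r) (F : FlS i y p w u v v') (hM : Mat P i ∅ psi) (hy : psi y = w)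
include H F hM hy

lemma FlS.dbs : y ∈ dbL P i ∧ w ∈ dbU P i := by
  have ly := F.ly
  have lw := F.lw
  exact ⟨mem_dbL.2 ⟨ly, by rw [F.uy]; exact card_pair F.ne⟩,
    mem_dbU.2 ⟨lw, by rw [F.dw]; exact card_pair F.ne⟩⟩

lemma FlS.psi_w : psi w = y := by
  have h := (hM.invol y (mem_union_left _ (F.dbs H hM hy).1) (notMem_empty _)).1
  rw [hy] at h
  exact h

lemma FlS.rst_lo (h : LoP y p w u v v' e) : Rst i ∅ psi (fl y p w u e) = Rst i ∅ psi e := by
  obtain ⟨d1, d2⟩ := F.dbs H hM hy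
  have hw := F.psi_w H hM hy
  have hyw := (F.nes H).1
  ext x
  rw [mem_Rst, mem_Rst]
  refine and_congr_right fun hx => and_congr_right fun _ => ?_
  have a1 := F.tch H h x
  have a2 := F.tch H h (psi x)
  rw [a1.1, a1.2, a2.1, a2.2]
  by_cases hxd : x ∈ dbL P i ∪ dbU P i
  · have hi := (hM.invol x hxd (notMem_empty _)).1
    have c1 : x = y ↔ psi x = w := by
      constructor
      · rintro rfl
        exact hy
      · intro g
        rw [← hi, g, hw]
    have c2 : x = w ↔ psi x = y := by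
      constructor
      · rintro rfl
        exact hw
      · intro g
        rw [← hi, g, hy]
    rw [← c1, ← c2]
    exact prop_aux hxd
  · have c1 : x ≠ y := by
      rintro rfl
      exact hxd (mem_union_left _ d1)
    have c2 : x ≠ w := by
      rintro rfl
      exact hxd (mem_union_right _ d2)
    exact prop_aux' hxd c1 c2

lemma FlS.core_fl (h : FP y p w u v v' e) (hc : IsCore i ∅ psi e) :
    IsCore i ∅ psi (fl y p w u e) := by
  obtain ⟨d1, d2⟩ := F.dbs H hM hy
  have hw := F.psi_w H hM hy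
  obtain ⟨k1, k2, k3, k4⟩ := F.lv H
  have ly := F.ly
  have lw := F.lw
  have key : ∀ {e : P → ℕ}, LoP y p w u v v' e →
      (∀ x ∈ Rst i ∅ psi e, x ≠ y ∧ x ≠ w ∧ x ≠ p ∧ x ≠ u) := by
    intro e h x hx
    obtain ⟨h1, -, h3, h4⟩ := mem_Rst.1 hx
    have hn := mem_near.1 h1
    refine ⟨?_, ?_, ?_, ?_⟩
    · rintro rfl
      exact h3 ((F.tch H h x).1.2 (Or.inl rfl))
    · rintro rfl
      exact h4 ⟨mem_union_right _ d2, by rw [hw]; exact (F.tch H h y).1.2 (Or.inl rfl)⟩
    · rintro rfl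
      omega
    · rintro rfl
      omega
  rcases h with h | h
  · intro x hx
    rw [F.rst_lo H hM hy h] at hx
    obtain ⟨c1, c2, c3, c4⟩ := key h x hx
    rw [fl_of c1 c3 c2 c4]
    exact hc x hx
  · intro x hx
    have h' := F.up_lo H h
    obtain ⟨c1, c2, c3, c4⟩ := key h' x hx
    have h2 := F.rst_lo H hM hy h'
    rw [F.fl_fl H] at h2
    rw [← h2] at hx
    rw [fl_of c1 c3 c2 c4]
    exact hc x hx

end core

end Pool.Agent.GaussPoset.Win.Xg
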