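import Pool.Agent.W_448xc_h84.XgG

/-!
# The general exchange (MP_448cb3_co): exchange and flip together, the frame for a part
-/

namespace Pool.Agent.GaussPoset.Win.Xg

set_option linter.unusedSectionVars false

open Finset Kd W4

universe u

variable {P : Type u} [Fintype P] [PartialOrder P] [DecidableEq P] {r i : ℕ}
variable {y p w u v v' z d x : P} {e f : P → ℕ} {psi : P → P} {C : Finset P}

section stable

variable (H : Gr P r) (F : FlS i y p w u v v')
include H F

omit F in
/-- the near elements over an exchangeable place are positive -/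
lemma CanD.posL {w2 q : P} (T : Tee dc uc (laL i) d w w2 p x q) (E : Exo dc uc d w w2 p x q e)
    (hL : AdmL i e) : 1 ≤ e w ∧ 1 ≤ e w2 := by
  have key : ∀ {w w2 p q : P}, Tee dc uc (laL i) d w w2 p x q → 1 ≤ e w := by
    intro w w2 p q T
    by_contra h
    have l1 := T.lv (sideL H i)
    have l2 := E.pos
    refine (AdmL_ads i e).1 hL w (by omega) ⟨⟨d, T.d_dw (sideL H i), by omega⟩,
      ⟨x, by rw [T.uw]; simp, by omega⟩⟩
  exact ⟨key T, key T.symm⟩

omit F in
lemma CanD.posU {w2 q : P} (T : Tee uc dc (laU i) d w w2 p x q) (E : Exo uc dc d w w2 p x q e)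
    (hU : AdmU i e) : 1 ≤ e w ∧ 1 ≤ e w2 := by
  have key : ∀ {w w2 p q : P}, Tee uc dc (laU i) d w w2 p x q → 1 ≤ e w := by
    intro w w2 p q T
    by_contra h
    have l1 := T.lv (sideU H i)
    have l2 := E.pos
    refine (AdmU_ads i e).1 hU w (by omega) ⟨⟨d, T.d_dw (sideU H i), by omega⟩,
      ⟨x, by rw [T.uw]; simp, by omega⟩⟩
  exact ⟨key T, key T.symm⟩

/-- a labelling which is zero near the two sites keeps this property -/
lemma Zr.xc (Z : Zr y p w u v v' e) (hd : 1 ≤ e d) (hdl : lev d = i + 2 ∨ lev d + 2 = i)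
    (hx : lev x = i) (hxv : x ≠ v) (hxv' : x ≠ v') : Zr y p w u v v' (xc d x e) := by
  obtain ⟨k1, k2, k3, k4⟩ := F.lv H
  have ly := F.ly
  have lw := F.lw
  have q : ∀ z, z ≠ d → z ≠ x → e z = 0 → Kd.xc d x e z = 0 := by
    intro z g1 g2 g3
    rw [xc_of g1 g2]
    exact g3
  have lev0 : ∀ z, e z = 0 → (lev z ≠ i) → Kd.xc d x e z = 0 := by
    intro z g1 g2
    refine q z ?_ ?_ g1
    · rintro rfl
      omega
    · rintro rfl
      exact g2 hx
  refine ⟨q v ?_ hxv.symm Z.v0, q v' ?_ hxv'.symm Z.v0', fun z hz => lev0 z (Z.dv z hz) ?_,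
    fun z hz => lev0 z (Z.dv' z hz) ?_, fun z hz => lev0 z (Z.uv z hz) ?_,
    fun z hz => lev0 z (Z.uv' z hz) ?_, fun z hz => lev0 z (Z.dy z hz) ?_,
    fun z hz => lev0 z (Z.dp z hz) ?_, fun z hz => lev0 z (Z.uw z hz) ?_,
    fun z hz => lev0 z (Z.uu z hz) ?_⟩
  · rintro rfl
    omega
  · rintro rfl
    omega
  all_goals
    first
      | (have := lev_dc H hz; omega)
      | (have := lev_uc H hz; omega)

omit F in
/-- the labelling without the block and an exchange -/
lemma rm_xc {a b : P} (h1 : d ≠ a) (h2 : d ≠ b) (h3 : x ≠ a) (h4 : x ≠ b) :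
    rm a b (xc d x e) = xc d x (rm a b e) := by
  funext z
  by_cases g1 : z = a
  · subst g1
    rw [rm_y, xc_of h1.symm h3.symm, rm_y]
  by_cases g2 : z = b
  · subst g2
    rw [rm_p, xc_of h2.symm h4.symm, rm_p]
  rw [rm_of g1 g2]
  by_cases g3 : z = d
  · subst g3
    rw [xc_d, xc_d, rm_of h3 h4]
  by_cases g4 : z = x
  · subst g4
    have : z ≠ d := g3
    rw [xc_x this, xc_x this, rm_of h1 h2]
  rw [xc_of g3 g4, xc_of g3 g4, rm_of g1 g2]

/-- the exchanges keep the pendant block -/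
lemma FlS.fp_xc (h : FP y p w u v v' e) (hL : AdmL i e) (hU : AdmU i e) (hc : CanD i e d x) :
    FP y p w u v v' (xc d x e) := by
  obtain ⟨k1, k2, k3, k4⟩ := F.lv H
  have ly := F.ly
  have lw := F.lw
  obtain ⟨h1, h2, h3, h4, h5, h6⟩ := F.nes H
  have hv := hc.lvl H
  -- `x` is not one of the two sites, `d` is not one of the four elements
  have main : ∀ g : P → ℕ, ∀ a b : P, (∀ z, z ≠ a → z ≠ b → g z = e z) →
      (lev a = i + 1 ∧ lev b = i + 2 ∧ uc b = {a} ∨ lev a + 1 = i ∧ lev b + 2 = i ∧ dc b = {a}) →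
      Zr y p w u v v' g → x ≠ v ∧ x ≠ v' ∧ d ≠ a ∧ d ≠ b ∧ x ≠ a ∧ x ≠ b := by
    intro g a b hg hab Z
    have hxab : x ≠ a ∧ x ≠ b := by
      constructor <;> (rintro rfl; omega)
    have hda : d ≠ a := by rintro rfl; omega
    have hdb : d ≠ b := by
      rintro rfl
      rcases hc with ⟨w1, w2, p1, q1, T, E, hr⟩ | ⟨w1, w2, p1, q1, T, E, hr⟩
      · have l1 := T.ld
        unfold laL at l1
        rcases hab with ⟨a1, a2, a3⟩ | ⟨a1, a2, a3⟩
        · have := T.ud
          rw [a3] at this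
          have m1 : w1 ∈ ({a} : Finset P) := by rw [this]; simp
          have m2 : w2 ∈ ({a} : Finset P) := by rw [this]; simp
          rw [mem_singleton] at m1 m2
          exact T.ne (m1.trans m2.symm)
        · omega
      · have l1 := T.ld
        unfold laU at l1
        rcases hab with ⟨a1, a2, a3⟩ | ⟨a1, a2, a3⟩
        · omega
        · have := T.ud
          rw [a3] at this
          have m1 : w1 ∈ ({a} : Finset P) := by rw [this]; simp
          have m2 : w2 ∈ ({a} : Finset P) := by rw [this]; simp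
          rw [mem_singleton] at m1 m2
          exact T.ne (m1.trans m2.symm)
    have hxs : ∀ s, (∀ z ∈ dc s, g z = 0) → (∀ z ∈ uc s, g z = 0) → x ≠ s := by
      rintro s z1 z2 rfl
      rcases hc with ⟨w1, w2, p1, q1, T, E, hr⟩ | ⟨w1, w2, p1, q1, T, E, hr⟩
      · obtain ⟨e1, e2⟩ := CanD.posL H T E hL
        have l1 := T.lv (sideL H i)
        unfold laL at l1
        have key : ∀ c, c ∈ dc x → 1 ≤ e c → lev c = i + 1 → c = a := by
          intro c hcd hc1 hlc
          by_contra hca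
          have hcb : c ≠ b := by rintro rfl; omega
          have := z1 c hcd
          rw [hg c hca hcb] at this
          omega
        have q1' := key w1 (by rw [T.dx]; simp) e1 (by omega)
        have q2' := key w2 (by rw [T.dx]; simp) e2 (by omega)
        exact T.ne (q1'.trans q2'.symm)
      · obtain ⟨e1, e2⟩ := CanD.posU H T E hU
        have l1 := T.lv (sideU H i)
        unfold laU at l1
        have key : ∀ c, c ∈ uc x → 1 ≤ e c → lev c + 1 = i → c = a := by
          intro c hcd hc1 hlc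
          by_contra hca
          have hcb : c ≠ b := by rintro rfl; omega
          have := z2 c hcd
          rw [hg c hca hcb] at this
          omega
        have q1' := key w1 (by rw [T.dx]; simp) e1 (by omega)
        have q2' := key w2 (by rw [T.dx]; simp) e2 (by omega)
        exact T.ne (q1'.trans q2'.symm)
    exact ⟨hxs v Z.dv Z.uv, hxs v' Z.dv' Z.uv', hda, hdb, hxab.1, hxab.2⟩
  rcases h with ⟨a1, a2, Z⟩ | ⟨a1, a2, Z⟩
  · obtain ⟨b1, b2, b3, b4, b5, b6⟩ := main (rm y p e) y p (fun z g1 g2 => rm_of g1 g2)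
      (Or.inl ⟨ly, k3, F.up⟩) Z
    left
    refine ⟨by rw [xc_of b3.symm b5.symm]; exact a1, by rw [xc_of b4.symm b6.symm]; exact a2, ?_⟩
    rw [rm_xc H b3 b4 b5 b6]
    exact Z.xc H F (by rw [rm_of b3 b4]; exact hv.2.2) hv.1 hv.2.1 b1 b2
  · obtain ⟨b1, b2, b3, b4, b5, b6⟩ := main (rm w u e) w u (fun z g1 g2 => rm_of g1 g2)
      (Or.inr ⟨lw, k4, F.du⟩) Z
    right
    refine ⟨by rw [xc_of b3.symm b5.symm]; exact a1, by rw [xc_of b4.symm b6.symm]; exact a2, ?_⟩
    rw [rm_xc H b3 b4 b5 b6]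
    exact Z.xc H F (by rw [rm_of b3 b4]; exact hv.2.2) hv.1 hv.2.1 b1 b2

end stable

end Pool.Agent.GaussPoset.Win.Xg
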