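import Pool.Agent.W_448xc_h84.XgH

/-!
# The general exchange (MP_448cb3_co): the flip of a matched pendant with the free near elements
-/

namespace Pool.Agent.GaussPoset.Win.Xg

set_option linter.unusedSectionVars false

open Finset Kd W4

universe u

variable {P : Type u} [Fintype P] [PartialOrder P] [DecidableEq P] {r i : ℕ}
variable {y p w u v v' z d x : P} {e f : P → ℕ} {psi : P → P} {C : Finset P}

section jk

variable (H : Gr P r) (F : FlS i y p w u v v')
include H F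

/-- the two functions of a flip pair -/
lemma FlS.fe_lo (h : LoP y p w u v v' e) (ha : Adm i e) (S : Finset P) :
    Fe i e S + Fe i (fl y p w u e) S = Fe i (rm y p e) S *
      (dd * (if v ∈ S ∧ v' ∈ S then 1 else 0) +
        xi * dd * (if v ∉ S ∧ v' ∉ S then 1 else 0)) := by
  classical
  have h' := F.lo_up H h
  obtain ⟨a1, a2, a3, a4, a5, a6, a7, a8⟩ := low_blk H (F.blL H h)
  have a9 := low_blk_AL H (F.blL H h)
  obtain ⟨b1, b2, b3, b4, b5, b6, b7, b8⟩ := upp_blk H (F.blU H h')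
  have b9 := upp_blk_AU H (F.blU H h')
  rw [F.rm_lo H h] at b1 b2 b3 b4 b5 b6 b7 b8 b9
  have ha' := F.adm_fl H (Or.inl h) ha
  have hg := (F.adm_lo H h).1 ha
  set g := rm y p e with hgd
  have e1 : (chi (AL i e) (AU i e) S : A) =
      chi (AL i g) (AU i g) S * (if v ∈ S ∧ v' ∈ S then 1 else 0) := by
    rw [a9, a6]
    unfold chi
    by_cases c1 : v ∈ S <;> by_cases c2 : v' ∈ S <;> by_cases c3 : AL i g ⊆ S <;>
      by_cases c4 : Disjoint (AU i g) S <;> simp [insert_subset_iff, c1, c2, c3, c4]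
  have e2 : (chi (AL i (fl y p w u e)) (AU i (fl y p w u e)) S : A) =
      chi (AL i g) (AU i g) S * (if v ∉ S ∧ v' ∉ S then 1 else 0) := by
    rw [b9, b6]
    unfold chi
    by_cases c1 : v ∈ S <;> by_cases c2 : v' ∈ S <;> by_cases c3 : AL i g ⊆ S <;>
      by_cases c4 : Disjoint (AU i g) S <;> simp [disjoint_insert_left, c1, c2, c3, c4]
  unfold Fe Win.cw
  rw [if_pos ⟨ha.l, ha.u⟩, if_pos ⟨ha'.l, ha'.u⟩, if_pos ⟨hg.l, hg.u⟩, e1, e2, a1, a2, a4, a5,
    b1, b2, b4, b5]
  ring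

/-- the free near elements do not see the flip -/
lemma FlS.GK_lo (hM : Mat P i ∅ psi) (hy : psi y = w) (h : LoP y p w u v v' e) (m : ℕ)
    (S : Finset P) : GK i ∅ psi C (fl y p w u e) m S = GK i ∅ psi C e m S := by
  classical
  obtain ⟨k1, k2, k3, k4⟩ := F.lv H
  have ly := F.ly
  have lw := F.lw
  have hr : RK i ∅ psi C (fl y p w u e) = RK i ∅ psi C e := by
    unfold RK
    rw [F.rst_lo H hM hy h]
  unfold GK
  rw [hr]
  refine sum_congr rfl fun l _ => prod_congr rfl fun x hx => ?_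
  refine So.wt_congr H (fun z hz => ?_) (RK_near hx) _ _
  exact fl_of (by rintro rfl; omega) (by rintro rfl; omega) (by rintro rfl; omega)
    (by rintro rfl; omega)

omit H F in
lemma IV_add' (V : Finset P) (f g : Finset P → A) :
    So.IV V f + So.IV V g = So.IV V (fun S => f S + g S) := (So.IV_add V f g).symm

variable (hi : 1 ≤ i) (hi2 : i + 1 ≤ r) (hM : Mat P i ∅ psi) (hy : psi y = w)
  (hC : Part (i + 1) C)
include hi hi2 hM hy hC

lemma FlS.jk_lo (h : LoP y p w u v v' e) (ha : Adm i e) (m : ℕ) {k : ℕ}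
    (hk : kp i e = k + 1) :
    dd ^ ((st i C).card - k) ∣ W4.JK i ∅ psi C m e + W4.JK i ∅ psi C m (fl y p w u e) := by
  classical
  obtain ⟨k1, k2, k3, k4⟩ := F.lv H
  have hg := (F.adm_lo H h).1 ha
  have h1 : Rk (GaussPoset.lv P i) k (Fe i (rm y p e)) := by
    refine Rk_of_cheap (hg.cheap.2 ?_)
    have := F.kp_lo H h
    omega
  have h2 := Rk_mul (Rk_mul h1 (FactF_big (mem_lv.2 k1) (mem_lv.2 k2) F.ne))
    (GK_Rk H hi hi2 hM hC e m)
  rw [add_zero, add_zero] at h2
  have h3 := So.Rk_IV (So.Rk_sub (So.st_sub i C) h2)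
  have h4 : W4.JK i ∅ psi C m e + W4.JK i ∅ psi C m (fl y p w u e) =
      So.IV (st i C) (fun S => Fe i (rm y p e) S *
        (dd * (if v ∈ S ∧ v' ∈ S then 1 else 0) +
        xi * dd * (if v ∉ S ∧ v' ∉ S then 1 else 0)) * GK i ∅ psi C e m S) := by
    unfold W4.JK
    rw [IV_add']
    refine So.IV_congr fun S => ?_
    rw [F.GK_lo H hM hy h m S, ← add_mul, F.fe_lo H h ha S]
  rw [h4]
  exact h3

/-- THE FLIP with the free near elements -/
theorem FlS.jk (h : FP y p w u v v' e) (ha : Adm i e) (m : ℕ) {k : ℕ}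
    (hk : kp i e = k + 1) :
    dd ^ ((st i C).card - k) ∣ W4.JK i ∅ psi C m e + W4.JK i ∅ psi C m (fl y p w u e) := by
  rcases h with h | h
  · exact F.jk_lo H hi hi2 hM hy hC h ha m hk
  · have h1 := F.jk_lo H hi hi2 hM hy hC (F.up_lo H h) (F.adm_fl H (Or.inr h) ha) m
      (by rw [F.kp_fl H (Or.inr h)]; exact hk)
    rwa [F.fl_fl H, add_comm] at h1

end jk

end Pool.Agent.GaussPoset.Win.Xg
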