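import Pool.Agent.W_448xc_h84.XgJ

/-!
# The general exchange (MP_448cb3_co): a representative with small labels on the sites
-/

namespace Pool.Agent.GaussPoset.Win.Xg

set_option linter.unusedSectionVars false

open Finset Kd W4

universe u

variable {P : Type u} [Fintype P] [PartialOrder P] [DecidableEq P] {r i : ℕ}
variable {d x : P} {e f : P → ℕ} {psi : P → P} {C : Finset P}
variable {Q : (P → ℕ) → Prop} {φ : (P → ℕ) → (P → ℕ)}

/-- every class of exchanges has a member with `e x < e d` at every exchangeable place -/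
theorem rep (H : Gr P r) (hC : Part i C) (F : Flp i psi C Q φ) :
    ∀ e, Okc i psi C e → ∃ e', Okc i psi C e' ∧ kp i e' = kp i e ∧ CC i e' = CC i e ∧
      ∑ z, e' z = ∑ z, e z ∧ (Q e' ↔ Q e) ∧ ∀ d x, CanD i e' d x → e' x < e' d := by
  classical
  suffices key : ∀ (n : ℕ) (e : P → ℕ), ∑ z ∈ GaussPoset.lv P i, e z = n → Okc i psi C e →
      ∃ e', Okc i psi C e' ∧ kp i e' = kp i e ∧ CC i e' = CC i e ∧
      ∑ z, e' z = ∑ z, e z ∧ (Q e' ↔ Q e) ∧ ∀ d x, CanD i e' d x → e' x < e' d from
    fun e he => key _ e rfl he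
  intro n
  induction n using Nat.strong_induction_on with
  | _ n ih =>
    intro e hn he
    by_cases hall : ∀ d x, CanD i e d x → e x < e d
    · exact ⟨e, he, rfl, rfl, rfl, Iff.rfl, hall⟩
    push Not at hall
    obtain ⟨d, x, hd, hle⟩ := hall
    have hv := hd.lvl H
    have hxd : x ≠ d := by
      rintro rfl
      omega
    have h1 := he.xc H hC hd
    have hlt : ∑ z ∈ GaussPoset.lv P i, Kd.xc d x e z < n := by
      rw [← hn]
      refine sum_lt_sum (fun z hz => ?_) ⟨x, mem_lv.2 hv.2.1, ?_⟩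
      · rw [mem_lv] at hz
        have hzd : z ≠ d := by
          rintro rfl
          omega
        by_cases hzx : z = x
        · subst hzx
          rw [xc_x hxd]
          omega
        · rw [xc_of hzd hzx]
      · rw [xc_x hxd]
        omega
    obtain ⟨e', a1, a2, a3, a4, a5, a6⟩ := ih _ hlt (Kd.xc d x e) rfl h1
    refine ⟨e', a1, ?_, ?_, ?_, ?_, a6⟩
    · rw [a2, hd.kp H he.adm]
    · rw [a3, CC_xc H he.adm.l he.adm.u hd]
    · rw [a4, hd.sumU H]
    · rw [a5, F.xc_iff H hC he hd]

end Pool.Agent.GaussPoset.Win.Xg
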