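import Pool.Agent.W_448xc_h84.XgL
import Pool.Agent.W_448rd_h10.RdL
import Pool.Agent.W_448p_h97.PaC

/-!
# The general exchange (MP_448cb3_co): exchangeable places of a core with a guard site

The proofs of `n4L_place`, `n4U_place` are those of helper10's `n4L_child`, `n4U_child` (RdJ);
`half_farX` is helper61's `half_far` (RhA).
-/

namespace Pool.Agent.GaussPoset.Win.Rd

set_option linter.unusedSectionVars false

open Finset I2 K2 Xg
open Pool.Agent.GaussPoset.Win.H2 (SdT NoT low_T up_T sum_all)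

universe u

variable {P : Type u} [Fintype P] [PartialOrder P] [DecidableEq P] {r i : ℕ} {e : P → ℕ}
variable {psi : P → P}
section half

/-- THE HALF OF THE INEQUALITY FOR CORES, with one more for a far element -/
theorem half_farX (H : Gr P r) (hir : i ≤ r) (hq : NoQ P (i + 2))
    (hg : ∀ m, m + 1 = i → Good P m) (hM : Mat P i ∅ psi)
    (hL : AdmL i e) (hU : AdmU i e) (hd : Disjoint (AL i e) (AU i e))
    (hc : IsCore i ∅ psi e) {δ : ℕ}
    (hδ : δ = 0 ∨ δ = 1 ∧ ∃ z : P, (i + 3 ≤ lev z ∨ lev z + 3 ≤ i) ∧ 1 ≤ e z) :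
    2 * (((AL i e).card : ℤ) + (AU i e).card) + δ ≤
      ∑ x, (e x : ℤ) + 2 * ((pL i e : ℤ) + pU i e) := by
  classical
  have hps : W4.ps (∅ : Finset P) psi = psi := by
    funext x
    unfold W4.ps
    rw [if_neg (notMem_empty x)]
  obtain ⟨XL, XU, hXL, hXU, h⟩ := main_K hM H hir hq hg hL hU hd hδ
  have h1 : K2.SK i (∅ : Finset P) psi e = ∅ := Pa.core_SK hM (by rw [hps]; exact hc)
  have h2 : K2.KB i (∅ : Finset P) e = ∅ := by
    rw [eq_empty_iff_forall_notMem]
    intro y hy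
    rw [mem_KB] at hy
    exact notMem_empty y hy.1
  rw [h1, h2, card_empty] at h
  have h3 : Disjoint XL XU := by
    rw [disjoint_left]
    intro x hx hx'
    obtain ⟨a1, a2, ⟨y, hy⟩, a3⟩ := hXL x hx
    obtain ⟨b1, b2, b3, b4⟩ := hXU x hx'
    obtain ⟨hyb, -⟩ := a3 y hy
    obtain ⟨k1, k2⟩ := mem_bL hM H hq hyb
    obtain ⟨p1, p2, p3, p4⟩ := psi_low hM k1 (notMem_empty _)
    have h5 : psi y ∈ uc x := by
      rw [mem_uc, ← mem_dc, p2, mem_uc, ← mem_dc]
      exact hy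
    obtain ⟨hpb, -⟩ := b4 _ h5
    obtain ⟨m1, m2⟩ := mem_bU hM H hir hg hpb
    unfold bL at hyb
    rw [mem_bd] at hyb
    obtain ⟨-, -, -, ⟨a, ha, hlt⟩, -⟩ := hyb
    have hla := lev_uc H ha
    have hly := mem_dbL.1 k1
    refine not_both (e := e) hd (x := a) (by omega) (mem_dc.2 (mem_uc.1 ha))
      (u := psi y) (by rw [mem_uc, ← mem_dc, p2]; exact ha) ⟨by omega, by omega⟩
  have h4 : XL.card + XU.card ≤ ∑ x ∈ lv P i, e x := by
    rw [← card_union_of_disjoint h3]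
    have h5 : XL ∪ XU ⊆ lv P i := by
      intro x hx
      rw [mem_union] at hx
      rw [mem_lv]
      rcases hx with hx | hx
      · exact (hXL x hx).1
      · exact (hXU x hx).1
    refine le_trans ?_ (sum_le_sum_of_subset h5)
    rw [card_eq_sum_ones]
    apply sum_le_sum
    intro x hx
    rw [mem_union] at hx
    rcases hx with hx | hx
    · exact (hXL x hx).2.1
    · exact (hXU x hx).2.1
  have h6 := sum_all (i := i) e
  have h7 : (2 * (((AL i e).card : ℤ) + (AU i e).card) + δ) ≤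
      ∑ x ∈ lS P i, (e x : ℤ) + ∑ x ∈ uS P i, (e x : ℤ) + 2 * ((pL i e : ℤ) + pU i e) +
        XL.card + XU.card := by
    have := h
    simp only [add_zero] at this
    exact_mod_cast this
  have h8 : ((XL.card : ℤ) + XU.card) ≤ ∑ x ∈ lv P i, (e x : ℤ) := by exact_mod_cast h4
  rw [h6]
  linarith

/-- the half of the inequality for cores, a far element is positive -/
theorem half_oneX (G : GoodTo P r (i + 1)) (hT : NoT P (i + 2)) (hM : Mat P i ∅ psi)
    (hL : AdmL i e) (hU : AdmU i e) (hd : Disjoint (AL i e) (AU i e))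
    (hc : IsCore i ∅ psi e) {z : P} (hz : i + 3 ≤ lev z ∨ lev z + 3 ≤ i) (h1 : 1 ≤ e z) :
    2 * (((AL i e).card : ℤ) + (AU i e).card) + 1 ≤
      ∑ x, (e x : ℤ) + 2 * ((pL i e : ℤ) + pU i e) := by
  have := half_farX G.H (by have := G.hr; omega) hT.noQ (fun m hm => G.good m (by omega)) hM hL hU
    hd hc (δ := 1) (Or.inr ⟨rfl, z, hz, h1⟩)
  simpa using this

end half

variable (G : GoodTo P r (i + 1)) (hT : NoT P (i + 2)) (hQ : NoQ P (i + 3)) (hM : Mat P i ∅ psi)
  (hL : AdmL i e) (hU : AdmU i e) (hd : Disjoint (AL i e) (AU i e)) (hc : IsCore i ∅ psi e)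

include G hT hQ hM hL hU hd hc in
/-- two elements of `N4L` with a common positive child give an exchangeable place -/
lemma n4L_place {y y' z : P} (hy : y ∈ N4L i psi e) (hy' : y' ∈ N4L i psi e) (hne : y ≠ y')
    (hz : z ∈ dc y) (hz' : z ∈ dc y') (h1 : 1 ≤ e z) : ∃ d x, Xg.CanD i e d x ∧ e d ≤ e x := by
  classical
  have HL := hypL G hT hQ hM hL hU hd hc
  obtain ⟨o, x, hox, hcy, ey, eo, ex, hso⟩ := HL.n4_spec hy
  obtain ⟨o', x', hox', hcy', ey', eo', ex', hso'⟩ := HL.n4_spec hy'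
  obtain ⟨⟨ly, cy⟩, yB, -, -⟩ := mem_N4L' hy
  obtain ⟨⟨ly', cy'⟩, yB', -, -⟩ := mem_N4L' hy'
  have yS : y ∈ lS P i := mem_lS.2 (by omega)
  have yS' : y' ∈ lS P i := mem_lS.2 (by omega)
  obtain ⟨zS, tz, yz⟩ := HL.ch yS hz
  obtain ⟨-, -, yz'⟩ := HL.ch yS' hz'
  -- among the twins choose the one of smallest rank
  obtain ⟨d, hd1, hmin⟩ : ∃ d, (uc d = {y, y'} ∧ 1 ≤ e d) ∧
      ∀ d', (uc d' = {y, y'} ∧ 1 ≤ e d') → Xg.rk d ≤ Xg.rk d' := by
    have hcz : uc z = {y, y'} := pair_eq_of (uc_card_le G.H z) yz yz' hne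
    have hne' : ((univ : Finset P).filter (fun d => uc d = {y, y'} ∧ 1 ≤ e d)).Nonempty :=
      ⟨z, mem_filter.2 ⟨mem_univ _, hcz, h1⟩⟩
    obtain ⟨d, hd, hm⟩ := exists_min_image _ Xg.rk hne'
    exact ⟨d, (mem_filter.1 hd).2, fun d' hd' => hm d' (mem_filter.2 ⟨mem_univ _, hd'⟩)⟩
  obtain ⟨hcd, ed⟩ := hd1
  have yd : y ∈ uc d := by rw [hcd]; simp
  have yd' : y' ∈ uc d := by rw [hcd]; simp
  have ld := lev_uc G.H yd
  have hDJ : DJ uc (fun x : P => lev x - i) (lS P i) d := by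
    refine ⟨mem_lS.2 (by omega), ?_, by rw [hcd, card_pair hne], ?_⟩
    · show lev d - i = 2
      omega
    · intro w hw
      rw [hcd, mem_insert, mem_singleton] at hw
      rcases hw with rfl | rfl <;> assumption
  obtain ⟨w2, p, x0, q, T⟩ := HL.ts hDJ yd
  have hw2 : w2 = y' := by
    have h2 : w2 ∈ uc d := by rw [T.cz]; simp
    rw [hcd, mem_insert, mem_singleton] at h2
    rcases h2 with h2 | h2
    · exact absurd h2.symm T.ne
    · exact h2
  subst hw2
  -- the common site is the guard of both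
  have hx0 : x0 = x ∧ p = o := by
    have hx0y : x0 ∈ uc y := T.x_mem HL
    have hpy : p ∈ uc y := T.p_mem HL
    rw [hcy, mem_insert, mem_singleton] at hx0y hpy
    rcases hx0y with h | h
    · exfalso
      subst h
      have := hso w2 (by rw [T.dx]; simp) T.ne.symm
      omega
    · refine ⟨h, ?_⟩
      rcases hpy with h2 | h2
      · exact h2
      · exact absurd (h2.trans h.symm) T.px
  have hq : x0 = x' ∧ q = o' := by
    have hx0y : x0 ∈ uc w2 := T.symm.x_mem HL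
    have hpy : q ∈ uc w2 := T.symm.p_mem HL
    rw [hcy', mem_insert, mem_singleton] at hx0y hpy
    rcases hx0y with h | h
    · exfalso
      subst h
      have := hso' y (by rw [T.dx]; simp) T.ne
      omega
    · refine ⟨h, ?_⟩
      rcases hpy with h2 | h2
      · exact h2
      · exact absurd (h2.trans h.symm) T.xq.symm
  have ed1 : e d ≤ 1 := by
    have := HL.le_of_gu yS (T.z_mem HL) (a := x) (by rw [hcy]; simp) (by omega)
    omega
  obtain ⟨p1, p2, p3⟩ := psiL hM ly cy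
  obtain ⟨q1, q2, q3⟩ := psiL hM ly' cy'
  have g1 : e (psi y) = 0 := by
    by_contra h
    exact yB (mem_BGL.2 ⟨⟨by omega, cy⟩, by omega, by omega⟩)
  have g2 : e (psi w2) = 0 := by
    by_contra h
    exact yB' (mem_BGL.2 ⟨⟨by omega, cy'⟩, by omega, by omega⟩)
  have m1 : psi y ∈ uc x0 := by
    rw [mem_uc, ← mem_dc, p2]
    exact T.x_mem HL
  have m2 : psi w2 ∈ uc x0 := by
    rw [mem_uc, ← mem_dc, q2]
    exact T.symm.x_mem HL
  have hne2 : psi y ≠ psi w2 := by
    intro h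
    apply T.ne
    rw [← p3, ← q3, h]
  have hux : uc x0 = {psi y, psi w2} := pair_eq_of (uc_card_le G.H x0) m1 m2 hne2
  have hu0 : ∀ u ∈ uc x0, e u = 0 := by
    intro u hu
    rw [hux, mem_insert, mem_singleton] at hu
    rcases hu with rfl | rfl <;> assumption
  have htz : lev d = i + 2 := by omega
  have TT : Tee dc uc (laL i) d y w2 p x0 q :=
    ⟨by unfold laL; omega, T.cz, T.cw, T.cw2, T.dx, T.ne, T.px, T.xq, T.pq⟩
  have hgd : ∀ a ∈ dc d, e a ≤ e d := by
    intro a ha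
    exact HL.le_of_gu T.zS ha (a := y) yd (by omega)
  have kids : ∀ w : P, w ∈ lS P i → (∃ a ∈ uc w, e w ≤ e a) → ∀ d' ∈ dc w, e d' ≤ e w := by
    rintro w hw ⟨a, ha, hle⟩ d' hd'
    exact HL.le_of_gu hw hd' ha hle
  have EE : Exo dc uc d y w2 p x0 q e := by
    refine ⟨ed, ?_, ?_, ?_, ?_, ?_⟩
    · intro a ha
      have := hgd a ha
      omega
    · intro u hu
      rw [hu0 u hu]
      omega
    · right
      refine ⟨fun d' hd' _ => kids y yS ⟨x, by rw [hcy]; simp, by omega⟩ d' hd', ?_⟩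
      rw [hx0.2]
      omega
    · right
      refine ⟨fun d' hd' _ => kids w2 yS' ⟨x', by rw [hcy']; simp, by omega⟩ d' hd', ?_⟩
      rw [hq.2]
      omega
    · left
      right
      rw [hx0.1]
      omega
  refine ⟨d, x0, ?_, by rw [hx0.1]; omega⟩
  left
  refine ⟨y, w2, p, q, TT, EE, ?_⟩
  intro d' hd' hrk
  by_contra h0
  have h9 := hmin d' ⟨hd', by omega⟩
  have h10 : Xg.rk d' < Xg.rk d := hrk
  omega

include G hT hQ hM hL hU hd hc in
/-- the same above the window -/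
lemma n4U_place {y y' z : P} (hy : y ∈ N4U i psi e) (hy' : y' ∈ N4U i psi e) (hne : y ≠ y')
    (hz : z ∈ uc y) (hz' : z ∈ uc y') (h1 : 1 ≤ e z) : ∃ d x, Xg.CanD i e d x ∧ e d ≤ e x := by
  classical
  have HU := hypU G hT hM hL hU hd hc
  obtain ⟨o, x, hox, hcy, ey, eo, ex, hso⟩ := HU.n4_spec hy
  obtain ⟨o', x', hox', hcy', ey', eo', ex', hso'⟩ := HU.n4_spec hy'
  obtain ⟨⟨ly, cy⟩, yB, -, -⟩ := mem_N4U' hy
  obtain ⟨⟨ly', cy'⟩, yB', -, -⟩ := mem_N4U' hy'
  have yS : y ∈ uS P i := mem_uS.2 (by omega)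
  have yS' : y' ∈ uS P i := mem_uS.2 (by omega)
  obtain ⟨zS, tz, yz⟩ := HU.ch yS hz
  obtain ⟨-, -, yz'⟩ := HU.ch yS' hz'
  obtain ⟨d, hd1, hmin⟩ : ∃ d, (dc d = {y, y'} ∧ 1 ≤ e d) ∧
      ∀ d', (dc d' = {y, y'} ∧ 1 ≤ e d') → Xg.rk d ≤ Xg.rk d' := by
    have hcz : dc z = {y, y'} := pair_eq_of (dc_card_le G.H z) yz yz' hne
    have hne' : ((univ : Finset P).filter (fun d => dc d = {y, y'} ∧ 1 ≤ e d)).Nonempty :=
      ⟨z, mem_filter.2 ⟨mem_univ _, hcz, h1⟩⟩
    obtain ⟨d, hd, hm⟩ := exists_min_image _ Xg.rk hne'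
    exact ⟨d, (mem_filter.1 hd).2, fun d' hd' => hm d' (mem_filter.2 ⟨mem_univ _, hd'⟩)⟩
  obtain ⟨hcd, ed⟩ := hd1
  have yd : y ∈ dc d := by rw [hcd]; simp
  have yd' : y' ∈ dc d := by rw [hcd]; simp
  have ld := lev_dc G.H yd
  have hDJ : DJ dc (fun x : P => i - lev x) (uS P i) d := by
    refine ⟨mem_uS.2 (by omega), ?_, by rw [hcd, card_pair hne], ?_⟩
    · show i - lev d = 2
      omega
    · intro w hw
      rw [hcd, mem_insert, mem_singleton] at hw
      rcases hw with rfl | rfl <;> assumption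
  obtain ⟨w2, p, x0, q, T⟩ := HU.ts hDJ yd
  have hw2 : w2 = y' := by
    have h2 : w2 ∈ dc d := by rw [T.cz]; simp
    rw [hcd, mem_insert, mem_singleton] at h2
    rcases h2 with h2 | h2
    · exact absurd h2.symm T.ne
    · exact h2
  subst hw2
  have hx0 : x0 = x ∧ p = o := by
    have hx0y : x0 ∈ dc y := T.x_mem HU
    have hpy : p ∈ dc y := T.p_mem HU
    rw [hcy, mem_insert, mem_singleton] at hx0y hpy
    rcases hx0y with h | h
    · exfalso
      subst h
      have := hso w2 (by rw [T.dx]; simp) T.ne.symm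
      omega
    · refine ⟨h, ?_⟩
      rcases hpy with h2 | h2
      · exact h2
      · exact absurd (h2.trans h.symm) T.px
  have hq : x0 = x' ∧ q = o' := by
    have hx0y : x0 ∈ dc w2 := T.symm.x_mem HU
    have hpy : q ∈ dc w2 := T.symm.p_mem HU
    rw [hcy', mem_insert, mem_singleton] at hx0y hpy
    rcases hx0y with h | h
    · exfalso
      subst h
      have := hso' y (by rw [T.dx]; simp) T.ne
      omega
    · refine ⟨h, ?_⟩
      rcases hpy with h2 | h2
      · exact h2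
      · exact absurd (h2.trans h.symm) T.xq.symm
  have ed1 : e d ≤ 1 := by
    have := HU.le_of_gu yS (T.z_mem HU) (a := x) (by rw [hcy]; simp) (by omega)
    omega
  obtain ⟨p1, p2, p3⟩ := psiU hM ly cy
  obtain ⟨q1, q2, q3⟩ := psiU hM ly' cy'
  have g1 : e (psi y) = 0 := by
    by_contra h
    exact yB (mem_BGU.2 ⟨⟨by omega, cy⟩, by omega, by omega⟩)
  have g2 : e (psi w2) = 0 := by
    by_contra h
    exact yB' (mem_BGU.2 ⟨⟨by omega, cy'⟩, by omega, by omega⟩)
  have m1 : psi y ∈ dc x0 := by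
    rw [mem_dc, ← mem_uc, p2]
    exact T.x_mem HU
  have m2 : psi w2 ∈ dc x0 := by
    rw [mem_dc, ← mem_uc, q2]
    exact T.symm.x_mem HU
  have hne2 : psi y ≠ psi w2 := by
    intro h
    apply T.ne
    rw [← p3, ← q3, h]
  have hux : dc x0 = {psi y, psi w2} := pair_eq_of (dc_card_le G.H x0) m1 m2 hne2
  have hu0 : ∀ u ∈ dc x0, e u = 0 := by
    intro u hu
    rw [hux, mem_insert, mem_singleton] at hu
    rcases hu with rfl | rfl <;> assumption
  have htz : lev d + 2 = i := by omega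
  have TT : Tee uc dc (laU i) d y w2 p x0 q :=
    ⟨by unfold laU; omega, T.cz, T.cw, T.cw2, T.dx, T.ne, T.px, T.xq, T.pq⟩
  have hgd : ∀ a ∈ uc d, e a ≤ e d := by
    intro a ha
    exact HU.le_of_gu T.zS ha (a := y) yd (by omega)
  have kids : ∀ w : P, w ∈ uS P i → (∃ a ∈ dc w, e w ≤ e a) → ∀ d' ∈ uc w, e d' ≤ e w := by
    rintro w hw ⟨a, ha, hle⟩ d' hd'
    exact HU.le_of_gu hw hd' ha hle
  have EE : Exo uc dc d y w2 p x0 q e := by
    refine ⟨ed, ?_, ?_, ?_, ?_, ?_⟩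
    · intro a ha
      have := hgd a ha
      omega
    · intro u hu
      rw [hu0 u hu]
      omega
    · right
      refine ⟨fun d' hd' _ => kids y yS ⟨x, by rw [hcy]; simp, by omega⟩ d' hd', ?_⟩
      rw [hx0.2]
      omega
    · right
      refine ⟨fun d' hd' _ => kids w2 yS' ⟨x', by rw [hcy']; simp, by omega⟩ d' hd', ?_⟩
      rw [hq.2]
      omega
    · left
      right
      rw [hx0.1]
      omega
  refine ⟨d, x0, ?_, by rw [hx0.1]; omega⟩
  right
  refine ⟨y, w2, p, q, TT, EE, ?_⟩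
  intro d' hd' hrk
  by_contra h0
  have h9 := hmin d' ⟨hd', by omega⟩
  have h10 : Xg.rk d' < Xg.rk d := hrk
  omega


end Pool.Agent.GaussPoset.Win.Rd
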