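import Pool.Agent.W_448xc_h84.XgM

/-!
# The general exchange (MP_448cb3_co): cores with a pair of twins are not tight
-/

namespace Pool.Agent.GaussPoset.Win.Rd

set_option linter.unusedSectionVars false

open Finset I2 K2 Xg
open Pool.Agent.GaussPoset.Win.H2 (SdT NoT low_T up_T sum_all)

universe u

variable {P : Type u} [Fintype P] [PartialOrder P] [DecidableEq P] {r i : ℕ} {e : P → ℕ}
variable {psi : P → P} {z z' : P}

/-- the data of the exact pattern -/
lemma twx_data (H : Gr P r) (hz : z ∈ TWLx i e) : ∃ z', lev z = i + 2 ∧ lev z' = i + 2 ∧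
    uc z' = uc z ∧ z' ≠ z ∧ e z = 2 ∧ e z' = 1 ∧ ∀ w ∈ uc z, e w = 1 := by
  classical
  unfold TWLx TWx at hz
  rw [mem_filter, mem_lS] at hz
  obtain ⟨hzi, ⟨hD, hk, z', h1, h2, h3, h4⟩, e1, e2, e3⟩ := hz
  obtain ⟨-, tz, cz, -⟩ := hD
  have tz' : lev z - i = 2 := tz
  obtain ⟨w, hw⟩ : (uc z).Nonempty := card_pos.1 (by omega)
  have l1 := lev_uc H hw
  have l2 := lev_uc H (h1 ▸ hw : w ∈ uc z')
  exact ⟨z', by omega, by omega, h1, h2, e1, e2 z' h1 h2, fun w hw => (e3 w hw).1⟩

/-- a core with a pair of twins (exact pattern) is not tight for the inequality of slope two -/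
theorem tw_half (G : GoodTo P r (i + 1)) (hT : NoT P (i + 2)) (hM : Mat P i ∅ psi)
    (hL : AdmL i e) (hU : AdmU i e) (hd : Disjoint (AL i e) (AU i e))
    (hc : IsCore i ∅ psi e) (hz : z ∈ TWLx i e) :
    2 * (((AL i e).card : ℤ) + (AU i e).card) + 1 ≤
      ∑ x, (e x : ℤ) + 2 * ((pL i e : ℤ) + pU i e) := by
  classical
  by_cases hA : ∃ a : P, i + 3 ≤ lev a ∧ 1 ≤ e a
  · obtain ⟨a, h1, h2⟩ := hA
    exact half_oneX G hT hM hL hU hd hc (Or.inl h1) h2
  push Not at hA
  obtain ⟨z', lz, lz', hu, hne, ez, ez', ew⟩ := twx_data G.H hz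
  obtain ⟨B, hB⟩ : ∃ B : P → ℕ, B = fun a => if a = z' then 0 else e a := ⟨_, rfl⟩
  have Bz : B z' = 0 := by rw [hB]; simp
  have Bo : ∀ a, a ≠ z' → B a = e a := fun a ha => by rw [hB]; simp [ha]
  have lu : ∀ {a b : P}, a ⋖ b → lev a = lev b + 1 := by
    intro a b h
    have := lev_uc G.H (mem_uc.2 h)
    omega
  have hFD : ∀ a, FD B a ↔ FD e a := by
    intro a
    constructor
    · rintro ⟨b, hb, hlt⟩
      have hbz : b ≠ z' := by
        rintro rfl
        rw [Bz] at hlt
        omega
      rw [Bo b hbz] at hlt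
      by_cases ha : a = z'
      · subst ha
        have := hA b (by have := lu hb; omega)
        omega
      · rw [Bo a ha] at hlt
        exact ⟨b, hb, hlt⟩
    · rintro ⟨b, hb, hlt⟩
      by_cases hbz : b = z'
      · subst hbz
        have := ew a (hu ▸ mem_uc.2 hb)
        omega
      by_cases ha : a = z'
      · subst ha
        have := hA b (by have := lu hb; omega)
        omega
      · exact ⟨b, hb, by rw [Bo a ha, Bo b hbz]; exact hlt⟩
  have hGU : ∀ a, GU B a ↔ GU e a := by
    intro a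
    constructor
    · rintro ⟨y, hy, hle⟩
      by_cases ha : a = z'
      · subst ha
        obtain ⟨w, hw⟩ : (uc z).Nonempty := by
          rw [← hu]
          exact ⟨y, mem_uc.2 hy⟩
        exact ⟨w, mem_uc.1 (hu ▸ hw), by rw [ez', ew w hw]⟩
      by_cases hyz : y = z'
      · subst hyz
        rw [Bz, Bo a ha] at hle
        exact ⟨y, hy, by omega⟩
      · rw [Bo a ha, Bo y hyz] at hle
        exact ⟨y, hy, hle⟩
    · rintro ⟨y, hy, hle⟩
      by_cases ha : a = z'
      · subst ha
        exact ⟨y, hy, by rw [Bz]; exact Nat.zero_le _⟩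
      by_cases hyz : y = z'
      · subst hyz
        have := hA a (by have := lu hy; omega)
        exact ⟨y, hy, by rw [Bo a ha]; omega⟩
      · exact ⟨y, hy, by rw [Bo a ha, Bo y hyz]; exact hle⟩
  have hFU : ∀ a : P, lev a ≤ i → (FU B a ↔ FU e a) := by
    intro a ha
    have h1 : a ≠ z' := by rintro rfl; omega
    refine exists_congr fun y => and_congr_right fun hy => ?_
    have := lu hy
    rw [Bo a h1, Bo y (by rintro rfl; omega)]
  have hGD : ∀ a : P, lev a < i → (GD B a ↔ GD e a) := by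
    intro a ha
    have h1 : a ≠ z' := by rintro rfl; omega
    refine exists_congr fun y => and_congr_right fun hy => ?_
    have := lu hy
    rw [Bo a h1, Bo y (by rintro rfl; omega)]
  have bL : AdmL i B := fun a ha => by rw [hFD, hGU]; exact hL a ha
  have bU : AdmU i B := fun a ha => by rw [hFU a ha.le, hGD a ha]; exact hU a ha
  have bAL : AL i B = AL i e := by
    unfold AL
    exact filter_congr fun a _ => hFD a
  have bAU : AU i B = AU i e := by
    unfold AU
    exact filter_congr fun a ha => hFU a (mem_lv.1 ha).le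
  have bpL : pL i B = pL i e := by
    unfold pL
    congr 1
    exact filter_congr fun a _ => by rw [hFD, hGU]
  have bpU : pU i B = pU i e := by
    unfold pU
    congr 1
    exact filter_congr fun a _ => and_congr_right fun ha => by rw [hFU a ha.le, hGD a ha]
  have hTch : ∀ a, a ∈ Tch i e → a ∈ Tch i B := by
    intro a ha
    rw [mem_Tch] at ha ⊢
    rcases ha with ⟨h1, b, hb, h2⟩ | ⟨h1, b, hb, h2⟩
    · left
      refine ⟨h1, ?_⟩
      by_cases hbz : b = z'
      · subst hbz
        refine ⟨z, mem_uc.1 (hu ▸ mem_uc.2 hb), ?_⟩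
        rw [Bo z hne.symm]
        omega
      · exact ⟨b, hb, by rw [Bo b hbz]; exact h2⟩
    · right
      refine ⟨h1, b, hb, ?_⟩
      have := lu hb
      rw [Bo b (by rintro rfl; omega)]
      exact h2
  have bC : IsCore i ∅ psi B := by
    intro a ha
    have h1 : a ∈ Rst i ∅ psi e := by
      rw [mem_Rst] at ha ⊢
      exact ⟨ha.1, ha.2.1, fun h => ha.2.2.1 (hTch a h), fun h => ha.2.2.2 ⟨h.1, hTch _ h.2⟩⟩
    have h2 := hc a h1
    by_cases h3 : a = z'
    · rw [h3, Bz]
    · rw [Bo a h3, h2]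
  have hsum : ∑ x, (e x : ℤ) = ∑ x, (B x : ℤ) + 1 := by
    have h1 : ∀ x, (e x : ℤ) = (B x : ℤ) + if x = z' then 1 else 0 := by
      intro x
      by_cases h : x = z'
      · subst h
        rw [Bz, ez', if_pos rfl]
        simp
      · rw [Bo x h, if_neg h, add_zero]
    rw [sum_congr rfl fun x _ => h1 x, sum_add_distrib, sum_ite_eq' univ z' (fun _ => (1 : ℤ)),
      if_pos (mem_univ _)]
  have h := half G hT hM bL bU (by rw [bAL, bAU]; exact hd) bC
  rw [bAL, bAU, bpL, bpU] at h
  rw [hsum]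
  linarith

end Pool.Agent.GaussPoset.Win.Rd
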