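import Pool.Agent.W_448xc_h84.XgN

/-!
# The general exchange (MP_448cb3_co): parts without pendants and parts with one matched pendant
-/

namespace Pool.Agent.GaussPoset.Win.Rd

set_option linter.unusedSectionVars false

open Finset I2 K2 Xg
open Pool.Agent.GaussPoset.Win.H2 (SdT NoT low_T up_T sum_all)

universe u

section abs

variable {P : Type u} [DecidableEq P]
variable {c c' : P → Finset P} {e : P → ℕ} {t : P → ℕ} {V Sd BG EX : Finset P}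
variable (H : Hyp c c' e t V Sd BG EX)
include H

/-- a positive child of an element of `N4` -/
lemma Hyp.n4_child {y : P} (hy : y ∈ N4 c c' e t Sd BG) : ∃ o x z, o ≠ x ∧ c y = {o, x} ∧
    e y = 1 ∧ e o = 0 ∧ 1 ≤ e x ∧ (∀ v ∈ c' o, v ≠ y → e v = 0) ∧ z ∈ c' y ∧ 1 ≤ e z ∧
    (c z = {y} ∨ ∃ w, w ≠ y ∧ w ∈ c z ∧ w ∈ c' x ∧ 1 ≤ e w) := by
  classical
  obtain ⟨o, x, hox, hc, e1, e2, e3, h4⟩ := H.n4_spec hy
  have hy' := hy
  unfold N4 at hy'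
  rw [mem_filter, mem_Dd] at hy'
  obtain ⟨⟨yS, yB, ty, cy⟩, -, -⟩ := hy'
  obtain ⟨z, hz, h1⟩ := H.touch y yS ty cy yB (by omega)
  obtain ⟨zS, tz, yz⟩ := H.ch yS hz
  refine ⟨o, x, z, hox, hc, e1, e2, e3, h4, hz, h1, ?_⟩
  by_cases hall : ∀ w ∈ c z, w = y
  · left
    ext w
    rw [mem_singleton]
    exact ⟨hall w, fun h => h ▸ yz⟩
  right
  push Not at hall
  obtain ⟨w, hw, hne⟩ := hall
  obtain ⟨wS, tw⟩ := H.cov zS (by omega) hw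
  have zw : z ∈ c' w := (H.S.dual _ _).1 hw
  have ew : 1 ≤ e w := by
    by_contra h0
    obtain ⟨a, ha⟩ := H.S.ne w wS
    exact H.adm w wS ⟨⟨z, zw, by omega⟩, a, ha, by omega⟩
  obtain ⟨a, a1, a2⟩ := H.hT z zS (by omega) y yz w hw hne.symm cy
  refine ⟨w, hne, hw, ?_, ew⟩
  rw [hc, mem_insert, mem_singleton] at a1
  rcases a1 with rfl | rfl
  · have := h4 w ((H.S.dual _ _).1 a2) hne
    omega
  · exact (H.S.dual _ _).1 a2

/-- an element of `P1s` without a second element of `P1` -/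
lemma Hyp.p1s_full {y : P} (hy : y ∈ P1s c c' e t Sd BG)
    (hu : ∀ y' ∈ P1 c c' e t Sd BG, y' = y) : ∃ o x p, o ≠ x ∧ c y = {o, x} ∧ t y = 1 ∧ y ∈ Sd ∧
    e y = 1 ∧ e o = 0 ∧ e x = 0 ∧ (∀ v ∈ c' o, v ≠ y → e v = 0) ∧ (∀ v ∈ c' x, v ≠ y → e v = 0) ∧
    p ∈ c' y ∧ e p = 1 ∧ c p = {y} ∧ (∀ z ∈ c' y, z ≠ p → e z = 0) ∧ ∀ q ∈ c' p, e q = 0 := by
  classical
  obtain ⟨hD, hN, p, hp, ep, cp, hz⟩ := H.p1_spec (P1s_sub hy)
  obtain ⟨yS, yB, ty, cy⟩ := mem_Dd.1 hD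
  obtain ⟨o, x, hox, hc⟩ := card_eq_two.1 cy
  obtain ⟨a1, a2, a3, a4, a5⟩ := H.n4a_spec hD hN hc hox
  refine ⟨o, x, p, hox, hc, ty, yS, a1, a2, a3, a4, a5, hp, ep, cp, hz, ?_⟩
  intro q hq
  by_contra h0
  obtain ⟨y', h1, h2, -⟩ := H.P1s_spec hy hp (by omega) hq (by omega)
  exact h2 (hu y' h1)

end abs

variable {P : Type u} [Fintype P] [PartialOrder P] [DecidableEq P] {r i : ℕ} {e : P → ℕ}
variable {psi : P → P} {C : Finset P} {y p w u v v' : P}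

/-- no pendants -/
def NoP (i : ℕ) (C : Finset P) : Prop := ∀ q ∈ C, q ∉ PD P i ∧ q ∉ PU P i

/-- one pendant below and one above, over matched elements -/
structure OneP (i : ℕ) (psi : P → P) (C : Finset P) (y p w u v v' : P) : Prop where
  F : FlS i y p w u v v'
  hy : psi y = w
  my : y ∈ C
  mp : p ∈ C
  mw : w ∈ C
  mu : u ∈ C
  low : ∀ q ∈ C, q ∈ PD P i → q = p
  upp : ∀ q ∈ C, q ∈ PU P i → q = u

section main

variable (G : GoodTo P r (i + 1)) (hT : NoT P (i + 2)) (hQ : NoQ P (i + 3)) (hM : Mat P i ∅ psi)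
  (ho : Okc i psi C e)
include G hT hQ hM ho

/-- the pendant of an element of `P1`, below the window -/
lemma p1L_pen {y' : P} (h : y' ∈ P1 uc dc e (fun x : P => lev x - i) (lS P i) (BGL i psi e)) :
    ∃ p ∈ C, p ∈ PD P i ∧ uc p = {y'} ∧ e p = 1 := by
  classical
  have HL := hypL G hT hQ hM ho.adm.l ho.adm.u ho.adm.d ho.core
  obtain ⟨hD, hN, p, hp, ep, cp, hz⟩ := HL.p1_spec h
  obtain ⟨yS, yB, ty, cy⟩ := mem_Dd.1 hD
  rw [mem_lS] at yS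
  have ty' : lev y' - i = 1 := ty
  have l1 := lev_dc G.H hp
  refine ⟨p, ?_, ?_, cp, ep⟩
  · by_contra hcon
    have := ho.spt p hcon
    omega
  · rw [mem_PD]
    exact ⟨by omega, by rw [cp, card_singleton], y', mem_dc.1 hp, cy⟩

lemma p1U_pen {y' : P} (h : y' ∈ P1 dc uc e (fun x : P => i - lev x) (uS P i) (BGU i psi e)) :
    ∃ p ∈ C, p ∈ PU P i ∧ dc p = {y'} ∧ e p = 1 := by
  classical
  have HU := hypU G hT hM ho.adm.l ho.adm.u ho.adm.d ho.core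
  obtain ⟨hD, hN, p, hp, ep, cp, hz⟩ := HU.p1_spec h
  obtain ⟨yS, yB, ty, cy⟩ := mem_Dd.1 hD
  rw [mem_uS] at yS
  have ty' : i - lev y' = 1 := ty
  have l1 := lev_uc G.H hp
  refine ⟨p, ?_, ?_, cp, ep⟩
  · by_contra hcon
    have := ho.spt p hcon
    omega
  · rw [mem_PU]
    exact ⟨by omega, by rw [cp, card_singleton], y', mem_uc.1 hp, cy⟩

/-- the positive pendant of an element of `N4`, below the window -/
lemma n4L_pen {y' : P} (h : y' ∈ N4L i psi e) : ∃ o x z, o ≠ x ∧ uc y' = {o, x} ∧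
    e y' = 1 ∧ e o = 0 ∧ 1 ≤ e x ∧ z ∈ dc y' ∧ 1 ≤ e z ∧
    ((z ∈ C ∧ z ∈ PD P i ∧ uc z = {y'}) ∨ ∃ w, w ≠ y' ∧ w ∈ uc z ∧ w ∈ dc x ∧ 1 ≤ e w) := by
  classical
  have HL := hypL G hT hQ hM ho.adm.l ho.adm.u ho.adm.d ho.core
  obtain ⟨⟨ly, cy⟩, yB, -, -⟩ := mem_N4L' h
  obtain ⟨o, x, z, h1, h2, h3, h4, h5, h6, h7, h8, h9⟩ := HL.n4_child h
  have l1 := lev_dc G.H h7
  refine ⟨o, x, z, h1, h2, h3, h4, h5, h7, h8, ?_⟩
  rcases h9 with h9 | h9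
  · left
    refine ⟨?_, ?_, h9⟩
    · by_contra hcon
      have := ho.spt z hcon
      omega
    · rw [mem_PD]
      exact ⟨by omega, by rw [h9, card_singleton], y', mem_dc.1 h7, cy⟩
  · exact Or.inr h9

lemma n4U_pen {y' : P} (h : y' ∈ N4U i psi e) : ∃ o x z, o ≠ x ∧ dc y' = {o, x} ∧
    e y' = 1 ∧ e o = 0 ∧ 1 ≤ e x ∧ z ∈ uc y' ∧ 1 ≤ e z ∧
    ((z ∈ C ∧ z ∈ PU P i ∧ dc z = {y'}) ∨ ∃ w, w ≠ y' ∧ w ∈ dc z ∧ w ∈ uc x ∧ 1 ≤ e w) := by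
  classical
  have HU := hypU G hT hM ho.adm.l ho.adm.u ho.adm.d ho.core
  obtain ⟨⟨ly, cy⟩, yB, -, -⟩ := mem_N4U' h
  obtain ⟨o, x, z, h1, h2, h3, h4, h5, h6, h7, h8, h9⟩ := HU.n4_child h
  have l1 := lev_uc G.H h7
  refine ⟨o, x, z, h1, h2, h3, h4, h5, h7, h8, ?_⟩
  rcases h9 with h9 | h9
  · left
    refine ⟨?_, ?_, h9⟩
    · by_contra hcon
      have := ho.spt z hcon
      omega
    · rw [mem_PU]
      exact ⟨by omega, by rw [h9, card_singleton], y', mem_uc.1 h7, cy⟩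
  · exact Or.inr h9

end main

end Pool.Agent.GaussPoset.Win.Rd
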