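import Pool.Agent.W_448xc_h84.XgO

/-!
# The general exchange (MP_448cb3_co): the blocks `P1` of a part with one matched pendant
-/

namespace Pool.Agent.GaussPoset.Win.Rd

set_option linter.unusedSectionVars false

open Finset I2 K2 Xg
open Pool.Agent.GaussPoset.Win.H2 (SdT NoT low_T up_T sum_all)

universe u

variable {P : Type u} [Fintype P] [PartialOrder P] [DecidableEq P] {r i : ℕ} {e : P → ℕ}
variable {psi : P → P} {C : Finset P} {y p w u v v' : P}

section main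

variable (G : GoodTo P r (i + 1)) (hT : NoT P (i + 2)) (hQ : NoQ P (i + 3)) (hM : Mat P i ∅ psi)
  (ho : Okc i psi C e) (O : OneP i psi C y p w u v v')
include G hT hQ hM ho O

lemma p1L_uniq {y' : P} (h : y' ∈ P1 uc dc e (fun x : P => lev x - i) (lS P i) (BGL i psi e)) :
    y' = y := by
  obtain ⟨p', h1, h2, h3, h4⟩ := p1L_pen G hT hQ hM ho h
  have h5 := O.low p' h1 h2
  rw [h5, O.F.up] at h3
  exact (singleton_injective h3).symm

lemma p1U_uniq {y' : P} (h : y' ∈ P1 dc uc e (fun x : P => i - lev x) (uS P i) (BGU i psi e)) :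
    y' = w := by
  obtain ⟨p', h1, h2, h3, h4⟩ := p1U_pen G hT hQ hM ho h
  have h5 := O.upp p' h1 h2
  rw [h5, O.F.du] at h3
  exact (singleton_injective h3).symm

/-- a block `P1` below the window -/
theorem lop_of {y' : P} (h : y' ∈ P1L i psi e) : LoP y p w u v v' e := by
  classical
  have HL := hypL G hT hQ hM ho.adm.l ho.adm.u ho.adm.d ho.core
  have hy' : y' = y := p1L_uniq G hT hQ hM ho O (P1s_sub h)
  subst hy'
  obtain ⟨o, x, p', hox, hc, ty, yS, e1, eo, ex, h4, h5, hp', ep, cp, hz, hq⟩ :=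
    HL.p1s_full h (fun a ha => p1L_uniq G hT hQ hM ho O ha)
  have F := O.F
  obtain ⟨k1, k2, k3, k4⟩ := F.lv G.H
  obtain ⟨m1, m2, m3, m4⟩ := F.mems G.H
  have ly := F.ly
  have lw := F.lw
  have hpp : p' = p := by
    refine O.low p' ?_ ?_
    · by_contra hcon
      have := ho.spt p' hcon
      omega
    · have l1 := lev_dc G.H hp'
      rw [mem_PD]
      exact ⟨by omega, by rw [cp, card_singleton], y', mem_dc.1 hp', by rw [hc, card_pair hox]⟩
  subst hpp
  have hsite : ∀ a ∈ uc y', e a = 0 ∧ (∀ z ∈ dc a, z ≠ y' → e z = 0) ∧ ∀ z ∈ uc a, e z = 0 := by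
    intro a ha
    have la := lev_uc G.H ha
    have h6 : e a = 0 ∧ ∀ z ∈ dc a, z ≠ y' → e z = 0 := by
      rw [hc, mem_insert, mem_singleton] at ha
      rcases ha with rfl | rfl
      · exact ⟨eo, h4⟩
      · exact ⟨ex, h5⟩
    refine ⟨h6.1, h6.2, fun z hz => ?_⟩
    have := not_both (e := e) ho.adm.d (by omega) (mem_dc.2 (mem_uc.1 ha)) hz
    omega
  have hv : v ∈ uc y' := by rw [F.uy]; simp
  have hv' : v' ∈ uc y' := by rw [F.uy]; simp
  have ew : e w = 0 := (hsite v hv).2.2 w (mem_uc.2 (mem_dc.1 (by rw [F.dw]; simp)))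
  have up0 : ∀ a : P, lev a < i → e a = 0 → ∀ b ∈ dc a, e b = 0 → ∀ z ∈ uc a, e z = 0 := by
    intro a ha h0 b hb hb0 z hz
    by_contra h1
    exact ho.adm.u a ha ⟨⟨z, mem_uc.1 hz, by omega⟩, b, mem_dc.1 hb, by omega⟩
  have huw : ∀ z ∈ uc w, e z = 0 := up0 w (by omega) ew v (by rw [F.dw]; simp) (hsite v hv).1
  have hu0 : e u = 0 := huw u (mem_uc.2 (mem_dc.1 (by rw [F.du]; simp)))
  have huu : ∀ z ∈ uc u, e z = 0 := up0 u (by omega) hu0 w (by rw [F.du]; simp) ew
  have rz : ∀ z, (z ≠ y' → z ≠ p' → e z = 0) → rm y' p' e z = 0 := by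
    intro z h
    by_cases g1 : z = y'
    · rw [g1, rm_y]
    by_cases g2 : z = p'
    · rw [g2, rm_p]
    rw [rm_of g1 g2]
    exact h g1 g2
  refine ⟨e1, ep, ?_⟩
  exact ⟨rz v fun _ _ => (hsite v hv).1, rz v' fun _ _ => (hsite v' hv').1,
    fun z hz => rz z fun g1 _ => (hsite v hv).2.1 z hz g1,
    fun z hz => rz z fun g1 _ => (hsite v' hv').2.1 z hz g1,
    fun z hz => rz z fun _ _ => (hsite v hv).2.2 z hz,
    fun z hz => rz z fun _ _ => (hsite v' hv').2.2 z hz,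
    fun z h7 => rz z fun _ g2 => hz z h7 g2,
    fun z h7 => rz z fun _ _ => hq z h7,
    fun z h7 => rz z fun _ _ => huw z h7,
    fun z h7 => rz z fun _ _ => huu z h7⟩

/-- a block `P1` above the window -/
theorem upp_of {y' : P} (h : y' ∈ P1U i psi e) : UpP y p w u v v' e := by
  classical
  have HU := hypU G hT hM ho.adm.l ho.adm.u ho.adm.d ho.core
  have hy' : y' = w := p1U_uniq G hT hQ hM ho O (P1s_sub h)
  subst hy'
  obtain ⟨o, x, p', hox, hc, ty, yS, e1, eo, ex, h4, h5, hp', ep, cp, hz, hq⟩ :=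
    HU.p1s_full h (fun a ha => p1U_uniq G hT hQ hM ho O ha)
  have F := O.F
  obtain ⟨k1, k2, k3, k4⟩ := F.lv G.H
  obtain ⟨m1, m2, m3, m4⟩ := F.mems G.H
  have ly := F.ly
  have lw := F.lw
  have hpp : p' = u := by
    refine O.upp p' ?_ ?_
    · by_contra hcon
      have := ho.spt p' hcon
      omega
    · have l1 := lev_uc G.H hp'
      rw [mem_PU]
      exact ⟨by omega, by rw [cp, card_singleton], y', mem_uc.1 hp', by rw [hc, card_pair hox]⟩
  subst hpp
  have hsite : ∀ a ∈ dc y', e a = 0 ∧ (∀ z ∈ uc a, z ≠ y' → e z = 0) ∧ ∀ z ∈ dc a, e z = 0 := by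
    intro a ha
    have la := lev_dc G.H ha
    have h6 : e a = 0 ∧ ∀ z ∈ uc a, z ≠ y' → e z = 0 := by
      rw [hc, mem_insert, mem_singleton] at ha
      rcases ha with rfl | rfl
      · exact ⟨eo, h4⟩
      · exact ⟨ex, h5⟩
    refine ⟨h6.1, h6.2, fun z hz => ?_⟩
    have := not_both (e := e) ho.adm.d (x := a) (by omega) hz (mem_uc.2 (mem_dc.1 ha))
    omega
  have hv : v ∈ dc y' := by rw [F.dw]; simp
  have hv' : v' ∈ dc y' := by rw [F.dw]; simp
  have ew : e y = 0 := (hsite v hv).2.2 y (mem_dc.2 (mem_uc.1 (by rw [F.uy]; simp)))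
  have lo0 : ∀ a : P, i < lev a → e a = 0 → ∀ b ∈ uc a, e b = 0 → ∀ z ∈ dc a, e z = 0 := by
    intro a ha h0 b hb hb0 z hz
    by_contra h1
    exact ho.adm.l a ha ⟨⟨z, mem_dc.1 hz, by omega⟩, b, mem_uc.1 hb, by omega⟩
  have huw : ∀ z ∈ dc y, e z = 0 := lo0 y (by omega) ew v (by rw [F.uy]; simp) (hsite v hv).1
  have hu0 : e p = 0 := huw p (mem_dc.2 (mem_uc.1 (by rw [F.up]; simp)))
  have huu : ∀ z ∈ dc p, e z = 0 := lo0 p (by omega) hu0 y (by rw [F.up]; simp) ew
  have rz : ∀ z, (z ≠ y' → z ≠ p' → e z = 0) → rm y' p' e z = 0 := by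
    intro z h
    by_cases g1 : z = y'
    · rw [g1, rm_y]
    by_cases g2 : z = p'
    · rw [g2, rm_p]
    rw [rm_of g1 g2]
    exact h g1 g2
  refine ⟨e1, ep, ?_⟩
  exact ⟨rz v fun _ _ => (hsite v hv).1, rz v' fun _ _ => (hsite v' hv').1,
    fun z hz => rz z fun _ _ => (hsite v hv).2.2 z hz,
    fun z hz => rz z fun _ _ => (hsite v' hv').2.2 z hz,
    fun z hz => rz z fun g1 _ => (hsite v hv).2.1 z hz g1,
    fun z hz => rz z fun g1 _ => (hsite v' hv').2.1 z hz g1,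
    fun z h7 => rz z fun _ _ => huw z h7,
    fun z h7 => rz z fun _ _ => huu z h7,
    fun z h7 => rz z fun _ g2 => hz z h7 g2,
    fun z h7 => rz z fun _ _ => hq z h7⟩

/-- at most one block `P1` -/
theorem p1_one : (P1L i psi e).card + (P1U i psi e).card ≤ 1 := by
  classical
  have h1 : (P1L i psi e).card ≤ 1 := by
    rw [card_le_one]
    intro a ha b hb
    rw [p1L_uniq G hT hQ hM ho O (P1s_sub ha), p1L_uniq G hT hQ hM ho O (P1s_sub hb)]
  have h2 : (P1U i psi e).card ≤ 1 := by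
    rw [card_le_one]
    intro a ha b hb
    rw [p1U_uniq G hT hQ hM ho O (P1s_sub ha), p1U_uniq G hT hQ hM ho O (P1s_sub hb)]
  by_contra hcon
  obtain ⟨a, ha⟩ := card_pos.1 (show 0 < (P1L i psi e).card by omega)
  obtain ⟨b, hb⟩ := card_pos.1 (show 0 < (P1U i psi e).card by omega)
  have hL := lop_of G hT hQ hM ho O ha
  have hU := upp_of G hT hQ hM ho O hb
  have F := O.F
  have h3 := hL.2.2.uv w (mem_uc.2 (mem_dc.1 (by rw [F.dw]; simp)))
  have h4 := hU.1
  obtain ⟨n1, n2, n3, n4, n5, n6⟩ := F.nes G.H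
  rw [rm_of n1.symm (by
    rintro rfl
    obtain ⟨k1, k2, k3, k4⟩ := F.lv G.H
    have := F.lw
    omega)] at h3
  omega

/-- a block `P1` is the block of the flip -/
theorem p1_fp (h : (P1L i psi e).card + (P1U i psi e).card ≠ 0) : FP y p w u v v' e := by
  classical
  by_cases h1 : (P1L i psi e).card = 0
  · obtain ⟨b, hb⟩ := card_pos.1 (show 0 < (P1U i psi e).card by omega)
    exact Or.inr (upp_of G hT hQ hM ho O hb)
  · obtain ⟨a, ha⟩ := card_pos.1 (show 0 < (P1L i psi e).card by omega)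
    exact Or.inl (lop_of G hT hQ hM ho O ha)

end main

end Pool.Agent.GaussPoset.Win.Rd
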