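import Pool.Agent.W_448xc_h84.XgP

/-!
# The general exchange (MP_448cb3_co): no guard sites after the exchanges
-/

namespace Pool.Agent.GaussPoset.Win.Rd

set_option linter.unusedSectionVars false

open Finset I2 K2 Xg
open Pool.Agent.GaussPoset.Win.H2 (SdT NoT low_T up_T sum_all)

universe u

variable {P : Type u} [Fintype P] [PartialOrder P] [DecidableEq P] {r i : ℕ} {e : P → ℕ}
variable {psi : P → P} {C : Finset P} {y p w u v v' : P}

/-- at most one pendant below, one above, matched -/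
structure Pnd (i : ℕ) (psi : P → P) (C : Finset P) : Prop where
  low : ∀ q ∈ C, ∀ q' ∈ C, q ∈ PD P i → q' ∈ PD P i → q = q'
  upp : ∀ q ∈ C, ∀ q' ∈ C, q ∈ PU P i → q' ∈ PU P i → q = q'
  mat : ∀ q ∈ C, ∀ q' ∈ C, q ∈ PD P i → q' ∈ PU P i → ∀ a b, uc q = {a} → dc q' = {b} →
    b = psi a

lemma NoP.pnd (h : NoP i C) : Pnd i psi C :=
  ⟨fun q hq _ _ h1 _ => absurd h1 (h q hq).1, fun q hq _ _ h1 _ => absurd h1 (h q hq).2,
    fun q hq _ _ h1 _ => absurd h1 (h q hq).1⟩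

lemma OneP.pnd (O : OneP i psi C y p w u v v') : Pnd i psi C := by
  refine ⟨fun q hq q' hq' h1 h2 => by rw [O.low q hq h1, O.low q' hq' h2],
    fun q hq q' hq' h1 h2 => by rw [O.upp q hq h1, O.upp q' hq' h2],
    fun q hq q' hq' h1 h2 a b ha hb => ?_⟩
  rw [O.low q hq h1, O.F.up] at ha
  rw [O.upp q' hq' h2, O.F.du] at hb
  rw [← singleton_injective ha, ← singleton_injective hb, O.hy]

section main

variable (G : GoodTo P r (i + 1)) (hT : NoT P (i + 2)) (hQ : NoQ P (i + 3)) (hM : Mat P i ∅ psi)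
  (ho : Okc i psi C e) (hex : ∀ d x, CanD i e d x → e x < e d) (hp : Pnd i psi C)
include G hT hQ hM ho hex hp

lemma gs_LL {x y y' : P} (hx : e x = 1) (hy : y ∈ N4L i psi e) (hy' : y' ∈ N4L i psi e)
    (hne : y ≠ y') (h1 : x ∈ uc y) (h2 : x ∈ uc y') : False := by
  classical
  have key : ∀ {y y' : P}, y ∈ N4L i psi e → y' ∈ N4L i psi e → y ≠ y' → x ∈ uc y → x ∈ uc y' →
      ∃ z ∈ C, z ∈ PD P i ∧ uc z = {y} := by
    intro y y' hy hy' hne h1 h2
    obtain ⟨o, x1, z, a1, a2, a3, a4, a5, a6, a7, a8⟩ := n4L_pen G hT hQ hM ho hy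
    have hxx : x = x1 := by
      rw [a2, mem_insert, mem_singleton] at h1
      rcases h1 with rfl | h
      · omega
      · exact h
    subst hxx
    rcases a8 with ⟨b1, b2, b3⟩ | ⟨w1, b1, b2, b3, b4⟩
    · exact ⟨z, b1, b2, b3⟩
    · exfalso
      have h3 := third (dc_card_le G.H x) (mem_dc.2 (mem_uc.1 h2)) (mem_dc.2 (mem_uc.1 h1)) b3
        hne.symm b1
      subst h3
      obtain ⟨d, x', c1, c2⟩ := n4L_place G hT hQ hM ho.adm.l ho.adm.u ho.adm.d ho.core hy hy' hne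
        a6 (mem_dc.2 (mem_uc.1 b2)) a7
      have := hex d x' c1
      omega
  obtain ⟨z, a1, a2, a3⟩ := key hy hy' hne h1 h2
  obtain ⟨z', b1, b2, b3⟩ := key hy' hy hne.symm h2 h1
  have h3 := hp.low z a1 z' b1 a2 b2
  subst h3
  rw [a3] at b3
  exact hne (singleton_injective b3)

lemma gs_UU {x y y' : P} (hx : e x = 1) (hy : y ∈ N4U i psi e) (hy' : y' ∈ N4U i psi e)
    (hne : y ≠ y') (h1 : x ∈ dc y) (h2 : x ∈ dc y') : False := by
  classical
  have key : ∀ {y y' : P}, y ∈ N4U i psi e → y' ∈ N4U i psi e → y ≠ y' → x ∈ dc y → x ∈ dc y' →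
      ∃ z ∈ C, z ∈ PU P i ∧ dc z = {y} := by
    intro y y' hy hy' hne h1 h2
    obtain ⟨o, x1, z, a1, a2, a3, a4, a5, a6, a7, a8⟩ := n4U_pen G hT hQ hM ho hy
    have hxx : x = x1 := by
      rw [a2, mem_insert, mem_singleton] at h1
      rcases h1 with rfl | h
      · omega
      · exact h
    subst hxx
    rcases a8 with ⟨b1, b2, b3⟩ | ⟨w1, b1, b2, b3, b4⟩
    · exact ⟨z, b1, b2, b3⟩
    · exfalso
      have h3 := third (uc_card_le G.H x) (mem_uc.2 (mem_dc.1 h2)) (mem_uc.2 (mem_dc.1 h1)) b3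
        hne.symm b1
      subst h3
      obtain ⟨d, x', c1, c2⟩ := n4U_place G hT hQ hM ho.adm.l ho.adm.u ho.adm.d ho.core hy hy' hne
        a6 (mem_uc.2 (mem_dc.1 b2)) a7
      have := hex d x' c1
      omega
  obtain ⟨z, a1, a2, a3⟩ := key hy hy' hne h1 h2
  obtain ⟨z', b1, b2, b3⟩ := key hy' hy hne.symm h2 h1
  have h3 := hp.upp z a1 z' b1 a2 b2
  subst h3
  rw [a3] at b3
  exact hne (singleton_injective b3)

lemma gs_LU {x y y' : P} (hx : e x = 1) (hy : y ∈ N4L i psi e) (hy' : y' ∈ N4U i psi e)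
    (h1 : x ∈ uc y) (h2 : x ∈ dc y') : False := by
  classical
  obtain ⟨o, x1, z, a1, a2, a3, a4, a5, a6, a7, a8⟩ := n4L_pen G hT hQ hM ho hy
  obtain ⟨o', x1', z', b1, b2, b3, b4, b5, b6, b7, b8⟩ := n4U_pen G hT hQ hM ho hy'
  have hxx : x = x1 := by
    rw [a2, mem_insert, mem_singleton] at h1
    rcases h1 with rfl | h
    · omega
    · exact h
  have hxx' : x = x1' := by
    rw [b2, mem_insert, mem_singleton] at h2
    rcases h2 with rfl | h
    · omega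
    · exact h
  subst hxx
  subst hxx'
  obtain ⟨⟨ly, cy⟩, -, -, -⟩ := mem_N4L' hy
  obtain ⟨⟨ly', cy'⟩, -, -, -⟩ := mem_N4U' hy'
  obtain ⟨⟨p1, p1'⟩, p2, p3⟩ := psiL hM ly cy
  obtain ⟨⟨q1, q1'⟩, q2, q3⟩ := psiU hM ly' cy'
  have ho1 : o ∈ uc y := by rw [a2]; simp
  have ho' : o' ∈ dc y' := by rw [b2]; simp
  have lo := lev_uc G.H ho1
  have lo' := lev_dc G.H ho'
  -- the outer sites are killed on one side only
  have ko : ∀ z ∈ uc o, e z = 0 := by
    intro z hz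
    have := not_both (e := e) ho.adm.d (x := o) (by omega) (mem_dc.2 (mem_uc.1 ho1)) hz
    omega
  have ko' : ∀ z ∈ dc o', e z = 0 := by
    intro z hz
    have := not_both (e := e) ho.adm.d (x := o') (by omega) hz (mem_uc.2 (mem_dc.1 ho'))
    omega
  have hpo : psi y ∈ uc o := by
    rw [mem_uc, ← mem_dc, p2]
    exact ho1
  have hpo' : psi y' ∈ dc o' := by
    rw [mem_dc, ← mem_uc, q2]
    exact ho'
  have hn1 : y' ≠ psi y := by
    rintro rfl
    have := ko _ hpo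
    omega
  have hn2 : psi y' ≠ y := by
    intro h
    apply hn1
    rw [← h, q3]
  have mx : psi y ∈ uc x := by
    rw [mem_uc, ← mem_dc, p2]
    exact h1
  have mx' : psi y' ∈ dc x := by
    rw [mem_dc, ← mem_uc, q2]
    exact h2
  rcases a8 with ⟨c1, c2, c3⟩ | ⟨w1, c1, c2, c3, c4⟩
  · rcases b8 with ⟨d1, d2, d3⟩ | ⟨w2, d1, d2, d3, d4⟩
    · exact hn1 (hp.mat z c1 z' d1 c2 d2 _ _ c3 d3)
    · have h3 := third (uc_card_le G.H x) mx (mem_uc.2 (mem_dc.1 h2)) d3 hn1.symm d1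
      subst h3
      have := ko _ hpo
      omega
  · have h3 := third (dc_card_le G.H x) mx' (mem_dc.2 (mem_uc.1 h1)) c3 hn2 c1
    subst h3
    have := ko' _ hpo'
    omega

/-- no guard sites -/
theorem gs_empty : GS i psi e = ∅ := by
  classical
  rw [eq_empty_iff_forall_notMem]
  intro x hx
  unfold GS at hx
  rw [mem_filter] at hx
  obtain ⟨-, ex, y, y', hne, h1 | h1, h2 | h2⟩ := hx
  · exact gs_LL G hT hQ hM ho hex hp ex h1.1 h2.1 hne h1.2 h2.2
  · exact gs_LU G hT hQ hM ho hex hp ex h1.1 h2.1 h1.2 h2.2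
  · exact gs_LU G hT hQ hM ho hex hp ex h2.1 h1.1 h2.2 h1.2
  · exact gs_UU G hT hQ hM ho hex hp ex h1.1 h2.1 hne h1.2 h2.2

end main

end Pool.Agent.GaussPoset.Win.Rd
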