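import Pool.Agent.W_448xc_h84.XgQ

/-!
# The general exchange (MP_448cb3_co): window sums of a part with at least four sites, orders
-/

namespace Pool.Agent.GaussPoset.Win.Rd

set_option linter.unusedSectionVars false

open Finset I2 K2 Xg
open Pool.Agent.GaussPoset.Win.H2 (SdT NoT low_T up_T sum_all)

universe u

variable {P : Type u} [Fintype P] [PartialOrder P] [DecidableEq P] {r i : ℕ} {e : P → ℕ}
variable {psi : P → P} {C : Finset P} {y p w u v v' : P}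
variable {Q : (P → ℕ) → Prop} {φ : (P → ℕ) → (P → ℕ)}

/-- the class of parts: no pendants, or one pendant below and one above over matched elements -/
structure Cls (r i : ℕ) (psi : P → P) (C : Finset P) (Q : (P → ℕ) → Prop)
    (φ : (P → ℕ) → (P → ℕ)) : Prop where
  G : GoodTo P r (i + 1)
  hT : NoT P (i + 2)
  hQ : NoQ P (i + 3)
  hi : 1 ≤ i
  hM : Mat P i ∅ psi
  hC : Part (i + 1) C
  F : Flp i psi C Q φ
  pnd : Pnd i psi C
  p1 : ∀ e, Okc i psi C e → (P1L i psi e).card + (P1U i psi e).card ≤ 1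
  pq : ∀ e, Okc i psi C e → (P1L i psi e).card + (P1U i psi e).card ≠ 0 → Q e

section mk

variable (G : GoodTo P r (i + 1)) (hT : NoT P (i + 2)) (hQ : NoQ P (i + 3)) (hi : 1 ≤ i)
  (hM : Mat P i ∅ psi) (hC : Part (i + 1) C)
include G hT hQ hi hM hC

theorem Cls.ofNo (h : NoP i C) : Cls r i psi C (fun _ => False) id := by
  have key : ∀ e, Okc i psi C e → (P1L i psi e).card + (P1U i psi e).card = 0 := by
    intro e ho
    by_contra hcon
    by_cases h1 : (P1L i psi e).card = 0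
    · obtain ⟨b, hb⟩ := card_pos.1 (show 0 < (P1U i psi e).card by omega)
      obtain ⟨q, h2, h3, -⟩ := p1U_pen G hT hQ hM ho (P1s_sub hb)
      exact (h q h2).2 h3
    · obtain ⟨b, hb⟩ := card_pos.1 (show 0 < (P1L i psi e).card by omega)
      obtain ⟨q, h2, h3, -⟩ := p1L_pen G hT hQ hM ho (P1s_sub hb)
      exact (h q h2).1 h3
  exact ⟨G, hT, hQ, hi, hM, hC, flp_none, h.pnd, fun e ho => by rw [key e ho]; omega,
    fun e ho h1 => h1 (key e ho)⟩

theorem Cls.ofOne (O : OneP i psi C y p w u v v') :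
    Cls r i psi C (FP y p w u v v') (fl y p w u) :=
  ⟨G, hT, hQ, hi, hM, hC,
    flp_fl G.H hi G.hr O.F hM O.hy hC O.my O.mp O.mw O.mu,
    O.pnd, fun _ ho => p1_one G hT hQ hM ho O, fun _ ho h1 => p1_fp G hT hQ hM ho O h1⟩

end mk

section num

variable (K : Cls r i psi C Q φ)
include K

/-- the numbers of a core -/
theorem Cls.num (ho : Okc i psi C e) : ∃ p t tx nf : ℕ, p ≤ 1 ∧ (p = 0 ∨ Q e) ∧
    5 * t + 2 * p ≤ ∑ z, e z ∧ tx ≤ t ∧ (tx = 0 ∨ 2 * kp i e + 1 ≤ ∑ z, (e z : ℤ)) ∧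
    (nf = 0 ∨ (10 ≤ ∑ z, e z ∧ 2 * kp i e + 1 ≤ ∑ z, (e z : ℤ))) ∧
    6 * kp i e ≤ 2 * ∑ z, (e z : ℤ) + 2 * p + t + tx + 4 * ((Xg.CC i e).card + nf) := by
  classical
  have G := K.G
  obtain ⟨f, ho', h1, h2, h3, h4, h5⟩ := rep G.H K.hC.pred K.F e ho
  have h3' : ∑ z, (f z : ℤ) = ∑ z, (e z : ℤ) := by exact_mod_cast h3
  have hG := gs_empty G K.hT K.hQ K.hM ho' h5 K.pnd
  have hX := generalx G K.hT K.hQ K.hM ho'.adm.l ho'.adm.u ho'.adm.d ho'.core
  have hE := energy_ge G K.hT K.hQ K.hM ho'.adm.l ho'.adm.u ho'.adm.d ho'.core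
  have hW := TWU_empty (e := f) G
  have hWx := TWx_card (i := i) (e := f)
  have hk : kp i f = (AL i f).card + (AU i f).card - pL i f - pU i f := rfl
  refine ⟨(P1L i psi f).card + (P1U i psi f).card, (TWL i f).card, (TWLx i f).card,
    (NFL i f).card, K.p1 f ho', ?_, ?_, hWx.1, ?_, ?_, ?_⟩
  · by_cases h : (P1L i psi f).card + (P1U i psi f).card = 0
    · exact Or.inl h
    · exact Or.inr (h4.1 (K.pq f ho' h))
  · rw [← h3]
    omega
  · by_cases h : (TWLx i f).card = 0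
    · exact Or.inl h
    · right
      obtain ⟨z, hz⟩ := card_pos.1 (show 0 < (TWLx i f).card by omega)
      have := tw_half G K.hT K.hM ho'.adm.l ho'.adm.u ho'.adm.d ho'.core hz
      rw [← h1, ← h3', hk]
      linarith
  · by_cases h : (NFL i f).card = 0
    · exact Or.inl h
    · right
      obtain ⟨z, hz⟩ := card_pos.1 (show 0 < (NFL i f).card by omega)
      refine ⟨by rw [← h3]; exact nf_energy G K.hT ho'.adm.l hz, ?_⟩
      obtain ⟨q, z2, w, w2, y, lq, -, -, -, -, -, -, -, eq3, -⟩ := nf_spec G K.hT ho'.adm.l hz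
      have := half_oneX G K.hT K.hM ho'.adm.l ho'.adm.u ho'.adm.d ho'.core
        (z := q) (Or.inl (by omega)) (by omega)
      rw [← h1, ← h3', hk]
      linarith
  · rw [hG, hW, card_empty] at hX
    rw [← h1, ← h3', hk, ← h2]
    have h6 : (TWUx i f).card = 0 := by
      have := hWx.2
      rw [hW, card_empty] at this
      omega
    rw [h6] at hX
    push_cast at hX ⊢
    linarith

lemma Cls.hs : ∀ x ∈ C, lev x = i → (uc x).card ≤ 2 ∧ (dc x).card ≤ 2 :=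
  fun x _ _ => ⟨uc_card_le K.G.H x, dc_card_le K.G.H x⟩

/-- the leftovers of the orders vanish -/
lemma Cls.lft_empty {n k : ℕ} (h : n ≤ 10) (h1 : 2 * n + 2 * (n / 5) + 1 ≤ 6 * (k + 1))
    (h2 : 10 ≤ n → n ≤ 2 * k + 2) : Lft i psi C Q n k = ∅ := by
  classical
  rw [eq_empty_iff_forall_notMem]
  intro e he
  rw [mem_Lft] at he
  obtain ⟨a1, a2, a3, a4, a5⟩ := he
  obtain ⟨p, t, tx, nf, b1, b2, b3, b4, b5, b6, b7⟩ := K.num a2
  have a1' : ∑ z, (e z : ℤ) = n := by exact_mod_cast a1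
  rw [a4, card_empty, a1', a3] at b7
  rw [a1', a3] at b5 b6
  rw [a1] at b3 b6
  have hp : p = 0 := by
    rcases b2 with b2 | b2
    · exact b2
    · exact absurd b2 a5
  subst hp
  push_cast at b7
  rcases b6 with b6 | b6
  · subst b6
    omega
  · have := h2 b6.1
    omega

/-- the window sum up to the leftover -/
theorem Cls.sum_lft {n k : ℕ}
    (hA : ∀ e, Okc i psi C e → ∑ z, e z ≤ n → kp i e ≤ k + (Xg.CC i e).card ∨
      (kp i e = k + 1 ∧ Q e) ∨ (∑ z, e z = n ∧ kp i e = k + 1 ∧ Xg.CC i e = ∅)) :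
    dd ^ ((st i C).card - k) ∣ ZC i C n - ∑ e ∈ Lft i psi C Q n k, tC i C e :=
  frame K.G.H K.hi K.G.hr K.hM K.hC K.hs K.F hA

/-- the order of the window sum -/
theorem Cls.order {n k : ℕ} (h : n ≤ 10) (h1 : 2 * n + 2 * (n / 5) + 1 ≤ 6 * (k + 1))
    (h2 : 10 ≤ n → n ≤ 2 * k + 2)
    (hA : ∀ e, Okc i psi C e → ∑ z, e z ≤ n → kp i e ≤ k + (Xg.CC i e).card ∨
      (kp i e = k + 1 ∧ Q e) ∨ (∑ z, e z = n ∧ kp i e = k + 1 ∧ Xg.CC i e = ∅)) :
    dd ^ ((st i C).card - k) ∣ ZC i C n := by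
  have h3 := K.sum_lft hA
  rwa [K.lft_empty h h1 h2, sum_empty, sub_zero] at h3

/-- the condition of the frame -/
lemma Cls.cond {n k : ℕ} (hnk : (n = 0 ∧ k = 0) ∨ (n = 1 ∧ k = 0) ∨ (n = 2 ∧ k = 0) ∨
    (n = 3 ∧ k = 1) ∨ (n = 4 ∧ k = 1) ∨ (n = 5 ∧ k = 1) ∨ (n = 5 ∧ k = 2) ∨ (n = 6 ∧ k = 2) ∨
    (n = 7 ∧ k = 2) ∨ (n = 8 ∧ k = 2) ∨ (n = 8 ∧ k = 3) ∨ (n = 9 ∧ k = 3) ∨ (n = 10 ∧ k = 3) ∨
    (n = 10 ∧ k = 4)) (ho : Okc i psi C e) (hs : ∑ z, e z ≤ n) :
    kp i e ≤ k + (Xg.CC i e).card ∨ (kp i e = k + 1 ∧ Q e) ∨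
      (∑ z, e z = n ∧ kp i e = k + 1 ∧ Xg.CC i e = ∅) := by
  classical
  obtain ⟨p, t, tx, nf, b1, b2, b3, b4, b5, b6, b7⟩ := K.num ho
  have hc : Xg.CC i e = ∅ ↔ (Xg.CC i e).card = 0 := card_eq_zero.symm
  rw [hc]
  have hs' : ∑ z, (e z : ℤ) = ((∑ z, e z : ℕ) : ℤ) := by push_cast; rfl
  rw [hs'] at b5 b6 b7
  generalize ∑ z, e z = q at *
  generalize (Xg.CC i e).card = c at *
  generalize kp i e = κ at *
  have hQ : p = 0 ∨ (p = 1 ∧ Q e) := by
    rcases b2 with b2 | b2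
    · exact Or.inl b2
    · by_cases h : p = 0
      · exact Or.inl h
      · exact Or.inr ⟨by omega, b2⟩
  by_cases hq : Q e
  · simp only [hq, and_true]
    rcases hnk with h | h | h | h | h | h | h | h | h | h | h | h | h | h <;>
      obtain ⟨rfl, rfl⟩ := h <;> rcases b5 with b5 | b5 <;> rcases b6 with b6 | b6 <;> omega
  · simp only [hq, and_false, false_or]
    have hp : p = 0 := by tauto
    subst hp
    rcases hnk with h | h | h | h | h | h | h | h | h | h | h | h | h | h <;>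
      obtain ⟨rfl, rfl⟩ := h <;> rcases b5 with b5 | b5 <;> rcases b6 with b6 | b6 <;> omega

end num

end Pool.Agent.GaussPoset.Win.Rd
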