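import Pool.Agent.W_448xc_h84.XgR

/-!
# The general exchange (MP_448cb3_co): the profile of a part with at least four sites up to the
energy ten
-/

namespace Pool.Agent.GaussPoset.Win.Rd

set_option linter.unusedSectionVars false

open Finset I2 K2 Xg
open Pool.Agent.GaussPoset.Win.H2 (SdT NoT low_T up_T sum_all)

universe u

variable {P : Type u} [Fintype P] [PartialOrder P] [DecidableEq P] {r i : ℕ} {e : P → ℕ}
variable {psi : P → P} {C : Finset P}
variable {Q : (P → ℕ) → Prop} {φ : (P → ℕ) → (P → ℕ)}

/-- the profile: at the energy `n` the window sum has the order `V - K10 n` -/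
def K10 (n : ℕ) : ℕ := if n < 3 then 0 else if n < 5 then 1 else if n < 8 then 2 else
  if n < 10 then 3 else 4

variable (K : Cls r i psi C Q φ)
include K

/-- THE PROFILE of a part with at least four sites -/
theorem Cls.prof10 {n : ℕ} (hn : n ≤ 10) : dd ^ ((st i C).card - K10 n) ∣ ZC i C n := by
  refine K.order hn ?_ ?_ (fun e ho hs => K.cond (n := n) (k := K10 n) ?_ ho hs)
  · interval_cases n <;> simp [K10]
  · interval_cases n <;> simp [K10]
  · interval_cases n <;> simp [K10]

/-- the energy five: the leftover has two deficits -/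
theorem Cls.five : dd ^ ((st i C).card - 1) ∣ ZC i C 5 - ∑ e ∈ Lft i psi C Q 5 1, tC i C e :=
  K.sum_lft fun _ ho hs => K.cond (by simp) ho hs

/-- the energy eight: the leftover has three deficits -/
theorem Cls.eight : dd ^ ((st i C).card - 2) ∣ ZC i C 8 - ∑ e ∈ Lft i psi C Q 8 2, tC i C e :=
  K.sum_lft fun _ ho hs => K.cond (by simp) ho hs

/-- the energy ten: the leftover has four deficits -/
theorem Cls.ten : dd ^ ((st i C).card - 3) ∣ ZC i C 10 - ∑ e ∈ Lft i psi C Q 10 3, tC i C e :=
  K.sum_lft fun _ ho hs => K.cond (by simp) ho hs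

end Pool.Agent.GaussPoset.Win.Rd
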