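import Pool.Agent.W_448xc_h84.XgS
import Pool.Agent.W_448wd_h84.WdO
import Pool.Agent.W_448e_h97.EM

/-!
# MP_448cb3_co, case B, the window `j - 1`: the pendants of a component with at least four sites
-/

namespace Pool.Agent.GaussPoset.Wd

set_option linter.unusedSectionVars false

open Finset Win Win.I2 Win.Xg

universe u

variable {P : Type u} [Fintype P] [PartialOrder P] [DecidableEq P] {r j i : ℕ}
  {t : Tops P} {lo hi : ℕ → ℕ} {e : ℕ → ℕ → P} {psi : P → P}

/-- the structure of the level `j + 1`, at the window `i = j - 1` -/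
lemma NJ.noTT (h : NJ P r j) (hij : i + 1 = j) (hi1 : 1 ≤ i) : H2.NoT P (i + 2) := by
  classical
  subst hij
  intro z hz y hy y' hy' hne hc
  rcases (near_level' h.g hi1).1 z y y' hz (mem_uc.1 hy) (mem_uc.1 hy') hne with h1 | h1
  · rw [← card_uc_inter] at h1
    obtain ⟨a, ha⟩ : (uc y ∩ uc y').Nonempty := card_pos.1 (by omega)
    rw [mem_inter] at ha
    exact ⟨a, ha.1, ha.2⟩
  · omega

/-- the part of a top at the window `j - 1`: no pendants, or one pendant below and one above over
matched elements -/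
theorem NJ.dich (h : NJ P r j) (hij : i + 1 = j) (hi1 : 1 ≤ i) (C : Cp.Comp j (t : P) lo hi e)
    (h4 : lo i + 3 ≤ hi i) (hM : Mat P i ∅ psi) :
    Rd.NoP i (SS i t) ∨ ∃ y p w u v v', Rd.OneP i psi (SS i t) y p w u v v' := by
  classical
  have W := C.toWin
  have g := h.g
  have hone := indiv_21 g i (by omega) t t.2
  have hS : S5c lo hi e i := by
    subst hij
    exact (near_level' g hi1).2 t lo hi e t.2 W
  have hmem : ∀ {q : P}, lev q ≤ j + 1 → (q ∈ SS i t ↔ q ≤ (t : P)) := fun hq =>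
    h.mem (by omega) t hq
  have huD : ∀ {q q' : P}, q ∈ SS i t → q' ∈ SS i t → q ∈ PD P i → q' ∈ PD P i → q = q' := by
    intro q q' hq hq' h1 h2
    have l1 := (lev_PD h1).1
    have l2 := (lev_PD h2).1
    have h3 : (PDt i (t : P)).card ≤ 1 := by rw [hone.2]; exact hone.1
    rw [card_le_one] at h3
    exact h3 q (mem_PDt.2 ⟨h1, (hmem (by omega)).1 hq⟩) q' (mem_PDt.2 ⟨h2, (hmem (by omega)).1 hq'⟩)
  have huU : ∀ {q q' : P}, q ∈ SS i t → q' ∈ SS i t → q ∈ PU P i → q' ∈ PU P i → q = q' := by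
    intro q q' hq hq' h1 h2
    have l1 := (mem_PU.1 h1).1
    have l2 := (mem_PU.1 h2).1
    have h3 := hone.1
    rw [card_le_one] at h3
    exact h3 q (mem_PUt.2 ⟨h1, (hmem (by omega)).1 hq⟩) q' (mem_PUt.2 ⟨h2, (hmem (by omega)).1 hq'⟩)
  -- the partner
  have hpsi : ∀ {y w v v' : P}, lev v = i → lev v' = i → v ≠ v' → uc y = {v, v'} →
      dc w = {v, v'} → lev y = i + 1 → psi y = w := by
    intro y w v v' lv lv' hne hy hw ly
    have hyd : y ∈ dbL P i := mem_dbL.2 ⟨ly, by rw [hy, card_pair hne]⟩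
    obtain ⟨h1, h2⟩ := hM.low y hyd (notMem_empty _)
    rw [hy] at h2
    refine (ucv_uniq g (v := v) (v' := v') (by omega) hne (by omega) ?_ ?_ ?_ ?_).symm
    · exact mem_dc.1 (by rw [hw]; simp)
    · exact mem_dc.1 (by rw [hw]; simp)
    · exact mem_dc.1 (by rw [h2]; simp)
    · exact mem_dc.1 (by rw [h2]; simp)
  rcases hS with ⟨g1, g2, -⟩ | ⟨⟨h2i, c1, c2, c3⟩, -, b, hb, hpen⟩ |
    ⟨⟨h2i, c1, c2, c3⟩, -, b, hb, hpen⟩
  · -- no pendants
    left
    have hU0 : ∀ q : P, q ∈ PU P i → ¬ q ≤ (t : P) := by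
      intro q hq hqt
      have hl := (mem_PU.1 hq).1
      obtain ⟨m, rfl⟩ : ∃ m, i = m + 2 := ⟨lev q, by omega⟩
      obtain ⟨k1, k2⟩ := W.PU_cases g t.2 (by omega) hq hqt
      rcases k2 with ⟨a1, a2, -⟩ | ⟨a1, a2, -⟩
      · exact g1 ⟨by omega, a1, a2, by omega⟩
      · exact g2 ⟨by omega, a1, a2, by omega⟩
    have h0 : (PUt i (t : P)).card = 0 := by
      rw [card_eq_zero, eq_empty_iff_forall_notMem]
      intro q hq
      rw [mem_PUt] at hq
      exact hU0 q hq.1 hq.2
    have h1 : (PDt i (t : P)).card = 0 := by rw [hone.2, h0]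
    rw [card_eq_zero, eq_empty_iff_forall_notMem] at h1
    intro q hq
    refine ⟨fun h2 => ?_, fun h2 => ?_⟩
    · have l1 := (lev_PD h2).1
      exact h1 q (mem_PDt.2 ⟨h2, (hmem (by omega)).1 hq⟩)
    · have l1 := (mem_PU.1 h2).1
      exact hU0 q h2 ((hmem (by omega)).1 hq)
  · -- the left end
    right
    obtain ⟨m, rfl⟩ : ∃ m, i = m + 2 := ⟨i - 2, by omega⟩
    rw [show m + 2 - 1 = m + 1 by omega, show m + 2 - 2 = m by omega] at c1
    rw [show m + 2 - 1 = m + 1 by omega] at c2
    have f1 := W.lohi m (by omega)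
    have f2 := W.lohi (m + 1) (by omega)
    have f3 := W.lohi (m + 2) (by omega)
    have f4 := W.hi_ge (m + 1) (by omega)
    have f5 := W.hi_ge m (by omega)
    have f6 := W.hi_le m (by omega)
    have hb' : b = lo (m + 2) + 1 := by
      rcases hb with hb | ⟨hb, hb2⟩
      · exact hb
      · exfalso
        have h5 := NJ.pen_three h (i := m + 1) (by omega) (by omega) C (a := b) (by omega)
          (by rw [show m + 1 + 1 = m + 2 from rfl] at f4; omega)
        have h6 := hpen b (by omega) hb2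
        rw [if_pos rfl] at h6
        rw [show m + 2 + 1 = m + 1 + 2 by omega, h5, card_empty] at h6
        omega
    subst hb'
    have h6 := hpen (lo (m + 2) + 1) (by omega) (by omega)
    rw [if_pos rfl] at h6
    obtain ⟨p, hp⟩ := card_pos.1 (show 0 < (pen (e (m + 2 + 1) (lo (m + 2) + 1))).card by omega)
    have hup := pen_uc hp
    have k1 : lo (m + 3) ≤ lo (m + 2) + 1 := W.lo_ge (m + 2) (by omega)
    have k2 : hi (m + 2) ≤ hi (m + 3) := W.hi_le (m + 2) (by omega)
    have hly := W.lev_x (m + 3) (by omega) (lo (m + 2) + 1) (by omega) (by omega)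
    have hyt := W.le_t (m + 3) (by omega) (lo (m + 2) + 1) (by omega) (by omega)
    have hy := W.uc_eq g t.2 (k := m + 2) (a := lo (m + 2) + 1) (by omega) (by omega) (by omega)
    rw [Nat.add_sub_cancel] at hy
    have hw := W.dc_eq g t.2 (k := m + 1) (b := lo (m + 1)) (by omega) le_rfl f2 (by
      rw [show m + 1 + 1 = m + 2 from rfl]; omega) (by rw [show m + 1 + 1 = m + 2 from rfl]; omega)
    rw [show m + 1 + 1 = m + 2 from rfl, ← c2] at hw
    have lw := W.lev_x (m + 1) (by omega) (lo (m + 1)) le_rfl f2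
    have lu := W.lev_x m (by omega) (lo m) le_rfl f1
    have lv0 := W.lev_x (m + 2) (by omega) (lo (m + 2)) le_rfl f3
    have lv1 := W.lev_x (m + 2) (by omega) (lo (m + 2) + 1) (by omega) (by omega)
    have hne := W.inj (m + 2) (by omega) (lo (m + 2)) (lo (m + 2) + 1) le_rfl (by omega) (by omega)
    have hu : dc (e m (lo m)) = {e (m + 1) (lo (m + 1))} := by
      ext z
      rw [mem_dc, mem_singleton, W.dc_iff g t.2 (by omega) le_rfl f1]
      constructor
      · rintro ⟨a, a1, a2, a3, rfl⟩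
        rw [show a = lo (m + 1) by omega]
      · rintro rfl
        exact ⟨lo (m + 1), le_rfl, f2, by omega, rfl⟩
    have hpC : p ∈ SS (m + 2) t := by
      have hpc := (mem_pen.1 hp).1
      have hlp := lev_cov g.H hpc
      rw [show m + 2 + 1 = m + 3 from rfl] at hlp
      exact (hmem (by omega)).2 (hpc.le.trans hyt)
    have hpD : p ∈ PD P (m + 2) := by
      have hpc := (mem_pen.1 hp).1
      have hlp := lev_cov g.H hpc
      rw [show m + 2 + 1 = m + 3 from rfl] at hlp
      rw [mem_PD]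
      exact ⟨by omega, (mem_pen.1 hp).2, _, hpc, by rw [hy, card_pair hne]⟩
    have hwt := W.le_t (m + 1) (by omega) (lo (m + 1)) le_rfl f2
    have hut := W.le_t m (by omega) (lo m) le_rfl f1
    have huC : e m (lo m) ∈ SS (m + 2) t := (hmem (by omega)).2 hut
    have huU' : e m (lo m) ∈ PU P (m + 2) := W.PU_left g t.2 (by omega) c1 c2 (by omega)
    rw [c2] at hw
    refine ⟨e (m + 3) (lo (m + 2) + 1), p, e (m + 1) (lo (m + 1)), e m (lo m),
      e (m + 2) (lo (m + 2)), e (m + 2) (lo (m + 2) + 1), ?_⟩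
    have hw' : dc (e (m + 1) (lo (m + 1))) = {e (m + 2) (lo (m + 2)), e (m + 2) (lo (m + 2) + 1)} := by
      rw [c2]; exact hw
    exact ⟨⟨by omega, by omega, hy, hw', hne, hup, hu⟩,
      hpsi lv0 lv1 hne hy hw' hly,
      (hmem (by omega)).2 hyt, hpC, (hmem (by omega)).2 hwt, huC,
      fun q hq h1 => huD hq hpC h1 hpD, fun q hq h1 => huU hq huC h1 huU'⟩
  · -- the right end
    right
    obtain ⟨m, rfl⟩ : ∃ m, i = m + 2 := ⟨i - 2, by omega⟩
    rw [show m + 2 - 1 = m + 1 by omega, show m + 2 - 2 = m by omega] at c1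
    rw [show m + 2 - 1 = m + 1 by omega] at c2
    have f1 := W.lohi m (by omega)
    have f2 := W.lohi (m + 1) (by omega)
    have f3 := W.lohi (m + 2) (by omega)
    have f4 := W.lo_le (m + 1) (by omega)
    have f5 := W.lo_le m (by omega)
    have f6 := W.lo_ge m (by omega)
    rw [show m + 1 + 1 = m + 2 from rfl] at f4
    have hb' : b = hi (m + 2) := by
      rcases hb with hb | ⟨hb, hb2⟩
      · exact hb
      · exfalso
        have h5 := NJ.pen_three h (i := m + 1) (by omega) (by omega) C (a := b) (by omega) (by omega)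
        have h6 := hpen b (by omega) (by omega)
        rw [if_pos rfl] at h6
        rw [show m + 2 + 1 = m + 1 + 2 by omega, h5, card_empty] at h6
        omega
    subst hb'
    have h6 := hpen (hi (m + 2)) (by omega) le_rfl
    rw [if_pos rfl] at h6
    obtain ⟨p, hp⟩ := card_pos.1 (show 0 < (pen (e (m + 2 + 1) (hi (m + 2)))).card by omega)
    have hup := pen_uc hp
    have k1 : lo (m + 3) ≤ lo (m + 2) + 1 := W.lo_ge (m + 2) (by omega)
    have k2 : hi (m + 2) ≤ hi (m + 3) := W.hi_le (m + 2) (by omega)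
    have hly := W.lev_x (m + 3) (by omega) (hi (m + 2)) (by omega) (by omega)
    have hyt := W.le_t (m + 3) (by omega) (hi (m + 2)) (by omega) (by omega)
    have hy := W.uc_eq g t.2 (k := m + 2) (a := hi (m + 2)) (by omega) (by omega) le_rfl
    have hw := W.dc_eq g t.2 (k := m + 1) (b := hi (m + 1)) (by omega) f2 le_rfl (by
      rw [show m + 1 + 1 = m + 2 from rfl]; omega) (by rw [show m + 1 + 1 = m + 2 from rfl]; omega)
    rw [show m + 1 + 1 = m + 2 from rfl, ← c2] at hw
    have lw := W.lev_x (m + 1) (by omega) (hi (m + 1)) f2 le_rfl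
    have lu := W.lev_x m (by omega) (hi m) f1 le_rfl
    have lv0 := W.lev_x (m + 2) (by omega) (hi (m + 2) - 1) (by omega) (by omega)
    have lv1 := W.lev_x (m + 2) (by omega) (hi (m + 2)) f3 le_rfl
    have hne := W.inj (m + 2) (by omega) (hi (m + 2) - 1) (hi (m + 2)) (by omega) (by omega) le_rfl
    have hu : dc (e m (hi m)) = {e (m + 1) (hi (m + 1))} := by
      ext z
      rw [mem_dc, mem_singleton, W.dc_iff g t.2 (by omega) f1 le_rfl]
      constructor
      · rintro ⟨a, a1, a2, a3, rfl⟩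
        rw [show a = hi (m + 1) by omega]
      · rintro rfl
        exact ⟨hi (m + 1), f2, le_rfl, by omega, rfl⟩
    have hpC : p ∈ SS (m + 2) t := by
      have hpc := (mem_pen.1 hp).1
      have hlp := lev_cov g.H hpc
      rw [show m + 2 + 1 = m + 3 from rfl] at hlp
      exact (hmem (by omega)).2 (hpc.le.trans hyt)
    have hpD : p ∈ PD P (m + 2) := by
      have hpc := (mem_pen.1 hp).1
      have hlp := lev_cov g.H hpc
      rw [show m + 2 + 1 = m + 3 from rfl] at hlp
      rw [mem_PD]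
      exact ⟨by omega, (mem_pen.1 hp).2, _, hpc, by rw [hy, card_pair hne]⟩
    have hwt := W.le_t (m + 1) (by omega) (hi (m + 1)) f2 le_rfl
    have hut := W.le_t m (by omega) (hi m) f1 le_rfl
    have huC : e m (hi m) ∈ SS (m + 2) t := (hmem (by omega)).2 hut
    have huU' : e m (hi m) ∈ PU P (m + 2) := W.PU_right g t.2 (by omega) c1 c2 (by omega)
    refine ⟨e (m + 3) (hi (m + 2)), p, e (m + 1) (hi (m + 1)), e m (hi m),
      e (m + 2) (hi (m + 2) - 1), e (m + 2) (hi (m + 2)), ?_⟩
    have hw' : dc (e (m + 1) (hi (m + 1))) = {e (m + 2) (hi (m + 2) - 1), e (m + 2) (hi (m + 2))} := by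
      rw [hw, show hi (m + 1) = hi (m + 2) - 1 by omega]
    exact ⟨⟨by omega, by omega, hy, hw', hne, hup, hu⟩,
      hpsi lv0 lv1 hne hy hw' hly,
      (hmem (by omega)).2 hyt, hpC, (hmem (by omega)).2 hwt, huC,
      fun q hq h1 => huD hq hpC h1 hpD, fun q hq h1 => huU hq huC h1 huU'⟩

end Pool.Agent.GaussPoset.Wd
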